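import Mathlib

/-!
# Rank 2 cluster scattering diagrams: definitions

Operators on formal series in the monomials `x^m` (`m ∈ ℤ²`) are given by their matrices: an
operator `T` is encoded by `T n m`, the coefficient of `x^m ŷ^n` in `T (x^m)`, where
`ŷ₁ = x₂^{-b}`, `ŷ₂ = x₁^{c}` and `ŷ^n = ŷ₁^{n₁} ŷ₂^{n₂}` for `n ∈ ℕ²`.

The wall with primitive `n₀` lies in the line orthogonal to the normal vector
`(b n₁, c n₂) / gcd`, and `θ_{n₀}` denotes the automorphism
`x^m ↦ x^m f_{n₀}^{⟨n₀', m⟩}` with `n₀'` this normal vector. The two initial walls are the full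
coordinate axes, with functions `1 + ŷ₁` (the axis `m₁ = 0`) and `1 + ŷ₂` (the axis `m₂ = 0`); the
outgoing wall of `n₀` is the ray spanned by `(-c n₂, b n₁)`, in the second quadrant. A
counterclockwise loop that starts in the fourth quadrant crosses: the axis `m₂ = 0` (against the
sign convention, contributing `θ₂⁻¹`), the axis `m₁ = 0` (`θ₁`), the outgoing walls in the order of
increasing slope `n₂ / n₁` (each `θ_{n₀}`), the axis `m₂ = 0` (`θ₂`) and the axis `m₁ = 0`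
(`θ₁⁻¹`). So the path-ordered product, in which later crossings stand to the left, is trivial if and
only if `θ₁ θ₂ = θ₂ (∏ θ_{n₀}) θ₁`, the product being taken from left to right in the order of
decreasing slope. For `b = c = 1` this is the pentagon identity, with `f_{(1,1)} = 1 + ŷ₁ ŷ₂`.
-/

set_option autoImplicit false

namespace Pool.Agent.H45.Scat

open Finset

/-- The exponent vector (in `x₁, x₂`) of `ŷ^n`, where `ŷ₁ = x₂^{-b}` and `ŷ₂ = x₁^c`. -/
def yexp (b c : ℕ) (n : ℕ × ℕ) : ℤ × ℤ := ((c : ℤ) * n.2, -((b : ℤ) * n.1))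

/-- Operators: `T n m` is the coefficient of `x^m ŷ^n` in `T (x^m)`. -/
abbrev Op := ℕ × ℕ → ℤ × ℤ → ℚ

/-- Composition `S ∘ T`: `T (x^m) = ∑ T p m x^{m + yexp p}`, then apply `S`. -/
def comp (b c : ℕ) (S T : Op) : Op := fun n m =>
  ∑ p ∈ Finset.Iic n, S (n - p) (m + yexp b c p) * T p m

/-- The identity operator. -/
def one : Op := fun n _ => if n = 0 then 1 else 0

/-- Integer powers of a power series (with nonzero constant coefficient). -/
noncomputable def zpow (f : PowerSeries ℚ) (e : ℤ) : PowerSeries ℚ :=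
  if 0 ≤ e then f ^ e.toNat else (f⁻¹) ^ (-e).toNat

/-- The pairing of the exponent `m` with the primitive vector `(b n₁, c n₂) / gcd (b n₁, c n₂)`,
which is normal to the exponent vector `(c n₂, -b n₁)` of `ŷ^n`. -/
def pair (b c : ℕ) (n : ℕ × ℕ) (m : ℤ × ℤ) : ℤ :=
  (((n.1 * b : ℕ) : ℤ) * m.1 + ((n.2 * c : ℕ) : ℤ) * m.2) / (Nat.gcd (n.1 * b) (n.2 * c) : ℤ)

/-- The wall-crossing automorphism `x^m ↦ x^m f(ŷ^{n₀})^{⟨n₀', m⟩}` for a primitive `n₀`, where
`n₀'` is the primitive normal vector: the coefficient of `x^m ŷ^n` is zero unless `n` is a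
multiple `l n₀`, and then `l = gcd n`. -/
noncomputable def cross (b c : ℕ) (n₀ : ℕ × ℕ) (f : PowerSeries ℚ) : Op := fun n m =>
  if n.1 * n₀.2 = n.2 * n₀.1 then
    PowerSeries.coeff (Nat.gcd n.1 n.2) (zpow f (pair b c n₀ m))
  else 0

/-- The rank 2 diagram with full walls `1 + ŷ₁` and `1 + ŷ₂` and with, for each primitive `n₀`
with positive coordinates, one outgoing wall with function `f n₀ (ŷ^{n₀})`, is consistent: modulo
every power of the ideal `(ŷ₁, ŷ₂)`, the crossing `θ₁ ∘ θ₂` of the two initial walls equals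
`θ₂ ∘ (∏ θ_{n₀}) ∘ θ₁`, the finite product being over the primitive `n₀` with positive coordinates
and coordinate sum at most `N`, from left to right in the order of decreasing slope
`n₀.2 / n₀.1`. -/
def Consistent (b c : ℕ) (f : ℕ × ℕ → PowerSeries ℚ) : Prop :=
  ∀ N : ℕ, ∃ L : List (ℕ × ℕ),
    (∀ p : ℕ × ℕ, p ∈ L ↔ 1 ≤ p.1 ∧ 1 ≤ p.2 ∧ Nat.Coprime p.1 p.2 ∧ p.1 + p.2 ≤ N) ∧
    L.Pairwise (fun p q => q.2 * p.1 < p.2 * q.1) ∧
    ∀ n : ℕ × ℕ, n.1 + n.2 ≤ N → ∀ m : ℤ × ℤ,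
      comp b c (cross b c (1, 0) (1 + PowerSeries.X)) (cross b c (0, 1) (1 + PowerSeries.X)) n m =
      comp b c (cross b c (0, 1) (1 + PowerSeries.X))
        (comp b c ((L.map fun p => cross b c p (f p)).foldr (comp b c) one)
          (cross b c (1, 0) (1 + PowerSeries.X))) n m

/-- Polynomials in `b = X 0` and `c = X 1`. -/
abbrev Pol := MvPolynomial (Fin 2) ℚ

/-- The binomial coefficient `x (x - 1) ⋯ (x - s + 1) / s!` -/
noncomputable def binom {A : Type*} [CommRing A] [Algebra ℚ A] (x : A) (s : ℕ) : A :=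
  algebraMap ℚ A (1 / (s.factorial : ℚ)) * ∏ i ∈ Finset.range s, (x - (i : A))

/-- The polynomial `T_n ∈ ℚ[b, c][G]` of the problem, `n = l n₀`, `l = gcd n`:
the sum over `s₁, …, s_l` with `s₁ + 2 s₂ + ⋯ + l s_l = l` of `∏ binom (G U_{j n₀}) s_j`. -/
noncomputable def T (U : ℕ × ℕ → Pol) (n : ℕ × ℕ) : Polynomial Pol :=
  ∑ s ∈ (Finset.univ : Finset (Fin (Nat.gcd n.1 n.2) → Fin (Nat.gcd n.1 n.2 + 1))).filter
      (fun s => ∑ j, (j.1 + 1) * (s j).1 = Nat.gcd n.1 n.2),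
    ∏ j, binom (Polynomial.X * Polynomial.C
      (U ((j.1 + 1) • (n.1 / Nat.gcd n.1 n.2, n.2 / Nat.gcd n.1 n.2)))) (s j).1

/-- `τ^{(b,c)}(n; k)`, the coefficient of `G^k` in `T_n`. -/
noncomputable def tau (U : ℕ × ℕ → Pol) (n : ℕ × ℕ) (k : ℕ) : Pol := (T U n).coeff k

/-- `g(n; b, c)`. -/
def g (n : ℕ × ℕ) (b c : ℕ) : ℕ := Nat.gcd (n.1 * b) (n.2 * c) / Nat.gcd n.1 n.2

/-- The wall function `f_{n₀}` given by the exponents `U`: the coefficient of `ŷ^{l n₀}` is
`T_{l n₀}` at `G = g(n₀; b, c)` and the numbers `b`, `c`. -/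
noncomputable def wallFun (U : ℕ × ℕ → Pol) (b c : ℕ) (n₀ : ℕ × ℕ) : PowerSeries ℚ :=
  PowerSeries.mk fun l => MvPolynomial.eval ![(b : ℚ), (c : ℚ)]
    (Polynomial.eval (g n₀ b c : Pol) (T U (l • n₀)))

/-- `U` is the family of exponents of the rank 2 cluster scattering diagrams: for all integers
`b, c ≥ 1` the diagram with wall functions
`f_{n₀} = (∏ (1 + ŷ^{k n₀})^{U_{k n₀}(c,b)})^{g(n₀; b, c)}` is consistent. -/
def IsExponents (U : ℕ × ℕ → Pol) : Prop :=
  ∀ b c : ℕ, 1 ≤ b → 1 ≤ c → Consistent b c (wallFun U b c)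

end Pool.Agent.H45.Scat
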