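import Pool.Agent.H45.Scat.TDeg
set_option autoImplicit false
namespace Pool.Agent.H45.Scat
open Finset PowerSeries

/-- `a_n` with `h_n = b c a_n` -/
noncomputable def aP (K : ℕ × ℕ → ℕ × ℕ → Pol) (n : ℕ × ℕ) : Pol :=
  MvPolynomial.divMonomial (hOf K n) (ev 1 1)

theorem coeff_aP (K : ℕ × ℕ → ℕ × ℕ → Pol) (n : ℕ × ℕ) (s : Fin 2 →₀ ℕ) :
    MvPolynomial.coeff s (aP K n) = MvPolynomial.coeff (ev 1 1 + s) (hOf K n) :=
  MvPolynomial.coeff_divMonomial _ _ _

theorem hOf_eq {K : ℕ × ℕ → ℕ × ℕ → Pol} (hK : IsK K) {n : ℕ × ℕ} (h1 : 1 ≤ n.1) (h2 : 1 ≤ n.2) :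
    hOf K n = MvPolynomial.monomial (ev 1 1) 1 * aP K n := by
  classical
  have hn : n ≠ 0 := by
    rintro rfl
    simp at h1
  have hg := (K_claims hK n hn).2.2.1
  ext s
  rw [MvPolynomial.coeff_monomial_mul', one_mul]
  split_ifs with h
  · rw [coeff_aP, add_tsub_cancel_of_le h]
  · by_contra hne
    apply h
    have h3 := hg.lo s hne
    intro i
    fin_cases i
    · simpa [ev] using h3.1 h2
    · simpa [ev] using h3.2 h1

theorem monomial_ev_eval (b c : ℚ) :
    MvPolynomial.eval ![b, c] (MvPolynomial.monomial (ev 1 1) (1 : ℚ)) = b * c := by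
  rw [MvPolynomial.eval_monomial, one_mul]
  unfold ev
  rw [Finsupp.prod_add_index' (by simp) (by intro a b₁ b₂; exact pow_add _ _ _)]
  simp

theorem aP_bd {K : ℕ × ℕ → ℕ × ℕ → Pol} (hK : IsK K) {n : ℕ × ℕ} (h1 : 1 ≤ n.1) (h2 : 1 ≤ n.2) :
    Bd (n.2 - 1) (n.1 - 1) (aP K n) ∧ 0 < tp (n.2 - 1) (n.1 - 1) (aP K n) := by
  have hn : n ≠ 0 := by
    rintro rfl
    simp at h1
  obtain ⟨-, -, hg, -, hpos⟩ := K_claims hK n hn
  constructor
  · intro s hs
    rw [coeff_aP] at hs
    have := hg.bd _ hs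
    simp only [Finsupp.add_apply, ev_zero, ev_one] at this
    omega
  · have h3 := hpos h1 h2
    unfold top tp at h3
    unfold tp
    rw [coeff_aP, ← ev_add, add_comm 1 (n.2 - 1), add_comm 1 (n.1 - 1), Nat.sub_add_cancel h1,
      Nat.sub_add_cancel h2]
    exact h3

theorem gcd_smul_prim_eq {n : ℕ × ℕ} (hn : n ≠ 0) {j : ℕ} (hj : 1 ≤ j) :
    prim (j • prim n) = prim n ∧ Nat.gcd (j • prim n).1 (j • prim n).2 = j := by
  have hc := prim_coprime (size_pos hn)
  exact ⟨prim_smul hc hj, gcd_smul hc j⟩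

/-- the exponents exist -/
theorem exists_U (a : ℕ × ℕ → Pol) : ∃ U : ℕ × ℕ → Pol, ∀ μ : ℕ × ℕ, Nat.Coprime μ.1 μ.2 →
    ∀ k, 1 ≤ k → aOf (fun j => U (j • μ)) k = a (k • μ) := by
  obtain ⟨U, hU⟩ := exists_fix (α := ℕ × ℕ) (β := Pol) (fun n => n.1 + n.2)
    (fun U n => a n - algebraMap ℚ Pol (1 / (Nat.gcd n.1 n.2 : ℚ)) *
      ∑ j ∈ (Nat.gcd n.1 n.2).properDivisors,
        (-1) ^ (Nat.gcd n.1 n.2 / j - 1) * (j : Pol) * U (j • prim n)) (by
    intro U U' n h
    congr 2
    refine Finset.sum_congr rfl fun j hj => ?_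
    rw [Nat.mem_properDivisors] at hj
    rw [h (j • prim n)]
    have hg : 0 < Nat.gcd n.1 n.2 := by omega
    have hn : 1 ≤ n.1 + n.2 := by
      by_contra hlt
      have h1 : n.1 = 0 := by omega
      have h2 : n.2 = 0 := by omega
      rw [h1, h2] at hg
      simp at hg
    have hp := ne_zero_of_coprime (prim_coprime hn)
    have h1 : n.1 = Nat.gcd n.1 n.2 * (prim n).1 := by
      conv_lhs => rw [← gcd_smul_prim n]
      simp
    have h2 : n.2 = Nat.gcd n.1 n.2 * (prim n).2 := by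
      conv_lhs => rw [← gcd_smul_prim n]
      simp
    simp only [Prod.smul_fst, Prod.smul_snd, smul_eq_mul]
    have h3 : n.1 + n.2 = Nat.gcd n.1 n.2 * ((prim n).1 + (prim n).2) := by
      rw [mul_add, ← h1, ← h2]
    rw [h3, ← mul_add]
    exact Nat.mul_lt_mul_of_pos_right hj.2 hp)
  refine ⟨U, fun μ hμ k hk => ?_⟩
  have h1 := hU (k • μ)
  rw [gcd_smul hμ, prim_smul hμ hk] at h1
  unfold aOf
  rw [← Nat.cons_self_properDivisors (by omega : k ≠ 0), Finset.sum_cons, Nat.div_self hk]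
  simp only [Nat.sub_self, pow_zero, one_mul]
  rw [mul_add, h1]
  have h3 : algebraMap ℚ Pol (1 / (k : ℚ)) * (k : Pol) = 1 := by
    have : (k : Pol) = algebraMap ℚ Pol (k : ℚ) := by simp
    rw [this, ← map_mul, one_div, inv_mul_cancel₀ (by positivity), map_one]
  rw [← mul_assoc, h3]
  ring

section numeric

variable {b c : ℕ} (K : ℕ × ℕ → ℕ × ℕ → Pol) (U : ℕ × ℕ → Pol)

/-- evaluation at the numbers `b, c` -/
noncomputable def evl (b c : ℕ) : Pol →+* ℚ := MvPolynomial.eval ![(b : ℚ), (c : ℚ)]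

theorem evl_C (r : ℚ) : evl b c (MvPolynomial.C r) = r := MvPolynomial.eval_C _

theorem evl_X0 : evl b c (MvPolynomial.X 0) = b := by simp [evl]

theorem evl_X1 : evl b c (MvPolynomial.X 1) = c := by simp [evl]

theorem g_coprime {μ : ℕ × ℕ} (hμ : Nat.Coprime μ.1 μ.2) :
    g μ b c = Nat.gcd (μ.1 * b) (μ.2 * c) := by
  unfold g
  rw [hμ, Nat.div_one]

/-- coefficients of the wall functions -/
theorem coeff_wallFun (U : ℕ × ℕ → Pol) {μ : ℕ × ℕ} (hμ : Nat.Coprime μ.1 μ.2) (l : ℕ) :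
    coeff l (wallFun U b c μ) =
      expoP (fun k => evl b c (aOf (fun j => U (j • μ)) k)) (g μ b c : ℚ) l := by
  rw [wallFun, coeff_mk, T_eq]
  rcases Nat.eq_zero_or_pos l with rfl | hl
  · simp [expoP_zero]
  · rw [gcd_smul hμ, prim_smul hμ hl]
    have h1 : Polynomial.eval (g μ b c : Pol) (expoP (fun k => Polynomial.C
        (aOf (fun j => U (j • μ)) k)) Polynomial.X l) =
        expoP (fun k => aOf (fun j => U (j • μ)) k) (g μ b c : Pol) l := by
      have := expoP_map (Polynomial.evalRingHom (g μ b c : Pol))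
        (fun k => Polynomial.C (aOf (fun j => U (j • μ)) k)) Polynomial.X l
      simpa using this
    rw [h1]
    have := expoP_map (evl b c) (fun k => aOf (fun j => U (j • μ)) k) (g μ b c : Pol) l
    rw [map_natCast] at this
    exact this

theorem constantCoeff_wallFun (U : ℕ × ℕ → Pol) (μ : ℕ × ℕ) :
    constantCoeff (wallFun U b c μ) = 1 := by
  rw [← coeff_zero_eq_constantCoeff_apply, wallFun, coeff_mk, T_eq]
  simp [expoP_zero]

theorem expoP_rec {A : Type*} [CommRing A] [Algebra ℚ A] (h : ℕ → A) (e : A) (l : ℕ) :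
    (l : A) * expoP h e l =
      e * ∑ k ∈ Finset.range l, ((k + 1 : ℕ) : A) * h (k + 1) * expoP h e (l - 1 - k) := by
  rcases Nat.eq_zero_or_pos l with rfl | hl
  · simp
  · rw [expoP_eq _ _ hl, ← mul_assoc]
    have h3 : (l : A) * algebraMap ℚ A (1 / (l : ℚ)) = 1 := by
      have : (l : A) = algebraMap ℚ A (l : ℚ) := by simp
      rw [this, ← map_mul, one_div, mul_inv_cancel₀ (by positivity), map_one]
    rw [h3, one_mul]

/-- the logarithmic derivative of an exponential series -/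
theorem zd_of_expoP {f : PowerSeries ℚ} {h : ℕ → ℚ} {e : ℚ} (hf : ∀ l, coeff l f = expoP h e l) :
    zd f = (PowerSeries.mk fun k => e * k * h k) * f := by
  ext l
  rw [coeff_zd, PowerSeries.coeff_mul,
    Finset.Nat.sum_antidiagonal_eq_sum_range_succ
      (fun a b => coeff a (PowerSeries.mk fun k => e * k * h k) * coeff b f),
    Finset.sum_range_succ', hf, expoP_rec, Finset.mul_sum]
  simp only [coeff_mk, Nat.cast_zero, mul_zero, zero_mul, add_zero]
  refine Finset.sum_congr rfl fun k _ => ?_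
  rw [hf, show l - (k + 1) = l - 1 - k by omega]
  ring

/-- exponentials from logarithmic derivatives -/
theorem coeff_zpow_expoP {f L : PowerSeries ℚ} (hf : constantCoeff f = 1) (hL : zd f = L * f)
    {h : ℕ → ℚ} {e : ℚ} {x : ℤ} (hx : ∀ k, 1 ≤ k → (x : ℚ) * coeff k L = e * (k * h k)) (l : ℕ) :
    coeff l (zpow f x) = expoP h e l := by
  apply expoP_unique (s := fun l => coeff l (zpow f x))
  · rw [coeff_zero_eq_constantCoeff_apply, constantCoeff_zpow _ hf]
  · intro l hl
    have h1 := congrArg (coeff l) (zd_zpow f L hf hL x)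
    have hx' : ((x : ℤ) : PowerSeries ℚ) = C ((x : ℤ) : ℚ) := by simp
    rw [coeff_zd, hx', mul_assoc, coeff_C_mul, PowerSeries.coeff_mul,
      Finset.Nat.sum_antidiagonal_eq_sum_range_succ
        (fun i j => coeff i L * coeff j (zpow f x)), Finset.sum_range_succ'] at h1
    rw [h1, coeff_zero_L hf hL, zero_mul, add_zero, Finset.mul_sum, Finset.mul_sum]
    refine Finset.sum_congr rfl fun k _ => ?_
    have := hx (k + 1) (by omega)
    rw [show l - (k + 1) = l - 1 - k by omega, ← mul_assoc, this]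
    ring

/-- all wall functions -/
noncomputable def fAll (b c : ℕ) (U : ℕ × ℕ → Pol) (μ : ℕ × ℕ) : PowerSeries ℚ :=
  if μ = (1, 0) ∨ μ = (0, 1) then 1 + X else wallFun U b c μ

/-- the logarithmic derivatives of all wall functions -/
noncomputable def LAll (b c : ℕ) (K : ℕ × ℕ → ℕ × ℕ → Pol) (μ : ℕ × ℕ) : PowerSeries ℚ :=
  PowerSeries.mk fun k => (Nat.gcd (μ.1 * b) (μ.2 * c) : ℚ) * k * evl b c (hOf K (k • μ)) /
    ((b : ℚ) * c)

variable {K U}

theorem K_col {K : ℕ × ℕ → ℕ × ℕ → Pol} (hK : IsK K) (k : ℕ) :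
    K (k • ((0, 1) : ℕ × ℕ)) (k • ((0, 1) : ℕ × ℕ)) = X0p (k • ((0, 1) : ℕ × ℕ)) := by
  rw [hK, Finset.sum_eq_zero, add_zero]
  intro m hm
  simp only [Finset.mem_filter, Finset.mem_Iic] at hm
  exfalso
  have h1 : m.1 ≤ (k • ((0, 1) : ℕ × ℕ)).1 := hm.1.1
  simp at h1
  have h2 := hm.2.2.2
  simp [wd, h1] at h2

theorem K_row {K : ℕ × ℕ → ℕ × ℕ → Pol} (hK : IsK K) {k : ℕ} (hk : 1 ≤ k) :
    K (k • ((1, 0) : ℕ × ℕ)) (k • ((1, 0) : ℕ × ℕ)) = 0 := by
  rw [hK, Finset.sum_eq_zero, add_zero]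
  · unfold X0p
    rw [if_neg]
    rintro ⟨h1, -⟩
    simp at h1
    omega
  · intro m hm
    simp only [Finset.mem_filter, Finset.mem_Iic] at hm
    exfalso
    have h2 := hm.2.2.2
    have h1 : m.2 ≤ (k • ((1, 0) : ℕ × ℕ)).2 := hm.1.2
    simp at h1
    simp [wd, h1] at h2

theorem hOf_row (k : ℕ) (hk : 1 ≤ k) : evl b c (hOf K (k • ((1, 0) : ℕ × ℕ))) =
    (-1 : ℚ) ^ (k - 1) / k * c := by
  have h1 : (k • ((1, 0) : ℕ × ℕ)) = (k, 0) := by simp
  rw [h1, hOf, if_pos rfl, initp, if_pos hk, map_mul, evl_C, evl_X1]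

theorem hOf_col (hK : IsK K) (k : ℕ) (hk : 1 ≤ k) : evl b c (hOf K (k • ((0, 1) : ℕ × ℕ))) =
    (-1 : ℚ) ^ (k - 1) / k * b := by
  have h1 := K_col hK k
  have h2 : prim (k • ((0, 1) : ℕ × ℕ)) = (0, 1) := prim_smul (by simp) hk
  rw [hOf, if_neg (by simp; omega), h1, h2, X0p, if_pos (by simp; omega), map_mul, map_mul, evl_C,
    evl_C, evl_X0]
  simp

theorem zd_one_add_X : zd (1 + X : PowerSeries ℚ) =
    (PowerSeries.mk fun k => if k = 0 then 0 else (-1 : ℚ) ^ (k - 1)) * (1 + X) := by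
  ext l
  rw [coeff_zd, mul_add, mul_one, map_add, map_add, coeff_mk]
  rcases l with _ | l
  · simp
  · rw [coeff_succ_mul_X, coeff_mk, coeff_one, coeff_X]
    rcases l with _ | l
    · simp
    · simp [pow_succ]

theorem data_all (hb : 1 ≤ b) (hc : 1 ≤ c) (hK : IsK K)
    (hU : ∀ μ : ℕ × ℕ, Nat.Coprime μ.1 μ.2 → ∀ k, 1 ≤ k →
      aOf (fun j => U (j • μ)) k = aP K (k • μ)) :
    Data b c (fAll b c U) (LAll b c K) (fun n => evl b c (X0p n) / ((b : ℚ) * c))
      (fun n r => evl b c (K n r) / ((b : ℚ) * c)) := by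
  have hb' : (b : ℚ) ≠ 0 := by positivity
  have hc' : (c : ℚ) ≠ 0 := by positivity
  have hf : ∀ μ : ℕ × ℕ, constantCoeff (fAll b c U μ) = 1 := by
    intro μ
    unfold fAll
    split_ifs
    · simp
    · exact constantCoeff_wallFun U μ
  have hL : ∀ μ : ℕ × ℕ, Nat.Coprime μ.1 μ.2 → zd (fAll b c U μ) = LAll b c K μ * fAll b c U μ := by
    intro μ hμ
    unfold fAll
    split_ifs with h
    · rw [zd_one_add_X]
      congr 1
      ext k
      rw [coeff_mk, LAll, coeff_mk]
      rcases h with rfl | rfl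
      · split_ifs with hk
        · rw [hk]; simp
        · rw [hOf_row k (by omega)]
          have hk' : (k : ℚ) ≠ 0 := by exact_mod_cast hk
          simp
          field_simp
      · split_ifs with hk
        · rw [hk]; simp
        · rw [hOf_col hK k (by omega)]
          have hk' : (k : ℚ) ≠ 0 := by exact_mod_cast hk
          simp
          field_simp
    · have h1 : 1 ≤ μ.1 := by
        rcases Nat.eq_zero_or_pos μ.1 with h0 | h0
        · exfalso
          apply h
          right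
          rw [h0] at hμ
          ext
          · exact h0
          · simpa using hμ
        · exact h0
      have h2 : 1 ≤ μ.2 := by
        rcases Nat.eq_zero_or_pos μ.2 with h0 | h0
        · exfalso
          apply h
          left
          rw [h0] at hμ
          ext
          · simpa using hμ
          · exact h0
        · exact h0
      rw [zd_of_expoP (coeff_wallFun U hμ)]
      congr 1
      ext k
      rw [coeff_mk, LAll, coeff_mk, g_coprime hμ]
      rcases Nat.eq_zero_or_pos k with rfl | hk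
      · simp
      · have h3 : 1 ≤ (k • μ).1 := Nat.mul_pos hk h1
        have h4 : 1 ≤ (k • μ).2 := Nat.mul_pos hk h2
        rw [hU μ hμ k hk, hOf_eq hK h3 h4, map_mul]
        have h5 : evl b c (MvPolynomial.monomial (ev 1 1) (1 : ℚ)) = (b : ℚ) * c :=
          monomial_ev_eval _ _
        rw [h5]
        field_simp
  refine ⟨hb, hc, fun μ _ => hf μ, hL, ?_, ?_⟩
  · intro n r
    conv_lhs => rw [hK n r]
    rw [map_add, map_sum, add_div, Finset.sum_div]
    congr 1
    refine Finset.sum_congr rfl fun m hm => ?_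
    simp only [Finset.mem_filter, Finset.mem_Iic] at hm
    have hm0 := size_pos hm.2.1
    have hμ := prim_coprime hm0
    have hg := gcd_pos hb hc hμ
    have hE : coefE b c (fAll b c U) m n = expoP (fun k => evl b c (hOf K (k • prim m)))
        ((wd (prim m) n : ℤ) : ℚ) (Nat.gcd m.1 m.2) := by
      unfold coefE
      apply coeff_zpow_expoP (hf _) (hL _ hμ)
      intro k hk
      have h1 : ((Nat.gcd ((prim m).1 * b) ((prim m).2 * c) : ℕ) : ℚ) *
          (pair b c (prim m) (yexp b c n) : ℚ) = (b : ℚ) * c * (wd (prim m) n : ℚ) := by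
        have h2 := pair_mul (b := b) (c := c) (prim m) (yexp b c n)
        rw [om_yexp] at h2
        unfold wd
        exact_mod_cast h2
      rw [LAll, coeff_mk]
      rw [mul_div_assoc', div_eq_iff (by positivity)]
      linear_combination ((k : ℚ) * evl b c (hOf K (k • prim m))) * h1
    rw [hE, map_mul, mul_div_assoc]
    congr 1
    have := expoP_map (evl b c) (fun k => hOf K (k • prim m)) ((wd (prim m) n : ℤ) : Pol)
      (Nat.gcd m.1 m.2)
    rw [map_intCast] at this
    exact this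
  · intro μ hμ k hk
    rw [LAll, coeff_mk]
    rcases Nat.eq_zero_or_pos μ.2 with h2 | h2
    · have h1 : μ = (1, 0) := by
        rw [h2] at hμ
        ext
        · simpa using hμ
        · exact h2
      rw [h1, K_row hK hk]
      simp
    · have h4 : (k • μ).2 ≠ 0 := (Nat.mul_pos hk h2).ne'
      have h5 : (μ.2 : ℚ) * evl b c (hOf K (k • μ)) = evl b c (K (k • μ) (k • μ)) := by
        rw [hOf, if_neg h4, prim_smul hμ hk, map_mul, evl_C]
        have : (μ.2 : ℚ) ≠ 0 := by positivity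
        field_simp
      rw [← h5]
      ring

theorem consistent_all (hb : 1 ≤ b) (hc : 1 ≤ c) (hK : IsK K)
    (hU : ∀ μ : ℕ × ℕ, Nat.Coprime μ.1 μ.2 → ∀ k, 1 ≤ k →
      aOf (fun j => U (j • μ)) k = aP K (k • μ)) : Consistent b c (wallFun U b c) := by
  intro N
  obtain ⟨L, hL, hLs⟩ := exists_list N
  refine ⟨L, hL, hLs, ?_⟩
  have h1 : L.map (fun p => cross b c p (wallFun U b c p)) =
      L.map (fun p => cross b c p (fAll b c U p)) := by
    apply List.map_congr_left
    intro q hq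
    have hq' := (hL q).1 hq
    have : fAll b c U q = wallFun U b c q := if_neg (by
      rintro (rfl | rfl)
      · simp at hq'
      · simp at hq')
    rw [this]
  rw [h1]
  have hD := data_all hb hc hK hU
  refine consistent_of_data hD ?_ ?_ (if_pos (Or.inl rfl)) (if_pos (Or.inr rfl)) N L hL hLs
  · intro n hn
    simp only [X0p]
    rw [if_neg (by omega)]
    simp
  · simp [X0p]

end numeric

theorem expoP_inj {h h' : ℕ → ℚ} {e : ℚ} (he : e ≠ 0)
    (H : ∀ l, expoP h e l = expoP h' e l) : ∀ k, 1 ≤ k → h k = h' k := by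
  intro k
  induction k using Nat.strong_induction_on with
  | _ k ih =>
    intro hk
    obtain ⟨l, rfl⟩ : ∃ l, k = l + 1 := ⟨k - 1, by omega⟩
    have h1 := expoP_rec h e (l + 1)
    have h2 := expoP_rec h' e (l + 1)
    rw [← H (l + 1), h1] at h2
    have h3 := mul_left_cancel₀ he h2
    rw [Finset.sum_range_succ, Finset.sum_range_succ] at h3
    have h4 : ∑ k ∈ Finset.range l, ((k + 1 : ℕ) : ℚ) * h (k + 1) * expoP h e (l + 1 - 1 - k) =
        ∑ k ∈ Finset.range l, ((k + 1 : ℕ) : ℚ) * h' (k + 1) * expoP h' e (l + 1 - 1 - k) := by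
      refine Finset.sum_congr rfl fun j hj => ?_
      rw [Finset.mem_range] at hj
      rw [H, ih (j + 1) (by omega) (by omega)]
    rw [h4] at h3
    have h5 := add_left_cancel h3
    rw [show l + 1 - 1 - l = 0 by omega, expoP_zero, expoP_zero, mul_one, mul_one] at h5
    exact mul_left_cancel₀ (by positivity) h5

theorem pol_ext {p q : Pol} (h : ∀ b c : ℕ, 1 ≤ b → 1 ≤ c → evl b c p = evl b c q) : p = q := by
  have hinf : (Set.range fun n : ℕ => ((n + 1 : ℕ) : ℚ)).Infinite := by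
    apply Set.infinite_range_of_injective
    intro a b h
    simpa using h
  apply MvPolynomial.funext_set (fun _ => Set.range fun n : ℕ => ((n + 1 : ℕ) : ℚ))
    (fun _ => hinf)
  intro x hx
  obtain ⟨m, hm⟩ := hx 0 (Set.mem_univ _)
  obtain ⟨n, hn⟩ := hx 1 (Set.mem_univ _)
  have hxe : x = ![((m + 1 : ℕ) : ℚ), ((n + 1 : ℕ) : ℚ)] := by
    funext i
    fin_cases i
    · exact hm.symm
    · exact hn.symm
  rw [hxe]
  exact h (m + 1) (n + 1) (by omega) (by omega)

/-- any two families of exponents have the same logarithmic coefficients -/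
theorem aOf_unique {U U' : ℕ × ℕ → Pol} (hU : IsExponents U) (hU' : IsExponents U') {μ : ℕ × ℕ}
    (h1 : 1 ≤ μ.1) (h2 : 1 ≤ μ.2) (hμ : Nat.Coprime μ.1 μ.2) (k : ℕ) (hk : 1 ≤ k) :
    aOf (fun j => U (j • μ)) k = aOf (fun j => U' (j • μ)) k := by
  apply pol_ext
  intro b c hb hc
  have hf := consistent_unique hb hc (fun μ => constantCoeff_wallFun U μ)
    (fun μ => constantCoeff_wallFun U' μ) (hU b c hb hc) (hU' b c hb hc) μ h1 h2 hμ
  have hg : (g μ b c : ℚ) ≠ 0 := by
    rw [g_coprime hμ]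
    have := gcd_pos hb hc hμ
    positivity
  refine expoP_inj (h := fun k => evl b c (aOf (fun j => U (j • μ)) k))
    (h' := fun k => evl b c (aOf (fun j => U' (j • μ)) k)) hg ?_ k hk
  intro l
  rw [← coeff_wallFun U hμ, ← coeff_wallFun U' hμ, hf]

/-- the two main facts -/
theorem main : (∃ U : ℕ × ℕ → Pol, IsExponents U) ∧
    ∀ U : ℕ × ℕ → Pol, IsExponents U → ∀ n : ℕ × ℕ, 1 ≤ n.1 → 1 ≤ n.2 → ∀ k : ℕ, 1 ≤ k →
      k ≤ Nat.gcd n.1 n.2 → Bd (n.2 - k) (n.1 - k) (tau U n k) ∧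
        0 < tp (n.2 - k) (n.1 - k) (tau U n k) := by
  obtain ⟨K, hK⟩ := exists_K
  obtain ⟨U₀, hU₀⟩ := exists_U (aP K)
  have hE : IsExponents U₀ := fun b c hb hc => consistent_all hb hc hK hU₀
  refine ⟨⟨U₀, hE⟩, ?_⟩
  intro U hU n h1 h2 k hk1 hk2
  have hn : 1 ≤ n.1 + n.2 := by omega
  have hμ := prim_coprime hn
  have hg := gcd_pos_of hn
  have e1 : n.1 = Nat.gcd n.1 n.2 * (prim n).1 := by
    conv_lhs => rw [← gcd_smul_prim n]
    simp
  have e2 : n.2 = Nat.gcd n.1 n.2 * (prim n).2 := by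
    conv_lhs => rw [← gcd_smul_prim n]
    simp
  have p1 : 1 ≤ (prim n).1 := by
    rcases Nat.eq_zero_or_pos (prim n).1 with h | h
    · rw [h, mul_zero] at e1
      omega
    · exact h
  have p2 : 1 ≤ (prim n).2 := by
    rcases Nat.eq_zero_or_pos (prim n).2 with h | h
    · rw [h, mul_zero] at e2
      omega
    · exact h
  have h3 : tau U n k = tc (fun k => aP K (k • prim n)) (Nat.gcd n.1 n.2) k := by
    rw [tau_eq]
    apply tc_congr
    intro j hj _
    rw [aOf_unique hU hE p1 p2 hμ j hj, hU₀ _ hμ j hj]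
  have hb : ∀ k, 1 ≤ k → Bd (k * (prim n).2 - 1) (k * (prim n).1 - 1) (aP K (k • prim n)) ∧
      0 < tp (k * (prim n).2 - 1) (k * (prim n).1 - 1) (aP K (k • prim n)) := by
    intro k hk
    have := aP_bd hK (n := k • prim n) (Nat.mul_pos hk p1) (Nat.mul_pos hk p2)
    simpa using this
  have h4 := tc_bound p1 p2 (α := fun k => aP K (k • prim n)) (fun k hk => (hb k hk).1)
    (fun k hk => (hb k hk).2) (Nat.gcd n.1 n.2) k
  rw [← e1, ← e2, ← h3] at h4
  exact ⟨h4.2.1 hk2, h4.2.2 hk2 (Or.inl hk1)⟩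

end Pool.Agent.H45.Scat
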