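import Pool.Agent.H45.Scat.Step
set_option autoImplicit false
namespace Pool.Agent.H45.Scat
open Finset PowerSeries

variable {b c : ℕ}

theorem ode_unique {N : ℕ} {Z Z' : Op} {X0 : ℕ × ℕ → ℚ}
    (hX0 : ∀ n : ℕ × ℕ, n.2 = 0 → X0 n = 0)
    (h : Eqv N (comp b c Z (lie b c X0)) (E2 Z)) (h' : Eqv N (comp b c Z' (lie b c X0)) (E2 Z'))
    (h0 : ∀ n : ℕ × ℕ, n.2 = 0 → ∀ m, Z n m = Z' n m) : Eqv N Z Z' := by
  have key : ∀ k : ℕ, ∀ n : ℕ × ℕ, n.2 ≤ k → n.1 + n.2 ≤ N → ∀ m, Z n m = Z' n m := by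
    intro k
    induction k with
    | zero =>
      intro n h1 _ m
      exact h0 n (by omega) m
    | succ k ih =>
      intro n h1 h2 m
      rcases Nat.eq_zero_or_pos n.2 with h3 | h3
      · exact h0 n h3 m
      · have e1 := h n h2 m
        have e2 := h' n h2 m
        have e3 : comp b c Z (lie b c X0) n m = comp b c Z' (lie b c X0) n m := by
          simp only [comp]
          refine Finset.sum_congr rfl fun p hp => ?_
          have hp := Finset.mem_Iic.1 hp
          rcases Nat.eq_zero_or_pos p.2 with h4 | h4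
          · simp [lie, hX0 p h4]
          · have h5 : p.2 ≤ n.2 := hp.2
            have h6 : p.1 ≤ n.1 := hp.1
            rw [ih (n - p) (by simp only [Prod.snd_sub]; omega)
              (by simp only [Prod.fst_sub, Prod.snd_sub]; omega)]
        rw [e1, e2] at e3
        simp only [E2] at e3
        have : (n.2 : ℚ) ≠ 0 := by positivity
        exact mul_left_cancel₀ this e3
  intro n hn m
  exact key n.2 n le_rfl hn m

/-- operators that are trivial in degrees `(a, 0)` -/
def Triv (S : Op) : Prop := ∀ n : ℕ × ℕ, n.2 = 0 → ∀ m, S n m = one n m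

theorem comp_triv_left {S T : Op} (hS : Triv S) (n : ℕ × ℕ) (hn : n.2 = 0) (m : ℤ × ℤ) :
    comp b c S T n m = T n m := by
  have : comp b c S T n m = comp b c one T n m := by
    simp only [comp]
    refine Finset.sum_congr rfl fun p hp => ?_
    rw [hS (n - p) (by simp [hn])]
  rw [this, one_comp]

theorem comp_triv_right {S T : Op} (hT : Triv T) (n : ℕ × ℕ) (hn : n.2 = 0) (m : ℤ × ℤ) :
    comp b c S T n m = S n m := by
  have : comp b c S T n m = comp b c S one n m := by
    simp only [comp]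
    refine Finset.sum_congr rfl fun p hp => ?_
    have hp := Finset.mem_Iic.1 hp
    have h2 : p.2 ≤ n.2 := hp.2
    rw [hT p (by omega)]
  rw [this, comp_one]

theorem triv_cross {μ : ℕ × ℕ} (hμ : Nat.Coprime μ.1 μ.2) (h2 : 1 ≤ μ.2) (f : PowerSeries ℚ)
    (hf : constantCoeff f = 1) : Triv (cross b c μ f) := by
  intro n hn m
  by_cases h : ∃ l : ℕ, n = l • μ
  · obtain ⟨l, rfl⟩ := h
    have : l = 0 := by
      simp only [Prod.smul_snd, smul_eq_mul] at hn
      rcases Nat.mul_eq_zero.1 hn with h | h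
      · exact h
      · omega
    subst this
    rw [cross_smul hμ, coeff_zero_eq_constantCoeff, constantCoeff_zpow _ hf, one, if_pos (by simp)]
  · push Not at h
    rw [cross_of_not hμ f h, one, if_neg]
    intro h'
    exact h 0 (by simp [h'])

theorem triv_prodL {f : ℕ × ℕ → PowerSeries ℚ} {L : List (ℕ × ℕ)}
    (hL : ∀ p ∈ L, Nat.Coprime p.1 p.2 ∧ 1 ≤ p.2 ∧ constantCoeff (f p) = 1) :
    Triv (prodL b c f L) := by
  induction L with
  | nil => exact fun n _ m => rfl
  | cons a L ih =>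
    have h1 : prodL b c f (a :: L) = comp b c (cross b c a (f a)) (prodL b c f L) := by
      simp [prodL]
    rw [h1]
    intro n hn m
    obtain ⟨ha, ha2, haf⟩ := hL a (by simp)
    rw [comp_triv_left (triv_cross ha ha2 _ haf) n hn]
    exact ih (fun p hp => hL p (by simp [hp])) n hn m

theorem coeff_zero_L {f L : PowerSeries ℚ} (hf : constantCoeff f = 1) (hL : zd f = L * f) :
    coeff 0 L = 0 := by
  have h := congrArg (coeff 0) hL
  rw [coeff_zd] at h
  simp only [coeff_zero_eq_constantCoeff, map_mul] at h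
  rw [hf] at h
  simp at h
  simpa using h.symm

theorem E2_cross_one_zero (f : PowerSeries ℚ) : E2 (cross b c (1, 0) f) = 0 := by
  funext n m
  by_cases h : ∃ l : ℕ, n = l • ((1, 0) : ℕ × ℕ)
  · obtain ⟨l, rfl⟩ := h
    simp [E2]
  · push Not at h
    rw [E2, cross_of_not (by simp) f h]
    simp

/-- the data give a consistent diagram -/
theorem consistent_of_data {f Lf : ℕ × ℕ → PowerSeries ℚ} {X0 : ℕ × ℕ → ℚ}
    {K : ℕ × ℕ → ℕ × ℕ → ℚ} (D : Data b c f Lf X0 K)
    (hX0 : ∀ n : ℕ × ℕ, 1 ≤ n.1 → X0 n = 0) (hX00 : X0 0 = 0)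
    (h10 : f (1, 0) = 1 + X) (h01 : f (0, 1) = 1 + X)
    (N : ℕ) (L : List (ℕ × ℕ))
    (hL : ∀ p : ℕ × ℕ, p ∈ L ↔ 1 ≤ p.1 ∧ 1 ≤ p.2 ∧ Nat.Coprime p.1 p.2 ∧ p.1 + p.2 ≤ N)
    (hLs : L.Pairwise (fun p q => q.2 * p.1 < p.2 * q.1)) :
    Eqv N (comp b c (cross b c (1, 0) (1 + X)) (cross b c (0, 1) (1 + X)))
      (comp b c (cross b c (0, 1) (1 + X)) (comp b c (prodL b c f L)
        (cross b c (1, 0) (1 + X)))) := by
  have hwd : ∀ p q : ℕ × ℕ, q.2 * p.1 < p.2 * q.1 → 0 < wd q p := by
    intro p q h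
    unfold wd
    have : ((q.2 * p.1 : ℕ) : ℤ) < ((p.2 * q.1 : ℕ) : ℤ) := by exact_mod_cast h
    push_cast at this
    linarith
  have hF : comp b c (cross b c (0, 1) (1 + X)) (comp b c (prodL b c f L)
      (cross b c (1, 0) (1 + X))) = prodL b c f ([(0, 1)] ++ (L ++ [(1, 0)])) := by
    rw [prodL_append, prodL_append, prodL_singleton, prodL_singleton, h10, h01]
  have hX0' : ∀ n : ℕ × ℕ, n.2 = 0 → X0 n = 0 := by
    intro n hn
    rcases Nat.eq_zero_or_pos n.1 with h | h
    · have : n = 0 := by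
        ext
        · simpa using h
        · simpa using hn
      rw [this, hX00]
    · exact hX0 n h
  -- membership
  have hmem : ∀ n : ℕ × ℕ, 1 ≤ n.1 + n.2 → n.1 + n.2 ≤ N →
      prim n ∈ [(0, 1)] ++ (L ++ [(1, 0)]) := by
    intro n h1 h2
    have hc := prim_coprime h1
    have hs := (prim_le n).trans h2
    simp only [List.mem_append, List.mem_singleton, hL]
    rcases Nat.eq_zero_or_pos (prim n).1 with h3 | h3
    · left
      rw [h3] at hc
      ext
      · simpa using h3
      · simpa using hc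
    · rcases Nat.eq_zero_or_pos (prim n).2 with h4 | h4
      · right; right
        rw [h4] at hc
        ext
        · simpa using hc
        · simpa using h4
      · right; left
        exact ⟨h3, h4, hc, hs⟩
  have hcop : ∀ p ∈ [(0, 1)] ++ (L ++ [(1, 0)]), Nat.Coprime p.1 p.2 := by
    intro p hp
    simp only [List.mem_append, List.mem_singleton, hL] at hp
    rcases hp with rfl | hp | rfl
    · simp
    · exact hp.2.2.1
    · simp
  have hsort : ([(0, 1)] ++ (L ++ [(1, 0)])).Pairwise (fun p q => 0 < wd q p) := by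
    rw [List.pairwise_append, List.pairwise_append]
    refine ⟨List.pairwise_singleton _ _, ⟨hLs.imp fun {p q} h => hwd p q h,
      List.pairwise_singleton _ _, ?_⟩, ?_⟩
    · intro p hp q hq
      rw [List.mem_singleton] at hq
      subst hq
      have h2 := ((hL p).1 hp).2.1
      unfold wd
      simp
      omega
    · intro p hp q hq
      rw [List.mem_singleton] at hp
      subst hp
      simp only [List.mem_append, List.mem_singleton, hL] at hq
      unfold wd
      rcases hq with hq | rfl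
      · simp
        omega
      · simp
  have main := step_claim (N := N) D ([(0, 1)] ++ (L ++ [(1, 0)])) hcop hsort
    (fun n h1 h2 => Or.inl (hmem n h1 h2)) X0
    (by
      intro n h1 h2 _
      rw [KL, Finset.sum_eq_zero, add_zero]
      intro m hm
      simp only [Finset.mem_filter, Finset.mem_Iic] at hm
      exfalso
      apply hm.2.2.2
      apply hmem
      · by_contra hlt
        apply hm.2.1
        ext
        · simp only [Prod.fst_zero]; omega
        · simp only [Prod.snd_zero]; omega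
      · exact (Nat.add_le_add hm.1.1 hm.1.2).trans h2)
    (fun n h1 h2 h3 => absurd (hmem n h1 h2) h3)
  rw [hF]
  have c01 : Nat.Coprime ((0, 1) : ℕ × ℕ).1 ((0, 1) : ℕ × ℕ).2 := by simp
  have c10 : Nat.Coprime ((1, 0) : ℕ × ℕ).1 ((1, 0) : ℕ × ℕ).2 := by simp
  have k01 : constantCoeff (1 + X : PowerSeries ℚ) = 1 := by simp
  have hK01 : ∀ k : ℕ, K (k • ((0, 1) : ℕ × ℕ)) (k • ((0, 1) : ℕ × ℕ)) =
      X0 (k • ((0, 1) : ℕ × ℕ)) := by
    intro k
    rw [D.hK, Finset.sum_eq_zero, add_zero]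
    intro m hm
    simp only [Finset.mem_filter, Finset.mem_Iic] at hm
    exfalso
    have h1 : m.1 ≤ (k • ((0, 1) : ℕ × ℕ)).1 := hm.1.1
    simp at h1
    have h2 := hm.2.2.2
    simp [wd, h1] at h2
  have e01 : E2 (cross b c (0, 1) (1 + X)) =
      comp b c (cross b c (0, 1) (1 + X)) (lie b c X0) := by
    have hLz := D.hL (0, 1) c01
    rw [h01] at hLz
    refine E2_cross_right D.hb D.hc c01 (1 + X) (Lf (0, 1)) k01 hLz X0 ?_ ?_
    · intro k
      rcases Nat.eq_zero_or_pos k with rfl | hk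
      · rw [coeff_zero_L k01 hLz]
        simp
      · rw [← hK01, D.hY (0, 1) c01 k hk]
    · intro n hn
      apply hX0
      by_contra h
      apply hn n.2
      ext
      · simp only [Prod.smul_fst, smul_eq_mul, mul_zero]
        omega
      · simp
  refine ode_unique hX0' ?_ main ?_
  · rw [E2_comp, E2_cross_one_zero, e01, comp_assoc]
    have : comp b c (0 : Op) (cross b c (0, 1) (1 + X)) = 0 := by
      funext n m
      simp [comp]
    rw [this, zero_add]
    exact Eqv.refl _
  · intro n hn m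
    rw [comp_triv_right (triv_cross c01 (by simp) _ k01) n hn, ← List.append_assoc, prodL_append,
      comp_triv_left _ n hn, prodL_singleton, h10]
    apply triv_prodL
    intro p hp
    simp only [List.mem_append, List.mem_singleton, hL] at hp
    rcases hp with rfl | hp
    · exact ⟨c01, by simp, by rw [h01, k01]⟩
    · exact ⟨hp.2.2.1, hp.2.1, D.hf p hp.2.2.1⟩

/-- the sorted list of primitive vectors exists -/
theorem exists_list (N : ℕ) : ∃ L : List (ℕ × ℕ),
    (∀ p : ℕ × ℕ, p ∈ L ↔ 1 ≤ p.1 ∧ 1 ≤ p.2 ∧ Nat.Coprime p.1 p.2 ∧ p.1 + p.2 ≤ N) ∧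
    L.Pairwise (fun p q => q.2 * p.1 < p.2 * q.1) := by
  classical
  let S : Finset (ℕ × ℕ) := (Finset.Icc (1, 1) (N, N)).filter
    (fun p => Nat.Coprime p.1 p.2 ∧ p.1 + p.2 ≤ N)
  have hS : ∀ p, p ∈ S ↔ 1 ≤ p.1 ∧ 1 ≤ p.2 ∧ Nat.Coprime p.1 p.2 ∧ p.1 + p.2 ≤ N := by
    intro p
    simp only [S, Finset.mem_filter, Finset.mem_Icc, Prod.le_def]
    constructor
    · rintro ⟨⟨h1, h2⟩, h3, h4⟩
      exact ⟨h1.1, h1.2, h3, h4⟩
    · rintro ⟨h1, h2, h3, h4⟩
      exact ⟨⟨⟨h1, h2⟩, by omega, by omega⟩, h3, h4⟩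
  let T : Finset ℚ := S.image (fun p => (p.2 : ℚ) / p.1)
  have hnum : ∀ p ∈ S, ((p.2 : ℚ) / p.1).num = p.2 ∧ ((p.2 : ℚ) / p.1).den = p.1 := by
    intro p hp
    rw [hS] at hp
    have h1 : (0 : ℤ) < (p.1 : ℤ) := by exact_mod_cast hp.1
    have h2 : Nat.Coprime (Int.natAbs (p.2 : ℤ)) (Int.natAbs (p.1 : ℤ)) := by
      simpa using hp.2.2.1.symm
    have e1 := Rat.num_div_eq_of_coprime h1 h2
    have e2 := Rat.den_div_eq_of_coprime h1 h2
    rw [Int.cast_natCast, Int.cast_natCast] at e1 e2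
    exact ⟨e1, by exact_mod_cast e2⟩
  refine ⟨(T.sort (· ≥ ·)).map (fun q => (q.den, q.num.natAbs)), ?_, ?_⟩
  · intro p
    rw [← hS, List.mem_map]
    constructor
    · rintro ⟨q, hq, rfl⟩
      rw [Finset.mem_sort, Finset.mem_image] at hq
      obtain ⟨p, hp, rfl⟩ := hq
      rw [(hnum p hp).1, (hnum p hp).2]
      simpa using hp
    · intro hp
      refine ⟨(p.2 : ℚ) / p.1, ?_, ?_⟩
      · rw [Finset.mem_sort, Finset.mem_image]
        exact ⟨p, hp, rfl⟩
      · rw [(hnum p hp).1, (hnum p hp).2]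
        simp
  · rw [List.pairwise_map]
    have h1 : (T.sort (· ≥ ·)).Pairwise (· > ·) := (T.sortedGT_sort).pairwise
    have h2 : ∀ q ∈ T.sort (· ≥ ·), 0 < q := by
      intro q hq
      rw [Finset.mem_sort, Finset.mem_image] at hq
      obtain ⟨p, hp, rfl⟩ := hq
      rw [hS] at hp
      have : (0 : ℚ) < p.1 := by exact_mod_cast hp.1
      have : (0 : ℚ) < p.2 := by exact_mod_cast hp.2.1
      positivity
    refine List.Pairwise.imp_of_mem ?_ h1
    intro x y hx hy hxy
    have hx0 := Rat.num_pos.2 (h2 x hx)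
    have hy0 := Rat.num_pos.2 (h2 y hy)
    have h3 := (Rat.lt_iff y x).1 hxy
    have h4 : ((y.num.natAbs * x.den : ℕ) : ℤ) < ((x.num.natAbs * y.den : ℕ) : ℤ) := by
      push_cast
      rw [abs_of_pos hx0, abs_of_pos hy0]
      exact h3
    exact_mod_cast h4

end Pool.Agent.H45.Scat
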