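import Pool.Agent.H45.Scat.Defs
set_option autoImplicit false
namespace Pool.Agent.H45.Scat
open Finset

theorem yexp_zero (b c : ℕ) : yexp b c 0 = 0 := by simp [yexp]

theorem yexp_add (b c : ℕ) (p q : ℕ × ℕ) : yexp b c (p + q) = yexp b c p + yexp b c q := by
  simp only [yexp, Prod.fst_add, Prod.snd_add, Prod.mk_add_mk]
  push_cast
  ext <;> simp <;> ring

variable (b c : ℕ)

theorem comp_add (S T T' : Op) : comp b c S (T + T') = comp b c S T + comp b c S T' := by
  funext n m
  simp [comp, mul_add, Finset.sum_add_distrib]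

theorem add_comp (S S' T : Op) : comp b c (S + S') T = comp b c S T + comp b c S' T := by
  funext n m
  simp [comp, add_mul, Finset.sum_add_distrib]

theorem comp_zero (S : Op) : comp b c S 0 = 0 := by
  funext n m
  simp [comp]

theorem one_comp (T : Op) : comp b c one T = T := by
  funext n m
  rw [comp, Finset.sum_eq_single n]
  · simp [one]
  · intro p hp hpn
    have : n - p ≠ 0 := by
      intro h
      apply hpn
      have hp := Finset.mem_Iic.1 hp
      exact le_antisymm hp (tsub_eq_zero_iff_le.1 h)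
    simp [one, this]
  · simp

theorem comp_one (T : Op) : comp b c T one = T := by
  funext n m
  rw [comp, Finset.sum_eq_single 0]
  · simp [one, yexp_zero]
  · intro p hp hpn
    simp [one, hpn]
  · intro h
    exact absurd (Finset.mem_Iic.2 zero_le) h

theorem comp_assoc (S T U : Op) : comp b c (comp b c S T) U = comp b c S (comp b c T U) := by
  funext n m
  simp only [comp, Finset.sum_mul, Finset.mul_sum]
  rw [Finset.sum_sigma', Finset.sum_sigma']
  refine Finset.sum_nbij' (fun x => ⟨x.1 + x.2, x.1⟩) (fun x => ⟨x.2, x.1 - x.2⟩) ?_ ?_ ?_ ?_ ?_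
  · rintro ⟨k, j⟩ h
    simp only [Finset.mem_sigma, Finset.mem_Iic] at h ⊢
    exact ⟨by rw [add_comm]; exact (le_tsub_iff_right h.1).1 h.2, le_self_add⟩
  · rintro ⟨a, k⟩ h
    simp only [Finset.mem_sigma, Finset.mem_Iic] at h ⊢
    exact ⟨h.2.trans h.1, tsub_le_tsub_right h.1 _⟩
  · rintro ⟨k, j⟩ h
    simp
  · rintro ⟨a, k⟩ h
    simp only [Finset.mem_sigma, Finset.mem_Iic] at h ⊢
    simp [add_tsub_cancel_of_le h.2]
  · rintro ⟨k, j⟩ h
    simp only [Finset.mem_sigma, Finset.mem_Iic] at h ⊢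
    rw [yexp_add, ← mul_assoc, tsub_tsub, add_assoc, add_tsub_cancel_left]

/-- the derivation multiplying the degree `n` part by `n₂` -/
def E2 (T : Op) : Op := fun n m => (n.2 : ℚ) * T n m

theorem E2_comp (S T : Op) : E2 (comp b c S T) = comp b c (E2 S) T + comp b c S (E2 T) := by
  funext n m
  simp only [E2, comp, Pi.add_apply, Finset.mul_sum, ← Finset.sum_add_distrib]
  refine Finset.sum_congr rfl fun p hp => ?_
  have hp := Finset.mem_Iic.1 hp
  have : (n.2 : ℚ) = ((n - p).2 : ℚ) + (p.2 : ℚ) := by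
    have h2 : p.2 ≤ n.2 := hp.2
    rw [Prod.snd_sub, Nat.cast_sub h2]
    ring
  rw [this]
  ring

/-- equality in degrees at most `N` -/
def Eqv (N : ℕ) (S T : Op) : Prop := ∀ n : ℕ × ℕ, n.1 + n.2 ≤ N → ∀ m, S n m = T n m

variable {b c}

theorem Eqv.refl {N : ℕ} (S : Op) : Eqv N S S := fun _ _ _ => rfl

theorem Eqv.symm {N : ℕ} {S T : Op} (h : Eqv N S T) : Eqv N T S := fun n hn m => (h n hn m).symm

theorem Eqv.trans {N : ℕ} {S T U : Op} (h : Eqv N S T) (h' : Eqv N T U) : Eqv N S U :=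
  fun n hn m => (h n hn m).trans (h' n hn m)

theorem Eqv.add {N : ℕ} {S T S' T' : Op} (h : Eqv N S T) (h' : Eqv N S' T') :
    Eqv N (S + S') (T + T') := fun n hn m => by
  simp only [Pi.add_apply]
  rw [h n hn m, h' n hn m]

theorem Eqv.comp {N : ℕ} {S T S' T' : Op} (h : Eqv N S T) (h' : Eqv N S' T') :
    Eqv N (Scat.comp b c S S') (Scat.comp b c T T') := fun n hn m => by
  simp only [Scat.comp]
  refine Finset.sum_congr rfl fun p hp => ?_
  have hp := Finset.mem_Iic.1 hp
  have h1 : p.1 ≤ n.1 := hp.1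
  have h2 : p.2 ≤ n.2 := hp.2
  rw [h (n - p) (by simp only [Prod.fst_sub, Prod.snd_sub]; omega), h' p (by omega)]

theorem Eqv.E2 {N : ℕ} {S T : Op} (h : Eqv N S T) : Eqv N (E2 S) (E2 T) := fun n hn m => by
  simp only [Scat.E2]
  rw [h n hn m]

end Pool.Agent.H45.Scat
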