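import Pool.Agent.H45.Scat.Rec
set_option autoImplicit false
namespace Pool.Agent.H45.Scat
open Finset

/-- exponent vector `b^B c^C` -/
noncomputable def ev (B C : ℕ) : Fin 2 →₀ ℕ := Finsupp.single 0 B + Finsupp.single 1 C

theorem ev_zero (B C : ℕ) : ev B C 0 = B := by simp [ev]

theorem ev_one (B C : ℕ) : ev B C 1 = C := by simp [ev]

theorem ev_eq (s : Fin 2 →₀ ℕ) : s = ev (s 0) (s 1) := by
  ext i
  fin_cases i
  · simp [ev]
  · simp [ev]

theorem ev_ext {s t : Fin 2 →₀ ℕ} (h0 : s 0 = t 0) (h1 : s 1 = t 1) : s = t := by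
  rw [ev_eq s, ev_eq t, h0, h1]

theorem ev_add (B C B' C' : ℕ) : ev (B + B') (C + C') = ev B C + ev B' C' := by
  apply ev_ext
  · rw [Finsupp.add_apply, ev_zero, ev_zero, ev_zero]
  · rw [Finsupp.add_apply, ev_one, ev_one, ev_one]

/-- degree in `b` at most `B`, degree in `c` at most `C` -/
def Bd (B C : ℕ) (p : Pol) : Prop :=
  ∀ s : Fin 2 →₀ ℕ, MvPolynomial.coeff s p ≠ 0 → s 0 ≤ B ∧ s 1 ≤ C

noncomputable def tp (B C : ℕ) (p : Pol) : ℚ := MvPolynomial.coeff (ev B C) p

theorem Bd.zero (B C : ℕ) : Bd B C 0 := fun s h => absurd (MvPolynomial.coeff_zero s) h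

theorem Bd.add {B C : ℕ} {p q : Pol} (hp : Bd B C p) (hq : Bd B C q) : Bd B C (p + q) := by
  intro s hs
  rw [MvPolynomial.coeff_add] at hs
  by_cases h : MvPolynomial.coeff s p = 0
  · rw [h, zero_add] at hs
    exact hq s hs
  · exact hp s h

theorem Bd.sum {ι : Type*} {B C : ℕ} {S : Finset ι} {p : ι → Pol} (h : ∀ i ∈ S, Bd B C (p i)) :
    Bd B C (∑ i ∈ S, p i) := by
  classical
  induction S using Finset.induction_on with
  | empty => simpa using Bd.zero B C
  | insert a S ha ih =>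
    rw [Finset.sum_insert ha]
    exact (h a (by simp)).add (ih fun i hi => h i (by simp [hi]))

theorem Bd.C_mul {B C : ℕ} {p : Pol} (r : ℚ) (hp : Bd B C p) : Bd B C (MvPolynomial.C r * p) := by
  intro s hs
  rw [MvPolynomial.coeff_C_mul] at hs
  exact hp s (right_ne_zero_of_mul hs)

theorem Bd.mul {B C B' C' : ℕ} {p q : Pol} (hp : Bd B C p) (hq : Bd B' C' q) :
    Bd (B + B') (C + C') (p * q) := by
  classical
  intro s hs
  rw [MvPolynomial.coeff_mul] at hs
  obtain ⟨x, hx, hne⟩ := Finset.exists_ne_zero_of_sum_ne_zero hs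
  rw [Finset.HasAntidiagonal.mem_antidiagonal] at hx
  have h1 := hp x.1 (left_ne_zero_of_mul hne)
  have h2 := hq x.2 (right_ne_zero_of_mul hne)
  rw [← hx]
  simp only [Finsupp.add_apply]
  omega

theorem Bd.mono {B C B' C' : ℕ} {p : Pol} (hp : Bd B C p) (hB : B ≤ B') (hC : C ≤ C') :
    Bd B' C' p := fun s hs => ⟨(hp s hs).1.trans hB, (hp s hs).2.trans hC⟩

theorem tp_mul {B C B' C' : ℕ} {p q : Pol} (hp : Bd B C p) (hq : Bd B' C' q) :
    tp (B + B') (C + C') (p * q) = tp B C p * tp B' C' q := by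
  classical
  unfold tp
  rw [MvPolynomial.coeff_mul, Finset.sum_eq_single (ev B C, ev B' C')]
  · intro x hx hne
    rw [Finset.HasAntidiagonal.mem_antidiagonal] at hx
    by_contra h
    apply hne
    have h1 := hp x.1 (left_ne_zero_of_mul h)
    have h2 := hq x.2 (right_ne_zero_of_mul h)
    have e0 : x.1 0 + x.2 0 = B + B' := by
      rw [← Finsupp.add_apply, hx, ev_zero]
    have e1 : x.1 1 + x.2 1 = C + C' := by
      rw [← Finsupp.add_apply, hx, ev_one]
    refine Prod.ext ?_ ?_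
    · apply ev_ext
      · rw [ev_zero]; omega
      · rw [ev_one]; omega
    · apply ev_ext
      · rw [ev_zero]; omega
      · rw [ev_one]; omega
  · intro h
    exact absurd (Finset.HasAntidiagonal.mem_antidiagonal.2 (ev_add _ _ _ _).symm) h

theorem tp_add {B C : ℕ} (p q : Pol) : tp B C (p + q) = tp B C p + tp B C q :=
  MvPolynomial.coeff_add _ _ _

theorem tp_sum {ι : Type*} {B C : ℕ} (S : Finset ι) (p : ι → Pol) :
    tp B C (∑ i ∈ S, p i) = ∑ i ∈ S, tp B C (p i) :=
  MvPolynomial.coeff_sum _ _ _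

theorem tp_C_mul {B C : ℕ} (r : ℚ) (p : Pol) : tp B C (MvPolynomial.C r * p) = r * tp B C p :=
  MvPolynomial.coeff_C_mul _ _ _

theorem tp_zero' {B C : ℕ} : tp B C (0 : Pol) = 0 := MvPolynomial.coeff_zero _

theorem Bd.one : Bd 0 0 (1 : Pol) := by
  classical
  intro s hs
  rw [MvPolynomial.coeff_one] at hs
  split_ifs at hs with h
  · subst h
    simp
  · exact absurd rfl hs

theorem tp_one : tp 0 0 (1 : Pol) = 1 := by
  classical
  unfold tp
  rw [MvPolynomial.coeff_one, if_pos]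
  apply ev_ext <;> simp [ev]

/-- divisibility by the variables -/
def Lo (n : ℕ × ℕ) (p : Pol) : Prop :=
  ∀ s : Fin 2 →₀ ℕ, MvPolynomial.coeff s p ≠ 0 → (1 ≤ n.2 → 1 ≤ s 0) ∧ (1 ≤ n.1 → 1 ≤ s 1)

theorem Lo.add {n : ℕ × ℕ} {p q : Pol} (hp : Lo n p) (hq : Lo n q) : Lo n (p + q) := by
  intro s hs
  rw [MvPolynomial.coeff_add] at hs
  by_cases h : MvPolynomial.coeff s p = 0
  · rw [h, zero_add] at hs
    exact hq s hs
  · exact hp s h

theorem Lo.zero (n : ℕ × ℕ) : Lo n 0 := fun s h => absurd (MvPolynomial.coeff_zero s) h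

theorem Lo.one : Lo 0 (1 : Pol) := fun s _ => ⟨fun h => by simp at h, fun h => by simp at h⟩

theorem Lo.sum {ι : Type*} {n : ℕ × ℕ} {S : Finset ι} {p : ι → Pol} (h : ∀ i ∈ S, Lo n (p i)) :
    Lo n (∑ i ∈ S, p i) := by
  classical
  induction S using Finset.induction_on with
  | empty => simpa using Lo.zero n
  | insert a S ha ih =>
    rw [Finset.sum_insert ha]
    exact (h a (by simp)).add (ih fun i hi => h i (by simp [hi]))

theorem Lo.C_mul {n : ℕ × ℕ} {p : Pol} (r : ℚ) (hp : Lo n p) : Lo n (MvPolynomial.C r * p) := by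
  intro s hs
  rw [MvPolynomial.coeff_C_mul] at hs
  exact hp s (right_ne_zero_of_mul hs)

theorem Lo.mul {n m : ℕ × ℕ} {p q : Pol} (hp : Lo n p) (hq : Lo m q) : Lo (n + m) (p * q) := by
  classical
  intro s hs
  rw [MvPolynomial.coeff_mul] at hs
  obtain ⟨x, hx, hne⟩ := Finset.exists_ne_zero_of_sum_ne_zero hs
  rw [Finset.HasAntidiagonal.mem_antidiagonal] at hx
  have h1 := hp x.1 (left_ne_zero_of_mul hne)
  have h2 := hq x.2 (right_ne_zero_of_mul hne)
  rw [← hx]
  simp only [Finsupp.add_apply, Prod.fst_add, Prod.snd_add]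
  constructor
  · intro h
    rcases Nat.eq_zero_or_pos n.2 with h3 | h3
    · have := h2.1 (by omega)
      omega
    · have := h1.1 h3
      omega
  · intro h
    rcases Nat.eq_zero_or_pos n.1 with h3 | h3
    · have := h2.2 (by omega)
      omega
    · have := h1.2 h3
      omega

/-- combined -/
structure Good (n : ℕ × ℕ) (p : Pol) : Prop where
  bd : Bd n.2 n.1 p
  lo : Lo n p

noncomputable def top (n : ℕ × ℕ) (p : Pol) : ℚ := tp n.2 n.1 p

theorem Good.mul {n m : ℕ × ℕ} {p q : Pol} (hp : Good n p) (hq : Good m q) :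
    Good (n + m) (p * q) := ⟨hp.bd.mul hq.bd, hp.lo.mul hq.lo⟩

theorem top_mul {n m : ℕ × ℕ} {p q : Pol} (hp : Good n p) (hq : Good m q) :
    top (n + m) (p * q) = top n p * top m q := tp_mul hp.bd hq.bd

theorem Good.sum {ι : Type*} {n : ℕ × ℕ} {S : Finset ι} {p : ι → Pol}
    (h : ∀ i ∈ S, Good n (p i)) : Good n (∑ i ∈ S, p i) :=
  ⟨Bd.sum fun i hi => (h i hi).bd, Lo.sum fun i hi => (h i hi).lo⟩

theorem Good.add {n : ℕ × ℕ} {p q : Pol} (hp : Good n p) (hq : Good n q) : Good n (p + q) :=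
  ⟨hp.bd.add hq.bd, hp.lo.add hq.lo⟩

theorem Good.C_mul {n : ℕ × ℕ} {p : Pol} (r : ℚ) (hp : Good n p) :
    Good n (MvPolynomial.C r * p) := ⟨hp.bd.C_mul r, hp.lo.C_mul r⟩

theorem Good.one : Good 0 (1 : Pol) := ⟨Bd.one, Lo.one⟩

theorem Good.zero (n : ℕ × ℕ) : Good n 0 := ⟨Bd.zero _ _, Lo.zero _⟩

theorem intCast_eq_C (e : ℤ) : (e : Pol) = MvPolynomial.C (e : ℚ) := by simp

theorem natCast_eq_C (e : ℕ) : (e : Pol) = MvPolynomial.C (e : ℚ) := by simp

/-- the exponential of good elements is good -/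
theorem expoP_good {μ : ℕ × ℕ} {h : ℕ → Pol} (e : ℤ) {l : ℕ}
    (hh : ∀ k, 1 ≤ k → k ≤ l → Good (k • μ) (h k)) : Good (l • μ) (expoP h (e : Pol) l) := by
  induction l using Nat.strong_induction_on with
  | _ l ih =>
    rcases Nat.eq_zero_or_pos l with rfl | hl
    · rw [expoP_zero, zero_smul]
      exact Good.one
    · rw [expoP_eq _ _ hl, MvPolynomial.algebraMap_eq, intCast_eq_C]
      apply Good.C_mul
      apply Good.C_mul
      apply Good.sum
      intro k hk
      rw [Finset.mem_range] at hk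
      have h1 : l • μ = (k + 1) • μ + (l - 1 - k) • μ := by
        rw [← add_smul]
        congr 1
        omega
      rw [h1, natCast_eq_C, ← intCast_eq_C]
      apply Good.mul
      · exact (hh (k + 1) (by omega) (by omega)).C_mul _
      · exact ih (l - 1 - k) (by omega) fun j h1 h2 => hh j h1 (by omega)

theorem expoP_top {μ : ℕ × ℕ} {h : ℕ → Pol} (e : ℤ) {l : ℕ} (hl : 1 ≤ l)
    (hh : ∀ k, 1 ≤ k → k ≤ l → Good (k • μ) (h k)) :
    top (l • μ) (expoP h (e : Pol) l) = (1 / (l : ℚ)) * (e * ∑ k ∈ Finset.range l,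
      ((k + 1 : ℕ) : ℚ) * top ((k + 1) • μ) (h (k + 1)) *
        top ((l - 1 - k) • μ) (expoP h (e : Pol) (l - 1 - k))) := by
  rw [expoP_eq _ _ hl, MvPolynomial.algebraMap_eq, top, tp_C_mul]
  conv_lhs => rw [intCast_eq_C]
  rw [tp_C_mul, tp_sum]
  congr 2
  refine Finset.sum_congr rfl fun k hk => ?_
  rw [Finset.mem_range] at hk
  have h1 : l • μ = (k + 1) • μ + (l - 1 - k) • μ := by
    rw [← add_smul]
    congr 1
    omega
  rw [← intCast_eq_C, natCast_eq_C, mul_assoc, tp_C_mul, mul_assoc]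
  congr 1
  have := top_mul (hh (k + 1) (by omega) (by omega))
    (expoP_good e (l := l - 1 - k) fun j h1 h2 => hh j h1 (by omega))
  rw [← h1] at this
  exact this

theorem expoP_top_nonneg {μ : ℕ × ℕ} {h : ℕ → Pol} {e : ℤ} (he : 0 ≤ e) {l : ℕ}
    (hh : ∀ k, 1 ≤ k → k ≤ l → Good (k • μ) (h k))
    (ht : ∀ k, 1 ≤ k → k ≤ l → 0 ≤ top (k • μ) (h k)) :
    0 ≤ top (l • μ) (expoP h (e : Pol) l) := by
  induction l using Nat.strong_induction_on with
  | _ l ih =>
    rcases Nat.eq_zero_or_pos l with rfl | hl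
    · rw [expoP_zero, zero_smul]
      have : top 0 (1 : Pol) = 1 := tp_one
      rw [this]
      exact zero_le_one
    · rw [expoP_top e hl hh]
      have he' : (0 : ℚ) ≤ e := by exact_mod_cast he
      apply mul_nonneg (by positivity)
      apply mul_nonneg he'
      apply Finset.sum_nonneg
      intro k hk
      rw [Finset.mem_range] at hk
      apply mul_nonneg
      · exact mul_nonneg (by positivity) (ht (k + 1) (by omega) (by omega))
      · exact ih (l - 1 - k) (by omega) (fun j h1 h2 => hh j h1 (by omega))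
          (fun j h1 h2 => ht j h1 (by omega))

theorem expoP_top_pos {μ : ℕ × ℕ} {h : ℕ → Pol} {e : ℤ} (he : 0 < e) {l : ℕ}
    (hh : ∀ k, 1 ≤ k → k ≤ l → Good (k • μ) (h k))
    (ht : ∀ k, 1 ≤ k → k ≤ l → 0 ≤ top (k • μ) (h k)) (h1 : 1 ≤ l → 0 < top μ (h 1)) :
    0 < top (l • μ) (expoP h (e : Pol) l) := by
  induction l with
  | zero =>
    rw [expoP_zero, zero_smul]
    have : top 0 (1 : Pol) = 1 := tp_one
    rw [this]
    exact zero_lt_one
  | succ l ih =>
    rw [expoP_top e (by omega) hh]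
    have he' : (0 : ℚ) < e := by exact_mod_cast he
    apply mul_pos (by positivity)
    apply mul_pos he'
    have ih' := ih (fun j h1 h2 => hh j h1 (by omega)) (fun j h1 h2 => ht j h1 (by omega))
      (fun _ => h1 (by omega))
    have hle : ((0 + 1 : ℕ) : ℚ) * top ((0 + 1) • μ) (h (0 + 1)) *
        top ((l + 1 - 1 - 0) • μ) (expoP h (e : Pol) (l + 1 - 1 - 0)) ≤
        ∑ k ∈ Finset.range (l + 1), ((k + 1 : ℕ) : ℚ) * top ((k + 1) • μ) (h (k + 1)) *
        top ((l + 1 - 1 - k) • μ) (expoP h (e : Pol) (l + 1 - 1 - k)) := by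
      refine Finset.single_le_sum (f := fun k => ((k + 1 : ℕ) : ℚ) *
        top ((k + 1) • μ) (h (k + 1)) *
        top ((l + 1 - 1 - k) • μ) (expoP h (e : Pol) (l + 1 - 1 - k))) ?_
        (Finset.mem_range.2 (Nat.succ_pos l))
      intro k hk
      rw [Finset.mem_range] at hk
      apply mul_nonneg
      · exact mul_nonneg (by positivity) (ht (k + 1) (by omega) (by omega))
      · exact expoP_top_nonneg he.le (fun j h1 h2 => hh j h1 (by omega))
          (fun j h1 h2 => ht j h1 (by omega))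
    refine lt_of_lt_of_le ?_ hle
    simp only [zero_add, one_smul, Nat.cast_one, one_mul, Nat.add_sub_cancel, Nat.sub_zero]
    exact mul_pos (h1 (by omega)) ih'

end Pool.Agent.H45.Scat
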