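import Pool.Agent.H45.Scat.Poly
set_option autoImplicit false
namespace Pool.Agent.H45.Scat
open Finset

/-- the defining recursion -/
def IsK (K : ℕ × ℕ → ℕ × ℕ → Pol) : Prop := ∀ n r, K n r = X0p n +
    ∑ m ∈ (Finset.Iic n).filter (fun m => m ≠ 0 ∧ m ≠ n ∧ 0 < wd m r),
      expoP (fun k => hOf K (k • prim m)) ((wd (prim m) n : ℤ) : Pol) (Nat.gcd m.1 m.2) *
        K (n - m) m

theorem coeff_CX (r : ℚ) (i : Fin 2) (s : Fin 2 →₀ ℕ) :
    MvPolynomial.coeff s (MvPolynomial.C r * MvPolynomial.X i : Pol) =
      if Finsupp.single i 1 = s then r else 0 := by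
  classical
  rw [MvPolynomial.coeff_C_mul, MvPolynomial.coeff_X, mul_ite, mul_one, mul_zero]

theorem X0p_good (n : ℕ × ℕ) : Good n (X0p n) := by
  unfold X0p
  split_ifs with h
  · constructor
    · intro s hs
      rw [coeff_CX] at hs
      split_ifs at hs with h'
      · subst h'
        simp
        omega
      · exact absurd rfl hs
    · intro s hs
      rw [coeff_CX] at hs
      split_ifs at hs with h'
      · subst h'
        simp
        omega
      · exact absurd rfl hs
  · exact Good.zero n

theorem X0p_top_nonneg (n : ℕ × ℕ) : 0 ≤ top n (X0p n) := by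
  unfold X0p
  split_ifs with h
  · unfold top tp
    rw [coeff_CX]
    split_ifs with h'
    · have h0 := DFunLike.congr_fun h' 0
      rw [ev_zero] at h0
      simp at h0
      rw [← h0]
      simp
    · exact le_rfl
  · rw [top, tp_zero']

theorem initp_good {n : ℕ × ℕ} (hn : n.2 = 0) : Good n (initp n) := by
  unfold initp
  split_ifs with h
  · constructor
    · intro s hs
      rw [coeff_CX] at hs
      split_ifs at hs with h'
      · subst h'
        simp
        omega
      · exact absurd rfl hs
    · intro s hs
      rw [coeff_CX] at hs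
      split_ifs at hs with h'
      · subst h'
        simp
        omega
      · exact absurd rfl hs
  · exact Good.zero n

theorem initp_top_nonneg {n : ℕ × ℕ} : 0 ≤ top n (initp n) := by
  unfold initp
  split_ifs with h
  · unfold top tp
    rw [coeff_CX]
    split_ifs with h'
    · have h0 := DFunLike.congr_fun h' 1
      rw [ev_one] at h0
      simp at h0
      rw [← h0]
      simp
    · exact le_rfl
  · rw [top, tp_zero']

theorem wd_trans {m r n : ℕ × ℕ} (h1 : 0 < wd m r) (h2 : 0 ≤ wd r n) (hn : n ≠ 0) :
    0 < wd m n := by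
  -- `(m ∧ n) r = (m ∧ r) n + (r ∧ n) m`
  have e1 : wd m n * r.1 = wd m r * n.1 + wd r n * m.1 := by unfold wd; ring
  have e2 : wd m n * r.2 = wd m r * n.2 + wd r n * m.2 := by unfold wd; ring
  have hs := size_pos hn
  have h3 : (0 : ℤ) ≤ wd r n * m.1 := mul_nonneg h2 (by positivity)
  have h4 : (0 : ℤ) ≤ wd r n * m.2 := mul_nonneg h2 (by positivity)
  rcases Nat.eq_zero_or_pos n.1 with h5 | h5
  · have h6 : (0 : ℤ) < n.2 := by
      have : 0 < n.2 := by omega
      exact_mod_cast this
    have h7 : 0 < wd m n * r.2 := by
      rw [e2]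
      have := mul_pos h1 h6
      linarith
    exact pos_of_mul_pos_left h7 (by positivity)
  · have h6 : (0 : ℤ) < n.1 := by exact_mod_cast h5
    have h7 : 0 < wd m n * r.1 := by
      rw [e1]
      have := mul_pos h1 h6
      linarith
    exact pos_of_mul_pos_left h7 (by positivity)

theorem wd_sub_self {m n : ℕ × ℕ} (h : m ≤ n) : wd m (n - m) = wd m n := by
  have h1 : m.1 ≤ n.1 := h.1
  have h2 : m.2 ≤ n.2 := h.2
  unfold wd
  simp only [Prod.fst_sub, Prod.snd_sub]
  rw [Nat.cast_sub h1, Nat.cast_sub h2]
  ring

theorem wd_prim_pos {m n : ℕ × ℕ} (h : 0 < wd m n) (hm : m ≠ 0) : 0 < wd (prim m) n :=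
  (wd_pos_prim_left (size_pos hm) n).2 h

theorem K_claims {K : ℕ × ℕ → ℕ × ℕ → Pol} (hK : IsK K) : ∀ n : ℕ × ℕ, n ≠ 0 →
    (∀ r, Good n (K n r)) ∧ (∀ r, 0 ≤ wd r n → 0 ≤ top n (K n r)) ∧
    Good n (hOf K n) ∧ 0 ≤ top n (hOf K n) ∧ (1 ≤ n.1 → 1 ≤ n.2 → 0 < top n (hOf K n)) := by
  have key : ∀ N : ℕ, ∀ n : ℕ × ℕ, n.1 + n.2 < N → n ≠ 0 →
      (∀ r, Good n (K n r)) ∧ (∀ r, 0 ≤ wd r n → 0 ≤ top n (K n r)) ∧
      Good n (hOf K n) ∧ 0 ≤ top n (hOf K n) ∧ (1 ≤ n.1 → 1 ≤ n.2 → 0 < top n (hOf K n)) := by
    intro N
    induction N with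
    | zero => intro n h; omega
    | succ N ih =>
      intro n hnN hn
      -- facts about `h` at smaller places
      have hgood : ∀ m : ℕ × ℕ, m ≤ n → m ≠ 0 → m ≠ n → ∀ k, 1 ≤ k → k ≤ Nat.gcd m.1 m.2 →
          Good (k • prim m) (hOf K (k • prim m)) := by
        intro m hmn hm0 hne k hk1 hk2
        have h1 := smul_prim_size hk2
        have h2 := size_lt hmn hne
        refine (ih (k • prim m) (by omega) ?_).2.2.1
        intro h
        have h3 := prim_coprime (size_pos hm0)
        have h4 := ne_zero_of_coprime h3
        have h5 := congrArg Prod.fst h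
        have h6 := congrArg Prod.snd h
        simp only [Prod.smul_fst, Prod.smul_snd, smul_eq_mul, Prod.fst_zero, Prod.snd_zero] at h5 h6
        rcases Nat.mul_eq_zero.1 h5 with h7 | h7
        · omega
        · rcases Nat.mul_eq_zero.1 h6 with h8 | h8
          · omega
          · omega
      have htop : ∀ m : ℕ × ℕ, m ≤ n → m ≠ 0 → m ≠ n → ∀ k, 1 ≤ k → k ≤ Nat.gcd m.1 m.2 →
          0 ≤ top (k • prim m) (hOf K (k • prim m)) := by
        intro m hmn hm0 hne k hk1 hk2
        have h1 := smul_prim_size hk2
        have h2 := size_lt hmn hne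
        refine (ih (k • prim m) (by omega) ?_).2.2.2.1
        intro h
        have h3 := prim_coprime (size_pos hm0)
        have h4 := ne_zero_of_coprime h3
        have h5 := congrArg Prod.fst h
        have h6 := congrArg Prod.snd h
        simp only [Prod.smul_fst, Prod.smul_snd, smul_eq_mul, Prod.fst_zero, Prod.snd_zero] at h5 h6
        rcases Nat.mul_eq_zero.1 h5 with h7 | h7
        · omega
        · rcases Nat.mul_eq_zero.1 h6 with h8 | h8
          · omega
          · omega
      have hEgood : ∀ m : ℕ × ℕ, m ≤ n → m ≠ 0 → m ≠ n → Good m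
          (expoP (fun k => hOf K (k • prim m)) ((wd (prim m) n : ℤ) : Pol)
            (Nat.gcd m.1 m.2)) := by
        intro m hmn hm0 hne
        have := expoP_good (μ := prim m) (h := fun k => hOf K (k • prim m)) (wd (prim m) n)
          (l := Nat.gcd m.1 m.2) (hgood m hmn hm0 hne)
        rwa [gcd_smul_prim] at this
      have hKsub : ∀ m : ℕ × ℕ, m ≤ n → m ≠ 0 → m ≠ n → (n - m) ≠ 0 ∧
          (n - m).1 + (n - m).2 < N := by
        intro m hmn hm0 hne
        have h1 : m.1 ≤ n.1 := hmn.1
        have h2 : m.2 ≤ n.2 := hmn.2
        have h3 := size_pos hm0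
        have h4 := size_lt hmn hne
        constructor
        · intro h
          have h5 := congrArg Prod.fst h
          have h6 := congrArg Prod.snd h
          simp only [Prod.fst_sub, Prod.snd_sub, Prod.fst_zero, Prod.snd_zero] at h5 h6
          omega
        · simp only [Prod.fst_sub, Prod.snd_sub]
          omega
      have hterm : ∀ r : ℕ × ℕ, ∀ m ∈ (Finset.Iic n).filter
          (fun m => m ≠ 0 ∧ m ≠ n ∧ 0 < wd m r), Good n
          (expoP (fun k => hOf K (k • prim m)) ((wd (prim m) n : ℤ) : Pol) (Nat.gcd m.1 m.2) *
            K (n - m) m) := by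
        intro r m hm
        simp only [Finset.mem_filter, Finset.mem_Iic] at hm
        obtain ⟨h1, h2, h3, h4⟩ := hm
        obtain ⟨h5, h6⟩ := hKsub m h1 h2 h3
        have := (hEgood m h1 h2 h3).mul ((ih (n - m) h6 h5).1 m)
        rwa [add_tsub_cancel_of_le h1] at this
      have htermtop : ∀ r : ℕ × ℕ, 0 ≤ wd r n → ∀ m ∈ (Finset.Iic n).filter
          (fun m => m ≠ 0 ∧ m ≠ n ∧ 0 < wd m r), 0 ≤ top n
          (expoP (fun k => hOf K (k • prim m)) ((wd (prim m) n : ℤ) : Pol) (Nat.gcd m.1 m.2) *
            K (n - m) m) := by
        intro r hr m hm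
        simp only [Finset.mem_filter, Finset.mem_Iic] at hm
        obtain ⟨h1, h2, h3, h4⟩ := hm
        obtain ⟨h5, h6⟩ := hKsub m h1 h2 h3
        have hmn := wd_trans h4 hr hn
        have e := top_mul (hEgood m h1 h2 h3) ((ih (n - m) h6 h5).1 m)
        rw [add_tsub_cancel_of_le h1] at e
        rw [e]
        apply mul_nonneg
        · have := expoP_top_nonneg (μ := prim m) (h := fun k => hOf K (k • prim m))
            (wd_prim_pos hmn h2).le (l := Nat.gcd m.1 m.2) (hgood m h1 h2 h3) (htop m h1 h2 h3)
          rwa [gcd_smul_prim] at this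
        · exact (ih (n - m) h6 h5).2.1 m (by rw [wd_sub_self h1]; exact hmn.le)
      have c1 : ∀ r, Good n (K n r) := by
        intro r
        rw [hK n r]
        exact (X0p_good n).add (Good.sum (hterm r))
      have c2 : ∀ r, 0 ≤ wd r n → 0 ≤ top n (K n r) := by
        intro r hr
        rw [hK n r, top, tp_add, tp_sum]
        exact add_nonneg (X0p_top_nonneg n) (Finset.sum_nonneg (htermtop r hr))
      have c4 : 1 ≤ n.1 → 1 ≤ n.2 → 0 < top n (K n n) := by
        intro hn1 hn2
        rw [hK n n, top, tp_add, tp_sum]
        apply add_pos_of_nonneg_of_pos (X0p_top_nonneg n)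
        have hm0n : (n.1, n.2 - 1) ≤ n := ⟨le_rfl, Nat.sub_le _ _⟩
        have hm00 : (n.1, n.2 - 1) ≠ 0 := by
          intro h
          have := congrArg Prod.fst h
          simp only [Prod.fst_zero] at this
          omega
        have hm0ne : (n.1, n.2 - 1) ≠ n := by
          intro h
          have := congrArg Prod.snd h
          simp only at this
          omega
        have hm0wd : 0 < wd (n.1, n.2 - 1) n := by
          unfold wd
          simp only []
          have h1 : ((n.2 - 1 : ℕ) : ℤ) = n.2 - 1 := by
            push_cast [Nat.cast_sub hn2]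
            rfl
          rw [h1]
          have h2 : (0 : ℤ) < n.1 := by exact_mod_cast hn1
          nlinarith
        have hmem : (n.1, n.2 - 1) ∈ (Finset.Iic n).filter
            (fun m => m ≠ 0 ∧ m ≠ n ∧ 0 < wd m n) := by
          simp only [Finset.mem_filter, Finset.mem_Iic]
          exact ⟨hm0n, hm00, hm0ne, hm0wd⟩
        refine lt_of_lt_of_le ?_ (Finset.single_le_sum (htermtop n (by rw [wd_self])) hmem)
        obtain ⟨h5, h6⟩ := hKsub _ hm0n hm00 hm0ne
        have e := top_mul (hEgood _ hm0n hm00 hm0ne) ((ih _ h6 h5).1 (n.1, n.2 - 1))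
        rw [add_tsub_cancel_of_le hm0n] at e
        change 0 < top n _
        rw [e]
        apply mul_pos
        · have := expoP_top_pos (μ := prim (n.1, n.2 - 1))
            (h := fun k => hOf K (k • prim (n.1, n.2 - 1)))
            (wd_prim_pos hm0wd hm00) (l := Nat.gcd (n.1, n.2 - 1).1 (n.1, n.2 - 1).2)
            (hgood _ hm0n hm00 hm0ne) (htop _ hm0n hm00 hm0ne) (by
              intro hg
              have hc := prim_coprime (size_pos hm00)
              have hsz := prim_le (n.1, n.2 - 1)
              have hlt := size_lt hm0n hm0ne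
              simp only [one_smul]
              have hp1 : 1 ≤ (prim (n.1, n.2 - 1)).1 := by
                unfold prim
                simp only []
                apply (Nat.one_le_div_iff (by
                  exact Nat.gcd_pos_of_pos_left _ hn1)).2
                exact Nat.gcd_le_left _ hn1
              rcases Nat.eq_zero_or_pos (prim (n.1, n.2 - 1)).2 with h7 | h7
              · -- the primitive part is `(1, 0)`
                rw [h7] at hc
                have h8 : prim (n.1, n.2 - 1) = (1, 0) := by
                  ext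
                  · simpa using hc
                  · exact h7
                rw [h8]
                have : hOf K (1, 0) = MvPolynomial.C 1 * MvPolynomial.X 1 := by
                  simp [hOf, initp]
                rw [this, top, tp, coeff_CX, if_pos]
                · exact zero_lt_one
                · apply ev_ext
                  · rw [ev_zero]; simp
                  · rw [ev_one]; simp
              · refine (ih _ (by omega) ?_).2.2.2.2 hp1 h7
                intro h
                rw [h] at hp1
                simp at hp1)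
          rwa [gcd_smul_prim] at this
        · have hsub : n - (n.1, n.2 - 1) = (0, 1) := by
            ext
            · simp
            · simp only [Prod.snd_sub]
              omega
          rw [hsub, hK, top, tp_add, tp_sum]
          have : (Finset.Iic ((0, 1) : ℕ × ℕ)).filter
              (fun m => m ≠ 0 ∧ m ≠ (0, 1) ∧ 0 < wd m (n.1, n.2 - 1)) = ∅ := by
            rw [Finset.filter_eq_empty_iff]
            rintro ⟨x, y⟩ hx ⟨h1, h2, -⟩
            rw [Finset.mem_Iic, Prod.mk_le_mk] at hx
            have hx0 : x = 0 := by omega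
            have hy : y = 0 ∨ y = 1 := by omega
            rcases hy with rfl | rfl
            · exact h1 (by rw [hx0]; rfl)
            · exact h2 (by rw [hx0])
          rw [this, Finset.sum_empty, add_zero]
          have : X0p (0, 1) = MvPolynomial.C 1 * MvPolynomial.X 0 := by simp [X0p]
          rw [this, tp, coeff_CX, if_pos]
          · exact zero_lt_one
          · apply ev_ext
            · rw [ev_zero]; simp
            · rw [ev_one]; simp
      refine ⟨c1, c2, ?_, ?_, ?_⟩
      · unfold hOf
        split_ifs with h
        · exact initp_good h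
        · exact (c1 n).C_mul _
      · unfold hOf
        split_ifs with h
        · exact initp_top_nonneg
        · rw [top, tp_C_mul]
          exact mul_nonneg (by positivity) (c2 n (by rw [wd_self]))
      · intro h1 h2
        unfold hOf
        rw [if_neg (by omega), top, tp_C_mul]
        apply mul_pos
        · have : 0 < (prim n).2 := by
            unfold prim
            simp only []
            exact Nat.div_pos (Nat.gcd_le_right _ h2) (Nat.gcd_pos_of_pos_right _ h2)
          positivity
        · exact c4 h1 h2
  intro n hn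
  exact key (n.1 + n.2 + 1) n (Nat.lt_succ_self _) hn

end Pool.Agent.H45.Scat
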