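import Pool.Agent.H45.Scat.Ops
set_option autoImplicit false
namespace Pool.Agent.H45.Scat
open Finset PowerSeries

/-- `z d/dz` -/
noncomputable def zd (f : PowerSeries ℚ) : PowerSeries ℚ := X * (d⁄dX ℚ) f

theorem coeff_zd (f : PowerSeries ℚ) (l : ℕ) : coeff l (zd f) = l * coeff l f := by
  cases l with
  | zero => simp [zd]
  | succ l =>
    rw [zd, coeff_succ_X_mul, coeff_derivative]
    push_cast
    ring

theorem zd_mul (f h : PowerSeries ℚ) : zd (f * h) = zd f * h + f * zd h := by
  simp only [zd, Derivation.leibniz, smul_eq_mul]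
  ring

/-- the unit -/
noncomputable def unitOf (f : PowerSeries ℚ) (hf : constantCoeff f = 1) : (PowerSeries ℚ)ˣ where
  val := f
  inv := f⁻¹
  val_inv := PowerSeries.mul_inv_cancel f (by rw [hf]; exact one_ne_zero)
  inv_val := PowerSeries.inv_mul_cancel f (by rw [hf]; exact one_ne_zero)

theorem zpow_eq (f : PowerSeries ℚ) (hf : constantCoeff f = 1) (e : ℤ) :
    zpow f e = ((unitOf f hf ^ e : (PowerSeries ℚ)ˣ) : PowerSeries ℚ) := by
  unfold zpow
  split_ifs with h
  · obtain ⟨k, rfl⟩ := Int.eq_ofNat_of_zero_le h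
    rw [Int.toNat_natCast, _root_.zpow_natCast, Units.val_pow_eq_pow_val]
    rfl
  · obtain ⟨k, hk⟩ := Int.eq_ofNat_of_zero_le (show 0 ≤ -e by omega)
    have : e = -(k : ℤ) := by omega
    subst this
    rw [_root_.zpow_neg, neg_neg, Int.toNat_natCast, _root_.zpow_natCast, ← inv_pow,
      Units.val_pow_eq_pow_val]
    rfl

theorem zpow_zero' (f : PowerSeries ℚ) : zpow f 0 = 1 := by
  simp [zpow]

theorem zpow_one' (f : PowerSeries ℚ) : zpow f 1 = f := by
  simp [zpow]

theorem zpow_add' (f : PowerSeries ℚ) (hf : constantCoeff f = 1) (x y : ℤ) :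
    zpow f (x + y) = zpow f x * zpow f y := by
  rw [zpow_eq f hf, zpow_eq f hf, zpow_eq f hf, _root_.zpow_add, Units.val_mul]

theorem constantCoeff_zpow (f : PowerSeries ℚ) (hf : constantCoeff f = 1) (x : ℤ) :
    constantCoeff (zpow f x) = 1 := by
  unfold zpow
  split_ifs
  · simp [hf]
  · simp [hf]

theorem zd_zpow (f L : PowerSeries ℚ) (hf : constantCoeff f = 1) (hL : zd f = L * f) (e : ℤ) :
    zd (zpow f e) = (e : PowerSeries ℚ) * L * zpow f e := by
  have h1 : ∀ k : ℕ, zd (zpow f k) = (k : PowerSeries ℚ) * L * zpow f k := by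
    intro k
    induction k with
    | zero => simp [zpow_zero', zd]
    | succ k ih =>
      push_cast
      rw [zpow_add' f hf, zd_mul, ih, zpow_one', hL]
      ring
  rcases le_total 0 e with h | h
  · obtain ⟨k, rfl⟩ := Int.eq_ofNat_of_zero_le h
    exact_mod_cast h1 k
  · obtain ⟨k, hk⟩ := Int.eq_ofNat_of_zero_le (show 0 ≤ -e by omega)
    have : e = -(k : ℤ) := by omega
    subst this
    have h2 : zpow f (-(k : ℤ)) * zpow f k = 1 := by
      rw [← zpow_add' f hf]
      simp [zpow_zero']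
    have h3 := congrArg zd h2
    rw [zd_mul, h1] at h3
    have h4 : zd (1 : PowerSeries ℚ) = 0 := by simp [zd]
    rw [h4] at h3
    have h5 : (zd (zpow f (-(k : ℤ))) + (k : PowerSeries ℚ) * L * zpow f (-(k : ℤ))) * zpow f k
        = 0 := by
      linear_combination h3
    have h6 : (zd (zpow f (-(k : ℤ))) + (k : PowerSeries ℚ) * L * zpow f (-(k : ℤ))) = 0 := by
      have : zpow f (-(k : ℤ)) * zpow f k = 1 := h2
      calc _ = ((zd (zpow f (-(k : ℤ))) + (k : PowerSeries ℚ) * L * zpow f (-(k : ℤ))) * zpow f k)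
            * zpow f (-(k : ℤ)) := by
            linear_combination (-(zd (zpow f (-(k : ℤ))) + (k : PowerSeries ℚ) * L * zpow f (-(k : ℤ)))) * h2
        _ = 0 := by rw [h5, zero_mul]
    push_cast
    linear_combination h6

end Pool.Agent.H45.Scat
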