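import Pool.Agent.H45.Scat.Pow
set_option autoImplicit false
namespace Pool.Agent.H45.Scat
open Finset PowerSeries

/-- the linear form -/
def om (b c : ℕ) (n : ℕ × ℕ) (m : ℤ × ℤ) : ℤ :=
  ((n.1 * b : ℕ) : ℤ) * m.1 + ((n.2 * c : ℕ) : ℤ) * m.2

variable {b c : ℕ}

theorem om_add_left (n n' : ℕ × ℕ) (m : ℤ × ℤ) : om b c (n + n') m = om b c n m + om b c n' m := by
  simp only [om, Prod.fst_add, Prod.snd_add]
  push_cast
  ring

theorem om_smul_left (l : ℕ) (n : ℕ × ℕ) (m : ℤ × ℤ) : om b c (l • n) m = l * om b c n m := by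
  simp only [om, Prod.smul_fst, Prod.smul_snd, smul_eq_mul]
  push_cast
  ring

theorem om_add_right (n : ℕ × ℕ) (m m' : ℤ × ℤ) : om b c n (m + m') = om b c n m + om b c n m' := by
  simp only [om, Prod.fst_add, Prod.snd_add]
  ring

theorem om_yexp (n p : ℕ × ℕ) : om b c n (yexp b c p) =
    (b : ℤ) * c * ((n.1 : ℤ) * p.2 - (n.2 : ℤ) * p.1) := by
  simp only [om, yexp]
  push_cast
  ring

theorem gcd_dvd_om (n : ℕ × ℕ) (m : ℤ × ℤ) : (Nat.gcd (n.1 * b) (n.2 * c) : ℤ) ∣ om b c n m := by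
  unfold om
  apply dvd_add
  · exact Dvd.dvd.mul_right (Int.natCast_dvd_natCast.2 (Nat.gcd_dvd_left _ _)) _
  · exact Dvd.dvd.mul_right (Int.natCast_dvd_natCast.2 (Nat.gcd_dvd_right _ _)) _

theorem pair_mul (n : ℕ × ℕ) (m : ℤ × ℤ) :
    (Nat.gcd (n.1 * b) (n.2 * c) : ℤ) * pair b c n m = om b c n m :=
  Int.mul_ediv_cancel' (gcd_dvd_om n m)

theorem gcd_pos {μ : ℕ × ℕ} (hb : 1 ≤ b) (hc : 1 ≤ c) (hμ : Nat.Coprime μ.1 μ.2) :
    0 < Nat.gcd (μ.1 * b) (μ.2 * c) := by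
  rcases Nat.eq_zero_or_pos μ.1 with h | h
  · have : μ.2 = 1 := by
      rw [h] at hμ
      simpa using hμ
    rw [this]
    exact Nat.gcd_pos_of_pos_right _ (by omega)
  · exact Nat.gcd_pos_of_pos_left _ (by positivity)

theorem pair_add {μ : ℕ × ℕ} (hg : 0 < Nat.gcd (μ.1 * b) (μ.2 * c)) (m m' : ℤ × ℤ) :
    pair b c μ (m + m') = pair b c μ m + pair b c μ m' := by
  have h1 := pair_mul (b := b) (c := c) μ (m + m')
  have h2 := pair_mul (b := b) (c := c) μ m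
  have h3 := pair_mul (b := b) (c := c) μ m'
  rw [om_add_right, ← h2, ← h3, ← mul_add] at h1
  exact mul_left_cancel₀ (by positivity) h1

/-- Lie algebra elements -/
def lie (b c : ℕ) (X : ℕ × ℕ → ℚ) : Op := fun n m => X n * (om b c n m : ℚ)

/-- indices along a ray -/
def ridx (μ n : ℕ × ℕ) : Finset ℕ := (Finset.range (n.1 + n.2 + 1)).filter fun l => l • μ ≤ n

theorem ne_zero_of_coprime {μ : ℕ × ℕ} (hμ : Nat.Coprime μ.1 μ.2) : 1 ≤ μ.1 + μ.2 := by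
  rcases Nat.eq_zero_or_pos (μ.1 + μ.2) with h | h
  · have h1 : μ.1 = 0 := by omega
    have h2 : μ.2 = 0 := by omega
    rw [h1, h2] at hμ
    simp at hμ
  · exact h

theorem mem_ridx {μ n : ℕ × ℕ} (hμ : 1 ≤ μ.1 + μ.2) (l : ℕ) : l ∈ ridx μ n ↔ l • μ ≤ n := by
  rw [ridx, Finset.mem_filter, Finset.mem_range]
  constructor
  · exact fun h => h.2
  · intro h
    refine ⟨?_, h⟩
    have h1 : l * μ.1 ≤ n.1 := h.1
    have h2 : l * μ.2 ≤ n.2 := h.2
    have : l * 1 ≤ l * (μ.1 + μ.2) := Nat.mul_le_mul_left _ hμ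
    rw [mul_add] at this
    omega

theorem ray_iff {μ : ℕ × ℕ} (hμ : Nat.Coprime μ.1 μ.2) (n : ℕ × ℕ) :
    n.1 * μ.2 = n.2 * μ.1 ↔ ∃ l : ℕ, n = l • μ := by
  constructor
  · intro h
    have h1 : μ.1 ∣ n.1 := by
      have : μ.1 ∣ n.1 * μ.2 := ⟨n.2, by rw [h]; ring⟩
      exact (hμ.dvd_mul_right).1 this
    have h2 : μ.2 ∣ n.2 := by
      have : μ.2 ∣ n.2 * μ.1 := ⟨n.1, by rw [← h]; ring⟩
      exact (hμ.symm.dvd_mul_right).1 this
    obtain ⟨l, hl⟩ := h1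
    obtain ⟨k, hk⟩ := h2
    rw [hl, hk] at h
    rcases Nat.eq_zero_or_pos μ.1 with h0 | h0
    · refine ⟨k, ?_⟩
      ext
      · simp [hl, h0]
      · simp [hk, mul_comm]
    · rcases Nat.eq_zero_or_pos μ.2 with h0' | h0'
      · refine ⟨l, ?_⟩
        ext
        · simp [hl, mul_comm]
        · simp [hk, h0']
      · have : l = k := by
          have : μ.1 * μ.2 * l = μ.1 * μ.2 * k := by linarith
          exact Nat.eq_of_mul_eq_mul_left (by positivity) this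
        subst this
        refine ⟨l, ?_⟩
        ext
        · simp [hl, mul_comm]
        · simp [hk, mul_comm]
  · rintro ⟨l, rfl⟩
    simp only [Prod.smul_fst, Prod.smul_snd, smul_eq_mul]
    ring

theorem gcd_smul {μ : ℕ × ℕ} (hμ : Nat.Coprime μ.1 μ.2) (l : ℕ) :
    Nat.gcd (l • μ).1 (l • μ).2 = l := by
  simp only [Prod.smul_fst, Prod.smul_snd, smul_eq_mul]
  rw [Nat.gcd_mul_left, hμ, mul_one]

theorem cross_smul {μ : ℕ × ℕ} (hμ : Nat.Coprime μ.1 μ.2) (f : PowerSeries ℚ) (l : ℕ) (m : ℤ × ℤ) :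
    cross b c μ f (l • μ) m = coeff l (zpow f (pair b c μ m)) := by
  rw [cross, if_pos ((ray_iff hμ _).2 ⟨l, rfl⟩), gcd_smul hμ]

theorem cross_of_not {μ : ℕ × ℕ} (hμ : Nat.Coprime μ.1 μ.2) (f : PowerSeries ℚ) {n : ℕ × ℕ}
    (h : ∀ l : ℕ, n ≠ l • μ) (m : ℤ × ℤ) : cross b c μ f n m = 0 := by
  rw [cross, if_neg]
  intro h'
  obtain ⟨l, hl⟩ := (ray_iff hμ _).1 h'
  exact h l hl

theorem smul_injective {μ : ℕ × ℕ} (hμ : 1 ≤ μ.1 + μ.2) : Function.Injective (fun l : ℕ => l • μ) := by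
  intro l k h
  have h1 : l * μ.1 = k * μ.1 := congrArg Prod.fst h
  have h2 : l * μ.2 = k * μ.2 := congrArg Prod.snd h
  have : l * (μ.1 + μ.2) = k * (μ.1 + μ.2) := by rw [mul_add, mul_add, h1, h2]
  exact Nat.eq_of_mul_eq_mul_right hμ this

/-- sum along a ray, left factor supported on the ray -/
theorem sum_ray_left {μ : ℕ × ℕ} (hμ : 1 ≤ μ.1 + μ.2) (n : ℕ × ℕ) (F : ℕ × ℕ → ℕ × ℕ → ℚ)
    (hF : ∀ q p, (∀ l : ℕ, q ≠ l • μ) → F q p = 0) :
    ∑ p ∈ Finset.Iic n, F (n - p) p = ∑ l ∈ ridx μ n, F (l • μ) (n - l • μ) := by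
  symm
  refine Finset.sum_bij_ne_zero (fun l _ _ => n - l • μ) ?_ ?_ ?_ ?_
  · intro l hl _
    exact Finset.mem_Iic.2 tsub_le_self
  · intro l hl _ k hk _ h
    rw [mem_ridx hμ] at hl hk
    have h2 := congrArg (fun x => n - x) h
    simp only [tsub_tsub_cancel_of_le hl, tsub_tsub_cancel_of_le hk] at h2
    exact smul_injective hμ h2
  · intro p hp hne
    have hp := Finset.mem_Iic.1 hp
    by_cases h : ∃ l : ℕ, n - p = l • μ
    · obtain ⟨l, hl⟩ := h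
      have h1 : n - l • μ = p := by
        rw [← hl, tsub_tsub_cancel_of_le hp]
      refine ⟨l, ?_, ?_, h1⟩
      · rw [mem_ridx hμ, ← hl]
        exact tsub_le_self
      · rw [h1, ← hl]
        exact hne
    · push Not at h
      exact absurd (hF _ _ h) hne
  · intro l hl _
    rw [mem_ridx hμ] at hl
    rw [tsub_tsub_cancel_of_le hl]

/-- sum along a ray, right factor supported on the ray -/
theorem sum_ray_right {μ : ℕ × ℕ} (hμ : 1 ≤ μ.1 + μ.2) (n : ℕ × ℕ) (F : ℕ × ℕ → ℕ × ℕ → ℚ)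
    (hF : ∀ q p, (∀ l : ℕ, p ≠ l • μ) → F q p = 0) :
    ∑ p ∈ Finset.Iic n, F (n - p) p = ∑ l ∈ ridx μ n, F (n - l • μ) (l • μ) := by
  symm
  refine Finset.sum_bij_ne_zero (fun l _ _ => l • μ) ?_ ?_ ?_ ?_
  · intro l hl _
    exact Finset.mem_Iic.2 ((mem_ridx hμ _).1 hl)
  · intro l hl _ k hk _ h
    exact smul_injective hμ h
  · intro p hp hne
    have hp := Finset.mem_Iic.1 hp
    by_cases h : ∃ l : ℕ, p = l • μ
    · obtain ⟨l, rfl⟩ := h
      exact ⟨l, (mem_ridx hμ _).2 hp, hne, rfl⟩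
    · push Not at h
      exact absurd (hF _ _ h) hne
  · intro l hl _
    rfl

theorem ray_conv {μ : ℕ × ℕ} (hμ : 1 ≤ μ.1 + μ.2) (n : ℕ × ℕ) (G : ℕ → ℕ → ℚ) :
    ∑ j ∈ ridx μ n, ∑ i ∈ ridx μ (n - j • μ), G i j =
      ∑ l ∈ ridx μ n, ∑ j ∈ Finset.range (l + 1), G (l - j) j := by
  rw [Finset.sum_sigma', Finset.sum_sigma']
  refine Finset.sum_nbij' (fun x => ⟨x.1 + x.2, x.1⟩) (fun x => ⟨x.2, x.1 - x.2⟩) ?_ ?_ ?_ ?_ ?_
  · rintro ⟨j, i⟩ h
    simp only [Finset.mem_sigma, mem_ridx hμ, Finset.mem_range] at h ⊢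
    refine ⟨?_, by omega⟩
    rw [add_smul, add_comm]
    exact (le_tsub_iff_right h.1).1 h.2
  · rintro ⟨l, j⟩ h
    simp only [Finset.mem_sigma, mem_ridx hμ, Finset.mem_range] at h ⊢
    obtain ⟨k, rfl⟩ := Nat.exists_eq_add_of_le (show j ≤ l by omega)
    have h1 := h.1
    rw [add_smul] at h1
    refine ⟨le_self_add.trans h1, ?_⟩
    rw [Nat.add_sub_cancel_left, le_tsub_iff_right (le_self_add.trans h1), add_comm]
    exact h1
  · rintro ⟨j, i⟩ h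
    simp
  · rintro ⟨l, j⟩ h
    simp only [Finset.mem_sigma, mem_ridx hμ, Finset.mem_range] at h ⊢
    have : j + (l - j) = l := by omega
    simp [this]
  · rintro ⟨j, i⟩ h
    simp

end Pool.Agent.H45.Scat
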