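import Pool.Agent.H45.Scat.Unique
set_option autoImplicit false
namespace Pool.Agent.H45.Scat
open Finset

theorem exists_fix {α β : Type*} [Inhabited β] (size : α → ℕ) (Φ : (α → β) → α → β)
    (hΦ : ∀ K K' n, (∀ m, size m < size n → K m = K' m) → Φ K n = Φ K' n) :
    ∃ K : α → β, ∀ n, K n = Φ K n := by
  classical
  let K : α → β := (measure size).wf.fix
    (fun n rec => Φ (fun m => if h : size m < size n then rec m h else default) n)
  refine ⟨K, fun n => ?_⟩
  have h1 : K n = Φ (fun m => if h : size m < size n then K m else default) n :=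
    (measure size).wf.fix_eq _ n
  rw [h1]
  apply hΦ
  intro m hm
  simp [hm]

section expo

variable {A : Type*} [CommRing A] [Algebra ℚ A]

/-- the coefficients of `exp (e ∑ h_k z^k)` -/
noncomputable def expoP (h : ℕ → A) (e : A) (l : ℕ) : A :=
  if l = 0 then 1 else algebraMap ℚ A (1 / (l : ℚ)) *
    (e * ∑ k : Fin l, ((k.1 + 1 : ℕ) : A) * h (k.1 + 1) * expoP h e (l - 1 - k.1))
termination_by l
decreasing_by
  have := k.2
  omega

theorem expoP_zero (h : ℕ → A) (e : A) : expoP h e 0 = 1 := by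
  rw [expoP, if_pos rfl]

theorem expoP_eq (h : ℕ → A) (e : A) {l : ℕ} (hl : 1 ≤ l) :
    expoP h e l = algebraMap ℚ A (1 / (l : ℚ)) *
    (e * ∑ k ∈ Finset.range l, ((k + 1 : ℕ) : A) * h (k + 1) * expoP h e (l - 1 - k)) := by
  rw [expoP, if_neg (by omega), ← Fin.sum_univ_eq_sum_range
    (fun k => ((k + 1 : ℕ) : A) * h (k + 1) * expoP h e (l - 1 - k)) l]

theorem expoP_congr {h h' : ℕ → A} (e : A) {l : ℕ} (hh : ∀ k, 1 ≤ k → k ≤ l → h k = h' k) :
    expoP h e l = expoP h' e l := by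
  induction l using Nat.strong_induction_on with
  | _ l ih =>
    rcases Nat.eq_zero_or_pos l with rfl | hl
    · rw [expoP_zero, expoP_zero]
    · rw [expoP_eq _ _ hl, expoP_eq _ _ hl]
      congr 2
      refine Finset.sum_congr rfl fun k hk => ?_
      rw [Finset.mem_range] at hk
      rw [hh (k + 1) (by omega) (by omega), ih (l - 1 - k) (by omega)]
      intro j hj1 hj2
      exact hh j hj1 (by omega)

/-- uniqueness of the solution of the recursion -/
theorem expoP_unique {h : ℕ → A} {e : A} {s : ℕ → A} (h0 : s 0 = 1)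
    (hs : ∀ l : ℕ, 1 ≤ l → (l : A) * s l =
      e * ∑ k ∈ Finset.range l, ((k + 1 : ℕ) : A) * h (k + 1) * s (l - 1 - k)) (l : ℕ) :
    s l = expoP h e l := by
  induction l using Nat.strong_induction_on with
  | _ l ih =>
    rcases Nat.eq_zero_or_pos l with rfl | hl
    · rw [expoP_zero, h0]
    · rw [expoP_eq _ _ hl]
      have h1 := hs l hl
      have h2 : ∑ k ∈ Finset.range l, ((k + 1 : ℕ) : A) * h (k + 1) * s (l - 1 - k) =
          ∑ k ∈ Finset.range l, ((k + 1 : ℕ) : A) * h (k + 1) * expoP h e (l - 1 - k) := by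
        refine Finset.sum_congr rfl fun k hk => ?_
        rw [Finset.mem_range] at hk
        rw [ih (l - 1 - k) (by omega)]
      rw [h2] at h1
      rw [← h1, ← mul_assoc]
      have h3 : algebraMap ℚ A (1 / (l : ℚ)) * (l : A) = 1 := by
        have : (l : A) = algebraMap ℚ A (l : ℚ) := by simp
        rw [this, ← map_mul, one_div, inv_mul_cancel₀ (by positivity), map_one]
      rw [h3, one_mul]

theorem expoP_map {B : Type*} [CommRing B] [Algebra ℚ B] (φ : A →+* B) (h : ℕ → A) (e : A)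
    (l : ℕ) : φ (expoP h e l) = expoP (fun k => φ (h k)) (φ e) l := by
  apply expoP_unique (s := fun l => φ (expoP h e l))
  · simp [expoP_zero]
  · intro l hl
    have h3 : (l : A) * expoP h e l =
        e * ∑ k ∈ Finset.range l, ((k + 1 : ℕ) : A) * h (k + 1) * expoP h e (l - 1 - k) := by
      rw [expoP_eq _ _ hl, ← mul_assoc]
      have h3 : (l : A) * algebraMap ℚ A (1 / (l : ℚ)) = 1 := by
        have : (l : A) = algebraMap ℚ A (l : ℚ) := by simp
        rw [this, ← map_mul, one_div, mul_inv_cancel₀ (by positivity), map_one]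
      rw [h3, one_mul]
    have h4 := congrArg φ h3
    simp only [map_mul, map_sum, map_natCast] at h4
    exact h4

end expo

/-- polynomial initial data -/
noncomputable def X0p (n : ℕ × ℕ) : Pol :=
  if n.1 = 0 ∧ 1 ≤ n.2 then
    MvPolynomial.C ((-1 : ℚ) ^ (n.2 - 1) / n.2) * MvPolynomial.X 0 else 0

noncomputable def initp (n : ℕ × ℕ) : Pol :=
  if 1 ≤ n.1 then MvPolynomial.C ((-1 : ℚ) ^ (n.1 - 1) / n.1) * MvPolynomial.X 1 else 0

noncomputable def hOf (K : ℕ × ℕ → ℕ × ℕ → Pol) (n : ℕ × ℕ) : Pol :=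
  if n.2 = 0 then initp n else MvPolynomial.C (1 / ((prim n).2 : ℚ)) * K n n

theorem size_lt {m n : ℕ × ℕ} (h : m ≤ n) (hne : m ≠ n) : m.1 + m.2 < n.1 + n.2 := by
  have h1 : m.1 ≤ n.1 := h.1
  have h2 : m.2 ≤ n.2 := h.2
  by_contra hc
  apply hne
  ext <;> omega

theorem size_pos {m : ℕ × ℕ} (h : m ≠ 0) : 1 ≤ m.1 + m.2 := by
  by_contra hc
  apply h
  ext
  · simp only [Prod.fst_zero]; omega
  · simp only [Prod.snd_zero]; omega

theorem smul_prim_size {m : ℕ × ℕ} {k : ℕ} (hk : k ≤ Nat.gcd m.1 m.2) :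
    (k • prim m).1 + (k • prim m).2 ≤ m.1 + m.2 := by
  have h1 : k • prim m ≤ Nat.gcd m.1 m.2 • prim m := by
    obtain ⟨j, hj⟩ := Nat.exists_eq_add_of_le hk
    rw [hj, add_smul]
    exact le_self_add
  rw [gcd_smul_prim] at h1
  exact Nat.add_le_add h1.1 h1.2

theorem exists_K : ∃ K : ℕ × ℕ → ℕ × ℕ → Pol, ∀ n r, K n r = X0p n +
    ∑ m ∈ (Finset.Iic n).filter (fun m => m ≠ 0 ∧ m ≠ n ∧ 0 < wd m r),
      expoP (fun k => hOf K (k • prim m)) ((wd (prim m) n : ℤ) : Pol) (Nat.gcd m.1 m.2) *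
        K (n - m) m := by
  obtain ⟨K, hK⟩ := exists_fix (α := ℕ × ℕ) (β := ℕ × ℕ → Pol) (fun n => n.1 + n.2)
    (fun K n r => X0p n +
    ∑ m ∈ (Finset.Iic n).filter (fun m => m ≠ 0 ∧ m ≠ n ∧ 0 < wd m r),
      expoP (fun k => hOf K (k • prim m)) ((wd (prim m) n : ℤ) : Pol) (Nat.gcd m.1 m.2) *
        K (n - m) m) (by
    intro K K' n h
    funext r
    congr 1
    refine Finset.sum_congr rfl fun m hm => ?_
    simp only [Finset.mem_filter, Finset.mem_Iic] at hm
    obtain ⟨h1, h2, h3, h4⟩ := hm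
    have hs := size_lt h1 h3
    congr 1
    · apply expoP_congr
      intro k hk1 hk2
      have := smul_prim_size hk2
      unfold hOf
      rw [h (k • prim m) (by omega)]
    · rw [h (n - m)]
      have h5 : m.1 ≤ n.1 := h1.1
      have h6 : m.2 ≤ n.2 := h1.2
      have := size_pos h2
      simp only [Prod.fst_sub, Prod.snd_sub]
      omega)
  exact ⟨K, fun n r => congrFun (hK n) r⟩

end Pool.Agent.H45.Scat
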