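import Pool.Agent.H45.Scat.Wall2
set_option autoImplicit false
namespace Pool.Agent.H45.Scat
open Finset PowerSeries

/-- the wedge product -/
def wd (m r : ℕ × ℕ) : ℤ := (m.1 : ℤ) * r.2 - (m.2 : ℤ) * r.1

/-- primitive part -/
def prim (n : ℕ × ℕ) : ℕ × ℕ := (n.1 / Nat.gcd n.1 n.2, n.2 / Nat.gcd n.1 n.2)

theorem gcd_pos_of {n : ℕ × ℕ} (hn : 1 ≤ n.1 + n.2) : 0 < Nat.gcd n.1 n.2 := by
  rcases Nat.eq_zero_or_pos n.1 with h | h
  · exact Nat.gcd_pos_of_pos_right _ (by omega)
  · exact Nat.gcd_pos_of_pos_left _ h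

theorem prim_coprime {n : ℕ × ℕ} (hn : 1 ≤ n.1 + n.2) : Nat.Coprime (prim n).1 (prim n).2 :=
  Nat.coprime_div_gcd_div_gcd (gcd_pos_of hn)

theorem gcd_smul_prim (n : ℕ × ℕ) : Nat.gcd n.1 n.2 • prim n = n := by
  ext
  · simp only [prim, Prod.smul_mk, smul_eq_mul]
    exact Nat.mul_div_cancel' (Nat.gcd_dvd_left _ _)
  · simp only [prim, Prod.smul_mk, smul_eq_mul]
    exact Nat.mul_div_cancel' (Nat.gcd_dvd_right _ _)

theorem prim_smul {μ : ℕ × ℕ} (hμ : Nat.Coprime μ.1 μ.2) {k : ℕ} (hk : 1 ≤ k) :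
    prim (k • μ) = μ := by
  have h := gcd_smul hμ k
  unfold prim
  rw [h]
  ext
  · simp only [Prod.smul_fst, smul_eq_mul]
    exact Nat.mul_div_cancel_left _ hk
  · simp only [Prod.smul_snd, smul_eq_mul]
    exact Nat.mul_div_cancel_left _ hk

theorem prim_le (n : ℕ × ℕ) : (prim n).1 + (prim n).2 ≤ n.1 + n.2 := by
  unfold prim
  exact Nat.add_le_add (Nat.div_le_self _ _) (Nat.div_le_self _ _)

theorem wd_prim_left (m r : ℕ × ℕ) : wd m r = (Nat.gcd m.1 m.2 : ℤ) * wd (prim m) r := by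
  conv_lhs => rw [← gcd_smul_prim m]
  simp only [wd, Prod.smul_fst, Prod.smul_snd, smul_eq_mul]
  push_cast
  ring

theorem wd_prim_right (m r : ℕ × ℕ) : wd m r = (Nat.gcd r.1 r.2 : ℤ) * wd m (prim r) := by
  conv_lhs => rw [← gcd_smul_prim r]
  simp only [wd, Prod.smul_fst, Prod.smul_snd, smul_eq_mul]
  push_cast
  ring

theorem wd_self (m : ℕ × ℕ) : wd m m = 0 := by
  unfold wd
  ring

theorem wd_neg (m r : ℕ × ℕ) : wd r m = - wd m r := by
  unfold wd
  ring

theorem wd_pos_prim_left {m : ℕ × ℕ} (hm : 1 ≤ m.1 + m.2) (r : ℕ × ℕ) :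
    0 < wd (prim m) r ↔ 0 < wd m r := by
  rw [wd_prim_left m r]
  have : (0 : ℤ) < (Nat.gcd m.1 m.2 : ℤ) := by exact_mod_cast gcd_pos_of hm
  constructor
  · exact fun h => mul_pos this h
  · exact fun h => (mul_pos_iff_of_pos_left this).1 h

theorem wd_pos_prim_right {m : ℕ × ℕ} (hm : 1 ≤ m.1 + m.2) (r : ℕ × ℕ) :
    0 < wd r (prim m) ↔ 0 < wd r m := by
  rw [wd_prim_right r m]
  have : (0 : ℤ) < (Nat.gcd m.1 m.2 : ℤ) := by exact_mod_cast gcd_pos_of hm
  constructor
  · exact fun h => mul_pos this h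
  · exact fun h => (mul_pos_iff_of_pos_left this).1 h

theorem wd_eq_zero_iff {μ : ℕ × ℕ} (hμ : Nat.Coprime μ.1 μ.2) (n : ℕ × ℕ) :
    wd μ n = 0 ↔ ∃ k : ℕ, n = k • μ := by
  rw [← ray_iff hμ]
  unfold wd
  constructor
  · intro h
    have : ((n.1 * μ.2 : ℕ) : ℤ) = ((n.2 * μ.1 : ℕ) : ℤ) := by
      push_cast
      linarith
    exact_mod_cast this
  · intro h
    have : ((n.1 * μ.2 : ℕ) : ℤ) = ((n.2 * μ.1 : ℕ) : ℤ) := by rw [h]
    push_cast at this
    linarith

theorem wd_sub {μ n : ℕ × ℕ} {i : ℕ} (h : i • μ ≤ n) : wd μ (n - i • μ) = wd μ n := by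
  have h1 : i * μ.1 ≤ n.1 := h.1
  have h2 : i * μ.2 ≤ n.2 := h.2
  unfold wd
  simp only [Prod.fst_sub, Prod.snd_sub, Prod.smul_fst, Prod.smul_snd, smul_eq_mul]
  rw [Nat.cast_sub h1, Nat.cast_sub h2]
  push_cast
  ring

/-- ordered product along a list -/
noncomputable def prodL (b c : ℕ) (f : ℕ × ℕ → PowerSeries ℚ) (L : List (ℕ × ℕ)) : Op :=
  (L.map fun p => cross b c p (f p)).foldr (comp b c) one

variable {b c : ℕ}

theorem prodL_append (f : ℕ × ℕ → PowerSeries ℚ) (L L' : List (ℕ × ℕ)) :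
    prodL b c f (L ++ L') = comp b c (prodL b c f L) (prodL b c f L') := by
  induction L with
  | nil => simp [prodL, one_comp]
  | cons a L ih =>
    unfold prodL at ih ⊢
    simp only [List.cons_append, List.map_cons, List.foldr_cons]
    rw [ih, comp_assoc]

theorem prodL_singleton (f : ℕ × ℕ → PowerSeries ℚ) (μ : ℕ × ℕ) :
    prodL b c f [μ] = cross b c μ (f μ) := by
  simp [prodL, comp_one]

theorem prodL_nil (f : ℕ × ℕ → PowerSeries ℚ) : prodL b c f [] = one := rfl

/-- the coefficient picked up when crossing -/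
noncomputable def coefE (b c : ℕ) (f : ℕ × ℕ → PowerSeries ℚ) (m n : ℕ × ℕ) : ℚ :=
  coeff (Nat.gcd m.1 m.2) (zpow (f (prim m)) (pair b c (prim m) (yexp b c n)))

/-- the state of the transported element when the remaining rays are `L` -/
noncomputable def KL (b c : ℕ) (f : ℕ × ℕ → PowerSeries ℚ) (X0 : ℕ × ℕ → ℚ)
    (K : ℕ × ℕ → ℕ × ℕ → ℚ) (L : List (ℕ × ℕ)) (n : ℕ × ℕ) : ℚ :=
  X0 n + ∑ m ∈ (Finset.Iic n).filter (fun m => m ≠ 0 ∧ m ≠ n ∧ prim m ∉ L),
    coefE b c f m n * K (n - m) m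

theorem lie_eqv {N : ℕ} {X X' : ℕ × ℕ → ℚ}
    (h : ∀ n : ℕ × ℕ, 1 ≤ n.1 + n.2 → n.1 + n.2 ≤ N → X n = X' n) :
    Eqv N (lie b c X) (lie b c X') := by
  intro n hn m
  rcases Nat.eq_zero_or_pos (n.1 + n.2) with h0 | h0
  · have h1 : n.1 = 0 := by omega
    have h2 : n.2 = 0 := by omega
    simp [lie, om, h1, h2]
  · rw [lie, lie, h n h0 hn]

theorem lie_add (X X' : ℕ × ℕ → ℚ) : lie b c (X + X') = lie b c X + lie b c X' := by
  funext n m
  simp [lie, add_mul]

theorem E2_one : E2 one = 0 := by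
  funext n m
  by_cases h : n = 0
  · simp [E2, one, h]
  · simp [E2, one, h]

structure Data (b c : ℕ) (f Lf : ℕ × ℕ → PowerSeries ℚ) (X0 : ℕ × ℕ → ℚ)
    (K : ℕ × ℕ → ℕ × ℕ → ℚ) : Prop where
  hb : 1 ≤ b
  hc : 1 ≤ c
  hf : ∀ μ : ℕ × ℕ, Nat.Coprime μ.1 μ.2 → constantCoeff (f μ) = 1
  hL : ∀ μ : ℕ × ℕ, Nat.Coprime μ.1 μ.2 → zd (f μ) = Lf μ * f μ
  hK : ∀ n r : ℕ × ℕ, K n r = X0 n +
    ∑ m ∈ (Finset.Iic n).filter (fun m => m ≠ 0 ∧ m ≠ n ∧ 0 < wd m r),
      coefE b c f m n * K (n - m) m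
  hY : ∀ μ : ℕ × ℕ, Nat.Coprime μ.1 μ.2 → ∀ k : ℕ, 1 ≤ k →
    (k : ℚ) * (Nat.gcd (μ.1 * b) (μ.2 * c) : ℕ) * K (k • μ) (k • μ) = (μ.2 : ℚ) * coeff k (Lf μ)

theorem size_pos_of_wd {μ n : ℕ × ℕ} (h : wd μ n ≠ 0) : 1 ≤ n.1 + n.2 := by
  rcases Nat.eq_zero_or_pos (n.1 + n.2) with h0 | h0
  · have h1 : n.1 = 0 := by omega
    have h2 : n.2 = 0 := by omega
    exact absurd (by simp [wd, h1, h2]) h
  · exact h0

theorem step_claim {N : ℕ} {f Lf : ℕ × ℕ → PowerSeries ℚ} {X0 : ℕ × ℕ → ℚ}
    {K : ℕ × ℕ → ℕ × ℕ → ℚ} (D : Data b c f Lf X0 K) :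
    ∀ (L : List (ℕ × ℕ)), (∀ p ∈ L, Nat.Coprime p.1 p.2) →
      L.Pairwise (fun p q => 0 < wd q p) →
      (∀ n : ℕ × ℕ, 1 ≤ n.1 + n.2 → n.1 + n.2 ≤ N → prim n ∈ L ∨ ∀ q ∈ L, 0 < wd n q) →
      ∀ X : ℕ × ℕ → ℚ,
        (∀ n : ℕ × ℕ, 1 ≤ n.1 + n.2 → n.1 + n.2 ≤ N → prim n ∈ L → X n = KL b c f X0 K L n) →
        (∀ n : ℕ × ℕ, 1 ≤ n.1 + n.2 → n.1 + n.2 ≤ N → prim n ∉ L → X n = 0) →
        Eqv N (comp b c (prodL b c f L) (lie b c X)) (E2 (prodL b c f L)) := by
  intro L
  induction L using List.reverseRecOn with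
  | nil =>
    intro _ _ _ X _ h2
    rw [prodL_nil, one_comp, E2_one]
    have : (0 : Op) = lie b c 0 := by
      funext n m
      simp [lie]
    rw [this]
    exact lie_eqv fun n h1 h3 => h2 n h1 h3 (by simp)
  | append_singleton L μ ih =>
    intro hcop hsort hcompl X hX hX0
    have hμ : Nat.Coprime μ.1 μ.2 := hcop μ (by simp)
    have hμ1 := ne_zero_of_coprime hμ
    have hfμ := D.hf μ hμ
    have hLμ := D.hL μ hμ
    rw [List.pairwise_append] at hsort
    obtain ⟨hsortL, -, hsortμ⟩ := hsort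
    have hμL : ∀ q ∈ L, 0 < wd μ q := fun q hq => hsortμ q hq μ (by simp)
    have hμnot : μ ∉ L := fun h => by
      have := hμL μ h
      rw [wd_self] at this
      exact lt_irrefl _ this
    -- membership in the remaining list
    have hiff : ∀ m : ℕ × ℕ, 1 ≤ m.1 + m.2 → m.1 + m.2 ≤ N →
        (prim m ∉ L ++ [μ] ↔ 0 < wd m μ) := by
      intro m h1 h2
      constructor
      · intro h
        rcases hcompl m h1 h2 with h' | h'
        · exact absurd h' h
        · exact h' μ (by simp)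
      · intro h h'
        rw [List.mem_append, List.mem_singleton] at h'
        rcases h' with h' | h'
        · have := hμL _ h'
          rw [wd_pos_prim_right h1, wd_neg] at this
          linarith
        · have h3 := (wd_pos_prim_left h1 μ).2 h
          rw [h', wd_self] at h3
          exact lt_irrefl _ h3
    have hmemL : ∀ m : ℕ × ℕ, 1 ≤ m.1 + m.2 → m.1 + m.2 ≤ N → (prim m ∈ L ↔ 0 < wd μ m) := by
      intro m h1 h2
      constructor
      · intro h
        have := hμL _ h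
        rwa [wd_pos_prim_right h1] at this
      · intro h
        by_contra h'
        rcases hcompl m h1 h2 with h3 | h3
        · rw [List.mem_append, List.mem_singleton] at h3
          rcases h3 with h3 | h3
          · exact h' h3
          · have h4 := (wd_pos_prim_right h1 μ).2 h
            rw [h3, wd_self] at h4
            exact lt_irrefl _ h4
        · have h4 := h3 μ (by simp)
          rw [wd_neg] at h4
          linarith
    -- the state equals the threshold function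
    have hKL : ∀ n r : ℕ × ℕ, 1 ≤ n.1 + n.2 → n.1 + n.2 ≤ N → (∃ k : ℕ, 1 ≤ k ∧ r = k • μ) →
        KL b c f X0 K (L ++ [μ]) n = K n r := by
      rintro n r h1 h2 ⟨k, hk, rfl⟩
      rw [KL, D.hK]
      congr 1
      apply Finset.sum_congr _ fun _ _ => rfl
      ext m
      simp only [Finset.mem_filter, Finset.mem_Iic]
      constructor
      · rintro ⟨h3, h4, h5, h6⟩
        have hm1 : 1 ≤ m.1 + m.2 := by
          by_contra hlt
          apply h4
          ext
          · simp only [Prod.fst_zero]; omega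
          · simp only [Prod.snd_zero]; omega
        have hm2 : m.1 + m.2 ≤ N := (Nat.add_le_add h3.1 h3.2).trans h2
        refine ⟨h3, h4, h5, ?_⟩
        have := (hiff m hm1 hm2).1 h6
        rw [wd_prim_right, prim_smul hμ hk, gcd_smul hμ]
        have hk' : (0 : ℤ) < k := by exact_mod_cast hk
        positivity
      · rintro ⟨h3, h4, h5, h6⟩
        have hm1 : 1 ≤ m.1 + m.2 := by
          by_contra hlt
          apply h4
          ext
          · simp only [Prod.fst_zero]; omega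
          · simp only [Prod.snd_zero]; omega
        have hm2 : m.1 + m.2 ≤ N := (Nat.add_le_add h3.1 h3.2).trans h2
        refine ⟨h3, h4, h5, ?_⟩
        rw [hiff m hm1 hm2]
        rw [wd_prim_right, prim_smul hμ hk, gcd_smul hμ] at h6
        have hk' : (0 : ℤ) < k := by exact_mod_cast hk
        exact (mul_pos_iff_of_pos_left hk').1 h6
    -- the ray part
    let Y : ℕ × ℕ → ℚ := fun n => if 1 ≤ n.1 + n.2 ∧ wd μ n = 0 then K n n else 0
    let X' : ℕ × ℕ → ℚ := fun n => if 0 < wd μ n then Ad b c μ (f μ) X n else 0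
    have hYray : ∀ k : ℕ, (k : ℚ) * (Nat.gcd (μ.1 * b) (μ.2 * c) : ℕ) * Y (k • μ) =
        (μ.2 : ℚ) * coeff k (Lf μ) := by
      intro k
      rcases Nat.eq_zero_or_pos k with rfl | hk
      · have : coeff 0 (Lf μ) = 0 := by
          have h := congrArg (coeff 0) hLμ
          rw [coeff_zd] at h
          simp only [coeff_zero_eq_constantCoeff, map_mul] at h
          rw [hfμ] at h
          simp at h
          simpa using h.symm
        rw [this]
        simp
      · have h1 : 1 ≤ (k • μ).1 + (k • μ).2 := by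
          simp only [Prod.smul_fst, Prod.smul_snd, smul_eq_mul, ← mul_add]
          exact Nat.mul_pos hk hμ1
        have h2 : wd μ (k • μ) = 0 := (wd_eq_zero_iff hμ _).2 ⟨k, rfl⟩
        have : Y (k • μ) = K (k • μ) (k • μ) := if_pos ⟨h1, h2⟩
        rw [this, D.hY μ hμ k hk]
    have hYnot : ∀ n : ℕ × ℕ, (∀ k : ℕ, n ≠ k • μ) → Y n = 0 := by
      intro n h
      apply if_neg
      rintro ⟨-, h'⟩
      obtain ⟨k, hk⟩ := (wd_eq_zero_iff hμ _).1 h'
      exact h k hk
    have hAd : ∀ n : ℕ × ℕ, 1 ≤ n.1 + n.2 → n.1 + n.2 ≤ N →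
        Ad b c μ (f μ) X n = (X' + Y) n := by
      intro n h1 h2
      rw [Pi.add_apply]
      rcases lt_trichotomy (wd μ n) 0 with h | h | h
      · have e1 : X' n = 0 := if_neg (not_lt.2 h.le)
        have e2 : Y n = 0 := if_neg fun h' => absurd h'.2 h.ne
        rw [e1, e2, add_zero, Ad]
        refine Finset.sum_eq_zero fun i hi => ?_
        rw [mem_ridx hμ1] at hi
        have h3 := wd_sub hi
        have h4 : 1 ≤ (n - i • μ).1 + (n - i • μ).2 :=
          size_pos_of_wd (μ := μ) (by rw [h3]; exact h.ne)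
        have h5 : (n - i • μ).1 + (n - i • μ).2 ≤ N :=
          (Nat.add_le_add (Nat.sub_le _ _) (Nat.sub_le _ _)).trans h2
        rw [hX0 _ h4 h5, mul_zero]
        rw [hiff _ h4 h5, wd_neg, h3]
        linarith
      · obtain ⟨k, rfl⟩ := (wd_eq_zero_iff hμ _).1 h
        have hk : 1 ≤ k := by
          rcases Nat.eq_zero_or_pos k with rfl | hk
          · simp at h1
          · exact hk
        have e1 : X' (k • μ) = 0 := if_neg (by rw [h]; exact lt_irrefl _)
        have e2 : Y (k • μ) = K (k • μ) (k • μ) := if_pos ⟨h1, h⟩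
        rw [e1, e2, zero_add, Ad_ray D.hb D.hc hμ, hX _ h1 h2, hKL _ (k • μ) h1 h2 ⟨k, hk, rfl⟩]
        rw [prim_smul hμ hk]
        simp
      · have e1 : X' n = Ad b c μ (f μ) X n := if_pos h
        have e2 : Y n = 0 := if_neg fun h' => absurd h'.2 h.ne'
        rw [e1, e2, add_zero]
    have hX'1 : ∀ n : ℕ × ℕ, 1 ≤ n.1 + n.2 → n.1 + n.2 ≤ N → prim n ∈ L →
        X' n = KL b c f X0 K L n := by
      intro n h1 h2 h3
      have hw := (hmemL n h1 h2).1 h3
      have e1 : X' n = Ad b c μ (f μ) X n := if_pos hw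
      rw [e1, Ad]
      -- split off the term `i = 0`
      have h0 : 0 ∈ ridx μ n := by
        rw [mem_ridx hμ1, zero_smul]
        exact zero_le
      rw [← Finset.add_sum_erase _ _ h0]
      have t0 : coeff 0 (zpow (f μ) (pair b c μ (yexp b c n))) * X (n - 0 • μ) =
          KL b c f X0 K (L ++ [μ]) n := by
        rw [coeff_zero_eq_constantCoeff, constantCoeff_zpow _ hfμ, one_mul, zero_smul, tsub_zero,
          hX n h1 h2 (by simp [h3])]
      rw [t0, KL, KL, add_assoc]
      congr 1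
      -- split the sum over processed vectors
      have hsplit : (Finset.Iic n).filter (fun m => m ≠ 0 ∧ m ≠ n ∧ prim m ∉ L) =
          (Finset.Iic n).filter (fun m => m ≠ 0 ∧ m ≠ n ∧ prim m ∉ L ++ [μ]) ∪
          ((ridx μ n).erase 0).image (fun i => i • μ) := by
        ext m
        simp only [Finset.mem_union, Finset.mem_filter, Finset.mem_Iic, Finset.mem_image,
          Finset.mem_erase, mem_ridx hμ1]
        constructor
        · rintro ⟨h4, h5, h6, h7⟩
          by_cases h8 : prim m = μ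
          · right
            refine ⟨Nat.gcd m.1 m.2, ⟨?_, ?_⟩, ?_⟩
            · intro h9
              apply h5
              rw [← gcd_smul_prim m, h9, zero_smul]
            · rw [← h8, gcd_smul_prim]
              exact h4
            · rw [← h8, gcd_smul_prim]
          · left
            refine ⟨h4, h5, h6, ?_⟩
            simp [h7, h8]
        · rintro (⟨h4, h5, h6, h7⟩ | ⟨i, ⟨h4, h5⟩, rfl⟩)
          · refine ⟨h4, h5, h6, ?_⟩
            intro h8
            exact h7 (by simp [h8])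
          · have hi : 1 ≤ i := by omega
            refine ⟨h5, ?_, ?_, ?_⟩
            · intro h
              have h' := congrArg Prod.fst h
              have h'' := congrArg Prod.snd h
              simp only [Prod.smul_fst, Prod.smul_snd, smul_eq_mul, Prod.fst_zero,
                Prod.snd_zero] at h' h''
              have : i * (μ.1 + μ.2) = 0 := by rw [mul_add, h', h'', add_zero]
              rcases Nat.mul_eq_zero.1 this with h9 | h9 <;> omega
            · intro h
              rw [← h] at hw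
              rw [(wd_eq_zero_iff hμ _).2 ⟨i, rfl⟩] at hw
              exact lt_irrefl _ hw
            · rw [prim_smul hμ hi]
              exact hμnot
      rw [hsplit, Finset.sum_union]
      · congr 1
        rw [Finset.sum_image (fun x _ y _ h => smul_injective hμ1 h)]
        refine Finset.sum_congr rfl fun i hi => ?_
        simp only [Finset.mem_erase, mem_ridx hμ1] at hi
        have hi1 : 1 ≤ i := by omega
        have h4 := wd_sub hi.2
        have h5 : 1 ≤ (n - i • μ).1 + (n - i • μ).2 :=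
          size_pos_of_wd (μ := μ) (by rw [h4]; exact hw.ne')
        have h6 : (n - i • μ).1 + (n - i • μ).2 ≤ N :=
          (Nat.add_le_add (Nat.sub_le _ _) (Nat.sub_le _ _)).trans h2
        rw [coefE, gcd_smul hμ, prim_smul hμ hi1, hX _ h5 h6, hKL _ (i • μ) h5 h6 ⟨i, hi1, rfl⟩]
        have : prim (n - i • μ) ∈ L := by
          rw [hmemL _ h5 h6, h4]
          exact hw
        exact List.mem_append_left _ this
      · rw [Finset.disjoint_left]
        intro m hm hm'
        simp only [Finset.mem_filter, Finset.mem_image, Finset.mem_erase] at hm hm'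
        obtain ⟨i, ⟨hi, -⟩, rfl⟩ := hm'
        apply hm.2.2.2
        rw [prim_smul hμ (by omega)]
        simp
    have hX'2 : ∀ n : ℕ × ℕ, 1 ≤ n.1 + n.2 → n.1 + n.2 ≤ N → prim n ∉ L → X' n = 0 := by
      intro n h1 h2 h3
      apply if_neg
      rwa [← hmemL n h1 h2]
    have hcop' : ∀ p ∈ L, Nat.Coprime p.1 p.2 := fun p hp => hcop p (by simp [hp])
    have hcompl' : ∀ n : ℕ × ℕ, 1 ≤ n.1 + n.2 → n.1 + n.2 ≤ N → prim n ∈ L ∨ ∀ q ∈ L, 0 < wd n q := by
      intro n h1 h2
      rcases hcompl n h1 h2 with h | h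
      · rw [List.mem_append, List.mem_singleton] at h
        rcases h with h | h
        · exact Or.inl h
        · right
          intro q hq
          rw [← wd_pos_prim_left h1, h]
          exact hμL q hq
      · exact Or.inr fun q hq => h q (by simp [hq])
    have IH := ih hcop' hsortL hcompl' X' hX'1 hX'2
    rw [prodL_append, prodL_singleton, comp_assoc, cross_comp_lie D.hb D.hc hμ _ _ hfμ hLμ, E2_comp,
      E2_cross D.hb D.hc hμ _ _ hfμ hLμ Y hYray hYnot]
    have e1 : Eqv N (comp b c (prodL b c f L)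
        (comp b c (lie b c (Ad b c μ (f μ) X)) (cross b c μ (f μ))))
        (comp b c (prodL b c f L) (comp b c (lie b c (X' + Y)) (cross b c μ (f μ)))) :=
      (Eqv.refl _).comp ((lie_eqv hAd).comp (Eqv.refl _))
    refine e1.trans ?_
    rw [lie_add, add_comp, comp_add, ← comp_assoc]
    exact (IH.comp (Eqv.refl _)).add (Eqv.refl _)

end Pool.Agent.H45.Scat
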