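import Pool.Agent.H45.Scat.Rec
set_option autoImplicit false
namespace Pool.Agent.H45.Scat
open Finset PowerSeries

section

set_option linter.unusedSectionVars false

variable {A : Type*} [CommRing A] [Algebra ℚ A]

theorem binom_zero (x : A) : binom x 0 = 1 := by simp [binom]

theorem binom_succ (x : A) (s : ℕ) : ((s + 1 : ℕ) : A) * binom x (s + 1) = (x - s) * binom x s := by
  unfold binom
  rw [Finset.prod_range_succ]
  have h : ((s + 1 : ℕ) : A) * algebraMap ℚ A (1 / ((s + 1).factorial : ℚ)) =
      algebraMap ℚ A (1 / (s.factorial : ℚ)) := by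
    have h1 : ((s + 1 : ℕ) : A) = algebraMap ℚ A ((s + 1 : ℕ) : ℚ) := by simp
    rw [h1, ← map_mul]
    congr 1
    rw [Nat.factorial_succ]
    have : (s.factorial : ℚ) ≠ 0 := by positivity
    push_cast
    field_simp
  calc _ = (((s + 1 : ℕ) : A) * algebraMap ℚ A (1 / ((s + 1).factorial : ℚ))) *
        ((∏ i ∈ Finset.range s, (x - (i : A))) * (x - s)) := by ring
    _ = _ := by
      rw [h]
      ring

theorem binom_rec (x : A) (s : ℕ) : (s : A) * binom x s =
    x * ∑ i ∈ Finset.range s, (-1) ^ i * binom x (s - 1 - i) := by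
  induction s with
  | zero => simp
  | succ s ih =>
    rw [binom_succ, sub_mul, ih, Finset.sum_range_succ']
    simp only [Nat.add_sub_cancel, Nat.sub_zero, pow_zero, one_mul]
    have : ∑ k ∈ Finset.range s, (-1 : A) ^ (k + 1) * binom x (s - (k + 1)) =
        - ∑ i ∈ Finset.range s, (-1) ^ i * binom x (s - 1 - i) := by
      rw [← Finset.sum_neg_distrib]
      refine Finset.sum_congr rfl fun i _ => ?_
      rw [pow_succ, show s - (i + 1) = s - 1 - i by omega]
      ring
    rw [this]
    ring

/-- `z d/dz` -/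
noncomputable def zdA (f : PowerSeries A) : PowerSeries A := X * (d⁄dX A) f

theorem coeff_zdA (f : PowerSeries A) (l : ℕ) : coeff l (zdA f) = l * coeff l f := by
  cases l with
  | zero => simp [zdA]
  | succ l =>
    rw [zdA, coeff_succ_X_mul, coeff_derivative]
    push_cast
    ring

theorem zdA_mul (f h : PowerSeries A) : zdA (f * h) = zdA f * h + f * zdA h := by
  simp only [zdA, Derivation.leibniz, smul_eq_mul]
  ring

/-- `(1 + z^j)^x` -/
noncomputable def Bser (x : A) (j : ℕ) : PowerSeries A :=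
  PowerSeries.mk fun n => if j ∣ n then binom x (n / j) else 0

/-- its logarithmic derivative -/
noncomputable def Lser (x : A) (j : ℕ) : PowerSeries A :=
  PowerSeries.mk fun n => if j ∣ n ∧ 1 ≤ n then (-1) ^ (n / j - 1) * (j : A) * x else 0

theorem zdA_Bser (x : A) {j : ℕ} (hj : 1 ≤ j) : zdA (Bser x j) = Lser x j * Bser x j := by
  ext n
  rw [coeff_zdA, PowerSeries.coeff_mul,
    Finset.Nat.sum_antidiagonal_eq_sum_range_succ (fun a b => coeff a (Lser x j) * coeff b (Bser x j))]
  simp only [Bser, Lser, coeff_mk]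
  by_cases hn : j ∣ n
  · obtain ⟨s, rfl⟩ := hn
    rw [if_pos (Dvd.intro _ rfl), Nat.mul_div_cancel_left _ hj]
    have h1 := binom_rec x s
    have h2 : ((j * s : ℕ) : A) * binom x s = (j : A) * ((s : A) * binom x s) := by
      push_cast
      ring
    rw [h2, h1, Finset.mul_sum, Finset.mul_sum]
    refine Finset.sum_bij_ne_zero (fun i _ _ => j * (i + 1)) ?_ ?_ ?_ ?_
    · intro i hi _
      rw [Finset.mem_range] at hi ⊢
      have : j * (i + 1) ≤ j * s := Nat.mul_le_mul_left _ (by omega)
      omega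
    · intro i _ _ k _ _ h
      have := Nat.eq_of_mul_eq_mul_left hj h
      omega
    · intro a ha hne
      rw [Finset.mem_range] at ha
      by_cases h : j ∣ a ∧ 1 ≤ a
      · obtain ⟨⟨t, rfl⟩, ht⟩ := h
        have ht1 : 1 ≤ t := by
          rcases Nat.eq_zero_or_pos t with rfl | h
          · simp at ht
          · exact h
        have hts : t ≤ s := by
          have : j * t ≤ j * s := by omega
          exact Nat.le_of_mul_le_mul_left this hj
        have he : j * (t - 1 + 1) = j * t := by rw [Nat.sub_add_cancel ht1]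
        refine ⟨t - 1, Finset.mem_range.2 (by omega), ?_, he⟩
        have e1 : j * s - j * t = j * (s - t) := (Nat.mul_sub _ _ _).symm
        rw [if_pos ⟨Dvd.intro _ rfl, ht⟩, e1, if_pos (Dvd.intro _ rfl),
          Nat.mul_div_cancel_left _ hj, Nat.mul_div_cancel_left _ hj] at hne
        have e2 : s - 1 - (t - 1) = s - t := by omega
        rw [e2]
        intro h
        apply hne
        rw [← h]
        ring
      · rw [if_neg h, zero_mul] at hne
        exact absurd rfl hne
    · intro i hi _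
      rw [Finset.mem_range] at hi
      have e1 : j * s - j * (i + 1) = j * (s - (i + 1)) := (Nat.mul_sub _ _ _).symm
      have h3 : 1 ≤ j * (i + 1) := Nat.mul_pos hj (Nat.succ_pos i)
      rw [if_pos ⟨Dvd.intro _ rfl, h3⟩, e1, if_pos (Dvd.intro _ rfl),
        Nat.mul_div_cancel_left _ hj, Nat.mul_div_cancel_left _ hj]
      have e2 : s - 1 - i = s - (i + 1) := by omega
      rw [e2, Nat.add_sub_cancel]
      ring
  · rw [if_neg hn, mul_zero]
    symm
    refine Finset.sum_eq_zero fun a ha => ?_
    rw [Finset.mem_range] at ha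
    by_cases h1 : j ∣ a ∧ 1 ≤ a
    · have h2 : ¬ j ∣ n - a := by
        intro h
        apply hn
        have := dvd_add h h1.1
        rwa [Nat.sub_add_cancel (by omega)] at this
      rw [if_neg h2, mul_zero]
    · rw [if_neg h1, zero_mul]

/-- the truncated product -/
noncomputable def Pser (x : ℕ → A) (L : ℕ) : PowerSeries A :=
  ∏ j ∈ Finset.range L, Bser (x (j + 1)) (j + 1)

theorem Pser_succ (x : ℕ → A) (L : ℕ) : Pser x (L + 1) = Pser x L * Bser (x (L + 1)) (L + 1) := by
  rw [Pser, Finset.prod_range_succ]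
  rfl

theorem zdA_one : zdA (1 : PowerSeries A) = 0 := by
  ext l
  rw [coeff_zdA]
  rcases Nat.eq_zero_or_pos l with rfl | h
  · simp
  · rw [coeff_one, if_neg (by omega)]
    simp

theorem zdA_Pser (x : ℕ → A) (L : ℕ) : zdA (Pser x L) =
    (∑ j ∈ Finset.range L, Lser (x (j + 1)) (j + 1)) * Pser x L := by
  induction L with
  | zero => simp [Pser, zdA_one]
  | succ L ih =>
    rw [Pser_succ, zdA_mul, ih, zdA_Bser _ (by omega), Finset.sum_range_succ]
    ring

theorem coeff_Pser_succ (x : ℕ → A) {L n : ℕ} (h : n ≤ L) :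
    coeff n (Pser x (L + 1)) = coeff n (Pser x L) := by
  rw [Pser_succ, PowerSeries.coeff_mul, Finset.sum_eq_single (n, 0)]
  · simp [Bser, binom_zero]
  · rintro ⟨a, b⟩ hab hne
    rw [Finset.HasAntidiagonal.mem_antidiagonal] at hab
    simp only at hab
    have hb : 1 ≤ b := by
      rcases Nat.eq_zero_or_pos b with rfl | hb
      · exfalso
        apply hne
        rw [add_zero] at hab
        rw [hab]
      · exact hb
    have : ¬ (L + 1) ∣ b := fun hd => by
      have := Nat.le_of_dvd hb hd
      omega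
    simp [Bser, this]
  · intro h
    exact absurd (Finset.HasAntidiagonal.mem_antidiagonal.2 (add_zero n)) h

theorem coeff_Pser_eq (x : ℕ → A) {L n : ℕ} (h : n ≤ L) :
    coeff n (Pser x L) = coeff n (Pser x n) := by
  obtain ⟨k, rfl⟩ := Nat.exists_eq_add_of_le h
  induction k with
  | zero => rfl
  | succ k ih =>
    rw [← add_assoc, coeff_Pser_succ x (by omega)]
    exact ih (by omega)

/-- the explicit sum -/
noncomputable def Tsum (x : ℕ → A) (l : ℕ) : A :=
  ∑ s ∈ (Finset.univ : Finset (Fin l → Fin (l + 1))).filter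
      (fun s => ∑ j, (j.1 + 1) * (s j).1 = l), ∏ j, binom (x (j.1 + 1)) (s j).1

theorem Tsum_eq_coeff (x : ℕ → A) (l : ℕ) : Tsum x l = coeff l (Pser x l) := by
  classical
  have h1 : Pser x l = ∏ j : Fin l, Bser (x (j.1 + 1)) (j.1 + 1) :=
    (Fin.prod_univ_eq_prod_range (fun j => Bser (x (j + 1)) (j + 1)) l).symm
  rw [h1, PowerSeries.coeff_prod, Tsum]
  refine Finset.sum_bij_ne_zero
    (fun s _ _ => Finsupp.equivFunOnFinite.symm (fun j : Fin l => (j.1 + 1) * (s j).1)) ?_ ?_ ?_ ?_
  · intro s hs _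
    rw [Finset.mem_filter] at hs
    rw [Finset.mem_finsuppAntidiag]
    refine ⟨?_, Finset.subset_univ _⟩
    simpa using hs.2
  · intro s _ _ t _ _ h
    funext j
    have := DFunLike.congr_fun h j
    simp only [Finsupp.equivFunOnFinite_symm_apply_apply] at this
    ext
    exact Nat.eq_of_mul_eq_mul_left (Nat.succ_pos _) this
  · intro f hf hne
    rw [Finset.mem_finsuppAntidiag] at hf
    have hdvd : ∀ j : Fin l, (j.1 + 1) ∣ f j := by
      intro j
      by_contra hnd
      apply hne
      apply Finset.prod_eq_zero (Finset.mem_univ j)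
      simp [Bser, hnd]
    have hle : ∀ j : Fin l, f j / (j.1 + 1) < l + 1 := by
      intro j
      have h3 : f j ≤ l := by
        refine le_trans ?_ hf.1.le
        exact Finset.single_le_sum (f := fun j => f j) (fun _ _ => Nat.zero_le _)
          (Finset.mem_univ j)
      exact lt_of_le_of_lt (Nat.div_le_self _ _) (by omega)
    refine ⟨fun j => ⟨f j / (j.1 + 1), hle j⟩, ?_, ?_, ?_⟩
    · rw [Finset.mem_filter]
      refine ⟨Finset.mem_univ _, ?_⟩
      refine Eq.trans ?_ hf.1
      exact Finset.sum_congr rfl fun j _ => Nat.mul_div_cancel' (hdvd j)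
    · intro h
      apply hne
      rw [← h]
      refine Finset.prod_congr rfl fun j _ => ?_
      simp only [Bser, coeff_mk, if_pos (hdvd j)]
    · ext j
      simp only [Finsupp.equivFunOnFinite_symm_apply_apply]
      exact Nat.mul_div_cancel' (hdvd j)
  · intro s hs _
    refine Finset.prod_congr rfl fun j _ => ?_
    simp only [Bser, coeff_mk, Finsupp.equivFunOnFinite_symm_apply_apply]
    rw [if_pos (Dvd.intro _ rfl), Nat.mul_div_cancel_left _ (Nat.succ_pos _)]

theorem Tsum_zero (x : ℕ → A) : Tsum x 0 = 1 := by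
  rw [Tsum_eq_coeff]
  simp [Pser]

theorem Tsum_rec (x : ℕ → A) (l : ℕ) : (l : A) * Tsum x l =
    ∑ k ∈ Finset.range l, (∑ j ∈ (k + 1).divisors, (-1) ^ ((k + 1) / j - 1) * (j : A) * x j) *
      Tsum x (l - 1 - k) := by
  have h := congrArg (coeff l) (zdA_Pser x l)
  rw [coeff_zdA, PowerSeries.coeff_mul,
    Finset.Nat.sum_antidiagonal_eq_sum_range_succ
      (fun a b => coeff a (∑ j ∈ Finset.range l, Lser (x (j + 1)) (j + 1)) * coeff b (Pser x l)),
    Finset.sum_range_succ'] at h
  rw [Tsum_eq_coeff, h]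
  have h0 : coeff 0 (∑ j ∈ Finset.range l, Lser (x (j + 1)) (j + 1)) = 0 := by
    rw [map_sum]
    refine Finset.sum_eq_zero fun j _ => ?_
    simp [Lser]
  rw [h0, zero_mul, add_zero]
  refine Finset.sum_congr rfl fun k hk => ?_
  rw [Finset.mem_range] at hk
  have e1 : l - (k + 1) = l - 1 - k := by omega
  rw [e1, Tsum_eq_coeff, coeff_Pser_eq x (show l - 1 - k ≤ l by omega), map_sum]
  congr 1
  symm
  refine Finset.sum_bij_ne_zero (fun j _ _ => j - 1) ?_ ?_ ?_ ?_
  · intro j hj _
    have h2 := Nat.divisor_le hj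
    have h3 := Nat.pos_of_mem_divisors hj
    rw [Finset.mem_range]
    omega
  · intro i hi _ j hj _ h
    have h3 := Nat.pos_of_mem_divisors hi
    have h4 := Nat.pos_of_mem_divisors hj
    omega
  · intro j _ hne
    simp only [Lser, coeff_mk] at hne
    have hd : (j + 1) ∣ (k + 1) := by
      by_contra h
      rw [if_neg (fun h' => h h'.1)] at hne
      exact hne rfl
    refine ⟨j + 1, Nat.mem_divisors.2 ⟨hd, by omega⟩, ?_, by omega⟩
    rwa [if_pos ⟨hd, by omega⟩] at hne
  · intro j hj _
    have h3 := Nat.pos_of_mem_divisors hj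
    simp only [Lser, coeff_mk]
    rw [Nat.sub_add_cancel h3, if_pos ⟨Nat.dvd_of_mem_divisors hj, by omega⟩]

/-- logarithmic coefficients -/
noncomputable def aOf (x : ℕ → A) (k : ℕ) : A :=
  algebraMap ℚ A (1 / (k : ℚ)) * ∑ j ∈ k.divisors, (-1) ^ (k / j - 1) * (j : A) * x j

theorem mul_aOf (x : ℕ → A) {k : ℕ} (hk : 1 ≤ k) :
    (k : A) * aOf x k = ∑ j ∈ k.divisors, (-1) ^ (k / j - 1) * (j : A) * x j := by
  rw [aOf, ← mul_assoc]
  have h3 : (k : A) * algebraMap ℚ A (1 / (k : ℚ)) = 1 := by
    have : (k : A) = algebraMap ℚ A (k : ℚ) := by simp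
    rw [this, ← map_mul, one_div, mul_inv_cancel₀ (by positivity), map_one]
  rw [h3, one_mul]

theorem Tsum_eq_expoP (x : ℕ → A) (G : A) (l : ℕ) :
    Tsum (fun j => G * x j) l = expoP (aOf x) G l := by
  apply expoP_unique (s := Tsum (fun j => G * x j)) (Tsum_zero _)
  intro l hl
  rw [Tsum_rec, Finset.mul_sum]
  refine Finset.sum_congr rfl fun k _ => ?_
  rw [mul_aOf x (by omega), Finset.sum_mul, Finset.sum_mul, Finset.mul_sum]
  refine Finset.sum_congr rfl fun j _ => ?_
  ring

end

end Pool.Agent.H45.Scat
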