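import Pool.Agent.H45.Scat.Posi
import Pool.Agent.H45.Scat.TRec
set_option autoImplicit false
namespace Pool.Agent.H45.Scat
open Finset

/-- the coefficient of `G^k` in `exp (G ∑ α_j z^j)` -/
noncomputable def tc (α : ℕ → Pol) (l k : ℕ) : Pol :=
  (expoP (fun j => Polynomial.C (α j)) (Polynomial.X : Polynomial Pol) l).coeff k

theorem tc_zero (α : ℕ → Pol) (k : ℕ) : tc α 0 k = if k = 0 then 1 else 0 := by
  rw [tc, expoP_zero, Polynomial.coeff_one]

theorem tc_succ (α : ℕ → Pol) {l : ℕ} (hl : 1 ≤ l) (k : ℕ) :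
    tc α l (k + 1) = MvPolynomial.C (1 / (l : ℚ)) * ∑ j ∈ Finset.range l,
      MvPolynomial.C ((j + 1 : ℕ) : ℚ) * (α (j + 1) * tc α (l - 1 - j) k) := by
  unfold tc
  rw [expoP_eq _ _ hl]
  have h1 : algebraMap ℚ (Polynomial Pol) (1 / (l : ℚ)) =
      Polynomial.C (MvPolynomial.C (1 / (l : ℚ))) := rfl
  rw [h1, Polynomial.coeff_C_mul, Polynomial.coeff_X_mul, Polynomial.finsetSum_coeff]
  congr 1
  refine Finset.sum_congr rfl fun j _ => ?_
  have h2 : ((j + 1 : ℕ) : Polynomial Pol) = Polynomial.C (MvPolynomial.C ((j + 1 : ℕ) : ℚ)) := by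
    simp
  rw [h2, mul_assoc, Polynomial.coeff_C_mul, Polynomial.coeff_C_mul]

theorem tc_zero_right (α : ℕ → Pol) {l : ℕ} (hl : 1 ≤ l) : tc α l 0 = 0 := by
  unfold tc
  rw [expoP_eq _ _ hl]
  have h1 : algebraMap ℚ (Polynomial Pol) (1 / (l : ℚ)) =
      Polynomial.C (MvPolynomial.C (1 / (l : ℚ))) := rfl
  rw [h1, Polynomial.coeff_C_mul, Polynomial.coeff_X_mul_zero, mul_zero]

theorem tc_bound {μ : ℕ × ℕ} (h1 : 1 ≤ μ.1) (h2 : 1 ≤ μ.2) {α : ℕ → Pol}
    (hα : ∀ k, 1 ≤ k → Bd (k * μ.2 - 1) (k * μ.1 - 1) (α k))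
    (hα' : ∀ k, 1 ≤ k → 0 < tp (k * μ.2 - 1) (k * μ.1 - 1) (α k)) :
    ∀ l k : ℕ, (l < k → tc α l k = 0) ∧ (k ≤ l → Bd (l * μ.2 - k) (l * μ.1 - k) (tc α l k)) ∧
      (k ≤ l → (1 ≤ k ∨ l = 0) → 0 < tp (l * μ.2 - k) (l * μ.1 - k) (tc α l k)) := by
  intro l
  induction l using Nat.strong_induction_on with
  | _ l ih =>
    intro k
    rcases Nat.eq_zero_or_pos l with rfl | hl
    · rw [tc_zero]
      refine ⟨fun h => if_neg (by omega), fun h => ?_, fun h _ => ?_⟩
      · have : k = 0 := by omega
        subst this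
        simpa using Bd.one
      · have : k = 0 := by omega
        subst this
        simp [tp_one]
    · cases k with
      | zero =>
        rw [tc_zero_right α hl]
        exact ⟨fun _ => rfl, fun _ => Bd.zero _ _, fun _ h => by omega⟩
      | succ k =>
        rw [tc_succ α hl]
        have hprod : ∀ j, j < l → k ≤ l - 1 - j →
            (l * μ.2 - (k + 1) = ((j + 1) * μ.2 - 1) + ((l - 1 - j) * μ.2 - k)) ∧
            (l * μ.1 - (k + 1) = ((j + 1) * μ.1 - 1) + ((l - 1 - j) * μ.1 - k)) := by
          intro j hj hk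
          have e : l = (j + 1) + (l - 1 - j) := by omega
          have aux : ∀ m : ℕ, 1 ≤ m → l * m - (k + 1) =
              ((j + 1) * m - 1) + ((l - 1 - j) * m - k) := by
            intro m hm
            have e1 : l * m = (j + 1) * m + (l - 1 - j) * m := by
              rw [← add_mul, ← e]
            have e2 : 1 ≤ (j + 1) * m := Nat.mul_pos (Nat.succ_pos j) hm
            have e3 : k ≤ (l - 1 - j) * m := hk.trans (Nat.le_mul_of_pos_right _ hm)
            omega
          exact ⟨aux _ h2, aux _ h1⟩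
        refine ⟨fun h => ?_, fun h => ?_, fun h _ => ?_⟩
        · rw [Finset.sum_eq_zero, mul_zero]
          intro j hj
          rw [Finset.mem_range] at hj
          rw [(ih (l - 1 - j) (by omega) k).1 (by omega), mul_zero, mul_zero]
        · apply Bd.C_mul
          apply Bd.sum
          intro j hj
          rw [Finset.mem_range] at hj
          apply Bd.C_mul
          rcases Nat.lt_or_ge (l - 1 - j) k with h3 | h3
          · rw [(ih (l - 1 - j) (by omega) k).1 h3, mul_zero]
            exact Bd.zero _ _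
          · obtain ⟨e1, e2⟩ := hprod j hj h3
            rw [e1, e2]
            exact (hα (j + 1) (by omega)).mul ((ih (l - 1 - j) (by omega) k).2.1 h3)
        · rw [tp_C_mul, tp_sum]
          apply mul_pos (by positivity)
          have hterm : ∀ j ∈ Finset.range l, 0 ≤ tp (l * μ.2 - (k + 1)) (l * μ.1 - (k + 1))
              (MvPolynomial.C ((j + 1 : ℕ) : ℚ) * (α (j + 1) * tc α (l - 1 - j) k)) := by
            intro j hj
            rw [Finset.mem_range] at hj
            rw [tp_C_mul]
            apply mul_nonneg (by positivity)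
            rcases Nat.lt_or_ge (l - 1 - j) k with h3 | h3
            · rw [(ih (l - 1 - j) (by omega) k).1 h3, mul_zero, tp_zero']
            · obtain ⟨e1, e2⟩ := hprod j hj h3
              rw [e1, e2, tp_mul (hα (j + 1) (by omega)) ((ih (l - 1 - j) (by omega) k).2.1 h3)]
              apply mul_nonneg (hα' (j + 1) (by omega)).le
              rcases Nat.eq_zero_or_pos k with rfl | hk
              · rcases Nat.eq_zero_or_pos (l - 1 - j) with h4 | h4
                · exact ((ih (l - 1 - j) (by omega) 0).2.2 h3 (Or.inr h4)).le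
                · rw [tc_zero_right α h4, tp_zero']
              · exact ((ih (l - 1 - j) (by omega) k).2.2 h3 (Or.inl hk)).le
          -- a positive term
          obtain ⟨j, hj, hjk, hpos⟩ : ∃ j, j < l ∧ k ≤ l - 1 - j ∧ (1 ≤ k ∨ l - 1 - j = 0) := by
            rcases Nat.eq_zero_or_pos k with rfl | hk
            · exact ⟨l - 1, by omega, by omega, Or.inr (by omega)⟩
            · exact ⟨0, by omega, by omega, Or.inl hk⟩
          refine lt_of_lt_of_le ?_ (Finset.single_le_sum hterm (Finset.mem_range.2 hj))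
          rw [tp_C_mul]
          apply mul_pos (by positivity)
          obtain ⟨e1, e2⟩ := hprod j hj hjk
          rw [e1, e2, tp_mul (hα (j + 1) (by omega)) ((ih (l - 1 - j) (by omega) k).2.1 hjk)]
          exact mul_pos (hα' (j + 1) (by omega)) ((ih (l - 1 - j) (by omega) k).2.2 hjk hpos)

theorem aOf_map {A B : Type*} [CommRing A] [Algebra ℚ A] [CommRing B] [Algebra ℚ B] (φ : A →+* B)
    (x : ℕ → A) (k : ℕ) : φ (aOf x k) = aOf (fun j => φ (x j)) k := by
  unfold aOf
  rw [map_mul, RingHom.map_rat_algebraMap, map_sum]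
  congr 1
  refine Finset.sum_congr rfl fun j _ => ?_
  rw [map_mul, map_mul, map_pow, map_neg, map_one, map_natCast]

/-- `T` as an exponential -/
theorem T_eq (U : ℕ × ℕ → Pol) (n : ℕ × ℕ) : T U n =
    expoP (fun k => Polynomial.C (aOf (fun j => U (j • prim n)) k)) Polynomial.X
      (Nat.gcd n.1 n.2) := by
  have h1 : T U n = Tsum (fun j => Polynomial.X * Polynomial.C (U (j • prim n)))
      (Nat.gcd n.1 n.2) := rfl
  rw [h1, Tsum_eq_expoP (fun j => Polynomial.C (U (j • prim n))) Polynomial.X]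
  congr 1
  funext k
  rw [aOf_map]

theorem tau_eq (U : ℕ × ℕ → Pol) (n : ℕ × ℕ) (k : ℕ) :
    tau U n k = tc (fun k => aOf (fun j => U (j • prim n)) k) (Nat.gcd n.1 n.2) k := by
  rw [tau, T_eq, tc]

theorem tc_congr {α β : ℕ → Pol} {l : ℕ} (h : ∀ k, 1 ≤ k → k ≤ l → α k = β k) (k : ℕ) :
    tc α l k = tc β l k := by
  unfold tc
  rw [expoP_congr]
  intro j h1 h2
  rw [h j h1 h2]

/-- exact degrees from the bounds -/
theorem degreeOf_of_bd {B C : ℕ} {p : Pol} (h : Bd B C p) (h' : 0 < tp B C p) :
    MvPolynomial.degreeOf 0 p = B ∧ MvPolynomial.degreeOf 1 p = C := by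
  have hs : ev B C ∈ p.support := by
    rw [MvPolynomial.mem_support_iff]
    exact h'.ne'
  constructor
  · apply le_antisymm
    · rw [MvPolynomial.degreeOf_le_iff]
      intro m hm
      rw [MvPolynomial.mem_support_iff] at hm
      exact (h m hm).1
    · have := MvPolynomial.monomial_le_degreeOf 0 hs
      rwa [ev_zero] at this
  · apply le_antisymm
    · rw [MvPolynomial.degreeOf_le_iff]
      intro m hm
      rw [MvPolynomial.mem_support_iff] at hm
      exact (h m hm).2
    · have := MvPolynomial.monomial_le_degreeOf 1 hs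
      rwa [ev_one] at this

end Pool.Agent.H45.Scat
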