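import Pool.Agent.H45.Scat.Ode
set_option autoImplicit false
namespace Pool.Agent.H45.Scat
open Finset PowerSeries

variable {b c : ℕ}

theorem zpow_congr {f f' : PowerSeries ℚ} (hf : constantCoeff f = 1) (hf' : constantCoeff f' = 1)
    {l : ℕ} (h : ∀ k < l, coeff k f = coeff k f') (e : ℤ) :
    ∀ k < l, coeff k (zpow f e) = coeff k (zpow f' e) := by
  have h1 : (X : PowerSeries ℚ) ^ l ∣ f - f' := by
    rw [X_pow_dvd_iff]
    intro k hk
    rw [map_sub, h k hk, sub_self]
  have h2 : (X : PowerSeries ℚ) ^ l ∣ zpow f e - zpow f' e := by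
    unfold zpow
    split_ifs
    · exact h1.trans (sub_dvd_pow_sub_pow _ _ _)
    · refine dvd_trans ?_ (sub_dvd_pow_sub_pow _ _ _)
      have : f⁻¹ - f'⁻¹ = -(f⁻¹ * f'⁻¹) * (f - f') := by
        have e1 : f⁻¹ * f = 1 := PowerSeries.inv_mul_cancel f (by rw [hf]; exact one_ne_zero)
        have e2 : f'⁻¹ * f' = 1 := PowerSeries.inv_mul_cancel f' (by rw [hf']; exact one_ne_zero)
        linear_combination f'⁻¹ * e1 - f⁻¹ * e2
      rw [this]
      exact h1.mul_left _
  rw [X_pow_dvd_iff] at h2
  intro k hk
  have := h2 k hk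
  rw [map_sub] at this
  exact sub_eq_zero.1 this

theorem cross_zero {μ : ℕ × ℕ} (hμ : Nat.Coprime μ.1 μ.2) {f : PowerSeries ℚ}
    (hf : constantCoeff f = 1) (m : ℤ × ℤ) : cross b c μ f 0 m = 1 := by
  have := cross_smul (b := b) (c := c) hμ f 0 m
  rw [zero_smul] at this
  rw [this, coeff_zero_eq_constantCoeff, constantCoeff_zpow _ hf]

/-- the first order difference of two ordered products -/
theorem prod_diff {K : ℕ} (hK : 1 ≤ K) {f f' : ℕ × ℕ → PowerSeries ℚ} :
    ∀ L : List (ℕ × ℕ), (∀ p ∈ L, Nat.Coprime p.1 p.2 ∧ constantCoeff (f p) = 1 ∧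
      constantCoeff (f' p) = 1 ∧ ∀ n : ℕ × ℕ, n.1 + n.2 < K → ∀ m,
        cross b c p (f p) n m = cross b c p (f' p) n m) →
      (∀ n : ℕ × ℕ, n.1 + n.2 < K → ∀ m, prodL b c f L n m = prodL b c f' L n m) ∧
      (∀ m, prodL b c f L 0 m = 1) ∧
      ∀ n : ℕ × ℕ, n.1 + n.2 = K → ∀ m, prodL b c f L n m - prodL b c f' L n m =
        (L.map fun p => cross b c p (f p) n m - cross b c p (f' p) n m).sum := by
  intro L
  induction L with
  | nil =>
    intro _
    refine ⟨fun _ _ _ => rfl, fun m => by simp [prodL, one], fun n _ m => by simp [prodL]⟩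
  | cons a L ih =>
    intro h
    obtain ⟨ha, haf, haf', hac⟩ := h a (by simp)
    obtain ⟨ih1, ih2, ih3⟩ := ih fun p hp => h p (by simp [hp])
    have e : ∀ f : ℕ × ℕ → PowerSeries ℚ, prodL b c f (a :: L) =
        comp b c (cross b c a (f a)) (prodL b c f L) := by
      intro f
      simp [prodL]
    have h0 : (0 : ℕ × ℕ).1 + (0 : ℕ × ℕ).2 < K := by
      simp only [Prod.fst_zero, Prod.snd_zero]
      omega
    have ih2' : ∀ m, prodL b c f' L 0 m = 1 := fun m => by rw [← ih1 0 h0 m, ih2 m]
    rw [e, e]
    refine ⟨?_, ?_, ?_⟩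
    · intro n hn m
      simp only [comp]
      refine Finset.sum_congr rfl fun p hp => ?_
      have hp := Finset.mem_Iic.1 hp
      have h1 : p.1 ≤ n.1 := hp.1
      have h2 : p.2 ≤ n.2 := hp.2
      rw [hac (n - p) (by simp only [Prod.fst_sub, Prod.snd_sub]; omega), ih1 p (by omega)]
    · intro m
      have : Finset.Iic (0 : ℕ × ℕ) = {0} := by
        ext p
        rw [Finset.mem_Iic, Finset.mem_singleton]
        exact ⟨fun h => le_antisymm h zero_le, fun h => h.le⟩
      rw [comp, this, Finset.sum_singleton, ih2 m, mul_one, tsub_zero, cross_zero ha haf]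
    · intro n hn m
      have hn0 : n ≠ 0 := by
        intro h
        rw [h] at hn
        simp at hn
        omega
      rw [List.map_cons, List.sum_cons, ← ih3 n hn m, comp, comp, ← Finset.sum_sub_distrib]
      have hsub : ({0, n} : Finset (ℕ × ℕ)) ⊆ Finset.Iic n := by
        intro p hp
        rw [Finset.mem_insert, Finset.mem_singleton] at hp
        rw [Finset.mem_Iic]
        rcases hp with rfl | rfl
        · exact zero_le
        · exact le_rfl
      rw [← Finset.sum_subset hsub, Finset.sum_pair hn0.symm]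
      · rw [tsub_zero, tsub_self, ih2, ih2', cross_zero ha haf, cross_zero ha haf', yexp_zero,
          add_zero]
        ring
      · intro p hp hp'
        have hp := Finset.mem_Iic.1 hp
        have h1 : p.1 ≤ n.1 := hp.1
        have h2 : p.2 ≤ n.2 := hp.2
        rw [Finset.mem_insert, Finset.mem_singleton, not_or] at hp'
        have h3 : p.1 + p.2 ≠ 0 := by
          intro h
          apply hp'.1
          ext
          · simp only [Prod.fst_zero]; omega
          · simp only [Prod.snd_zero]; omega
        have h4 : p.1 + p.2 ≠ n.1 + n.2 := by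
          intro h
          apply hp'.2
          ext <;> omega
        rw [hac (n - p) (by simp only [Prod.fst_sub, Prod.snd_sub]; omega), ih1 p (by omega),
          sub_self]

theorem exists_pair_one (hb : 1 ≤ b) (hc : 1 ≤ c) {μ : ℕ × ℕ} (hμ : Nat.Coprime μ.1 μ.2) :
    ∃ m : ℤ × ℤ, pair b c μ m = 1 := by
  have hg := gcd_pos hb hc hμ
  refine ⟨(Nat.gcdA (μ.1 * b) (μ.2 * c), Nat.gcdB (μ.1 * b) (μ.2 * c)), ?_⟩
  unfold pair
  simp only []
  rw [← Nat.gcd_eq_gcd_ab]
  exact Int.ediv_self (by exact_mod_cast hg.ne')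

/-- the lists in two consistency statements agree -/
theorem list_unique {N : ℕ} {L L' : List (ℕ × ℕ)}
    (hL : ∀ p : ℕ × ℕ, p ∈ L ↔ 1 ≤ p.1 ∧ 1 ≤ p.2 ∧ Nat.Coprime p.1 p.2 ∧ p.1 + p.2 ≤ N)
    (hLs : L.Pairwise (fun p q => q.2 * p.1 < p.2 * q.1))
    (hL' : ∀ p : ℕ × ℕ, p ∈ L' ↔ 1 ≤ p.1 ∧ 1 ≤ p.2 ∧ Nat.Coprime p.1 p.2 ∧ p.1 + p.2 ≤ N)
    (hLs' : L'.Pairwise (fun p q => q.2 * p.1 < p.2 * q.1)) : L = L' := by
  have hn : L.Nodup := hLs.imp fun {p q} h he => by
    subst he
    exact lt_irrefl _ h
  have hn' : L'.Nodup := hLs'.imp fun {p q} h he => by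
    subst he
    exact lt_irrefl _ h
  have hp : L.Perm L' := (List.perm_ext_iff_of_nodup hn hn').2 fun p => by rw [hL, hL']
  refine hp.eq_of_pairwise ?_ hLs hLs'
  intro p q _ _ h1 h2
  exact absurd (h1.trans h2) (lt_irrefl _)

theorem consistent_unique (hb : 1 ≤ b) (hc : 1 ≤ c) {f f' : ℕ × ℕ → PowerSeries ℚ}
    (hf : ∀ μ : ℕ × ℕ, constantCoeff (f μ) = 1) (hf' : ∀ μ : ℕ × ℕ, constantCoeff (f' μ) = 1)
    (h : Consistent b c f) (h' : Consistent b c f') (p : ℕ × ℕ) (hp1 : 1 ≤ p.1) (hp2 : 1 ≤ p.2)
    (hp : Nat.Coprime p.1 p.2) : f p = f' p := by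
  have key : ∀ K : ℕ, ∀ p : ℕ × ℕ, 1 ≤ p.1 → 1 ≤ p.2 → Nat.Coprime p.1 p.2 → ∀ l : ℕ,
      l * (p.1 + p.2) < K → coeff l (f p) = coeff l (f' p) := by
    intro K
    induction K with
    | zero => intro p _ _ _ l h; omega
    | succ K ih =>
      intro p hp1 hp2 hp l hl
      rcases Nat.lt_or_ge (l * (p.1 + p.2)) K with h1 | h1
      · exact ih p hp1 hp2 hp l h1
      have hlK : l * (p.1 + p.2) = K := by omega
      rcases Nat.eq_zero_or_pos l with rfl | hl0
      · rw [coeff_zero_eq_constantCoeff, hf, hf']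
      have hK : 1 ≤ K := by
        rw [← hlK]
        exact Nat.mul_pos hl0 (by omega)
      obtain ⟨L, hL, hLs, hLc⟩ := h K
      obtain ⟨L', hL', hLs', hLc'⟩ := h' K
      have hLL := list_unique hL hLs hL' hLs'
      subst hLL
      let F : (ℕ × ℕ → PowerSeries ℚ) → (ℕ × ℕ → PowerSeries ℚ) := fun f μ =>
        if μ = (1, 0) ∨ μ = (0, 1) then 1 + X else f μ
      have hF : ∀ f : ℕ × ℕ → PowerSeries ℚ,
          comp b c (cross b c (0, 1) (1 + X)) (comp b c
            ((L.map fun p => cross b c p (f p)).foldr (comp b c) one)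
            (cross b c (1, 0) (1 + X))) = prodL b c (F f) ([(0, 1)] ++ (L ++ [(1, 0)])) := by
        intro f
        have e1 : F f (0, 1) = 1 + X := if_pos (Or.inr rfl)
        have e2 : F f (1, 0) = 1 + X := if_pos (Or.inl rfl)
        rw [prodL_append, prodL_append, prodL_singleton, prodL_singleton, e1, e2]
        congr 2
        unfold prodL
        congr 1
        apply List.map_congr_left
        intro q hq
        have hq' := (hL q).1 hq
        have : F f q = f q := if_neg (by
          rintro (rfl | rfl)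
          · simp at hq'
          · simp at hq')
        rw [this]
      have hFc : ∀ f : ℕ × ℕ → PowerSeries ℚ, (∀ μ, constantCoeff (f μ) = 1) →
          ∀ μ, constantCoeff (F f μ) = 1 := by
        intro f hf μ
        simp only [F]
        split_ifs
        · simp
        · exact hf μ
      have hmem : ∀ q ∈ [(0, 1)] ++ (L ++ [(1, 0)]), Nat.Coprime q.1 q.2 ∧
          constantCoeff (F f q) = 1 ∧ constantCoeff (F f' q) = 1 ∧
          ∀ n : ℕ × ℕ, n.1 + n.2 < K → ∀ m,
            cross b c q (F f q) n m = cross b c q (F f' q) n m := by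
        intro q hq
        simp only [List.mem_append, List.mem_singleton] at hq
        refine ⟨?_, hFc f hf q, hFc f' hf' q, ?_⟩
        · rcases hq with rfl | hq | rfl
          · simp
          · exact ((hL q).1 hq).2.2.1
          · simp
        · intro n hn m
          rcases hq with rfl | hq | rfl
          · rfl
          · have hq' := (hL q).1 hq
            have hne : ¬ (q = (1, 0) ∨ q = (0, 1)) := by
              rintro (rfl | rfl)
              · simp at hq'
              · simp at hq'
            have e1 : F f q = f q := if_neg hne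
            have e2 : F f' q = f' q := if_neg hne
            rw [e1, e2]
            by_cases hr : ∃ k : ℕ, n = k • q
            · obtain ⟨k, rfl⟩ := hr
              rw [cross_smul hq'.2.2.1, cross_smul hq'.2.2.1]
              refine zpow_congr (l := k + 1) (hf q) (hf' q) ?_ _ k (Nat.lt_succ_self k)
              intro j hj
              apply ih q hq'.1 hq'.2.1 hq'.2.2.1 j
              simp only [Prod.smul_fst, Prod.smul_snd, smul_eq_mul, ← mul_add] at hn
              exact lt_of_le_of_lt (Nat.mul_le_mul_right _ (by omega)) hn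
            · push Not at hr
              rw [cross_of_not hq'.2.2.1 _ hr, cross_of_not hq'.2.2.1 _ hr]
          · rfl
      have hd := (prod_diff hK _ hmem).2.2 (l • p)
        (by simp only [Prod.smul_fst, Prod.smul_snd, smul_eq_mul, ← mul_add]; exact hlK)
      obtain ⟨m, hm⟩ := exists_pair_one hb hc hp
      have hdm := hd m
      rw [← hF, ← hF] at hdm
      have hsz : (l • p).1 + (l • p).2 ≤ K := by
        simp only [Prod.smul_fst, Prod.smul_snd, smul_eq_mul, ← mul_add]
        exact hlK.le
      rw [← hLc (l • p) hsz m, ← hLc' (l • p) hsz m, sub_self] at hdm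
      have hpL : p ∈ L := by
        rw [hL]
        refine ⟨hp1, hp2, hp, ?_⟩
        rw [← hlK]
        exact Nat.le_mul_of_pos_left _ hl0
      have hLn : L.Nodup := hLs.imp fun {p q} h he => by
        subst he
        exact lt_irrefl _ h
      -- all other terms vanish
      have hzero : ∀ q : ℕ × ℕ, Nat.Coprime q.1 q.2 → q ≠ p → ∀ g : PowerSeries ℚ,
          cross b c q g (l • p) m = 0 := by
        intro q hq hqp g
        apply cross_of_not hq
        intro k hk
        have hk0 : 1 ≤ k := by
          rcases Nat.eq_zero_or_pos k with rfl | hk0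
          · rw [zero_smul] at hk
            have := congrArg Prod.fst hk
            simp only [Prod.smul_fst, smul_eq_mul, Prod.fst_zero] at this
            rcases Nat.mul_eq_zero.1 this with h | h <;> omega
          · exact hk0
        apply hqp
        rw [← prim_smul hq hk0, ← hk, prim_smul hp hl0]
      rw [List.map_append, List.map_append, List.sum_append, List.sum_append] at hdm
      simp only [List.map_cons, List.map_nil, List.sum_cons, List.sum_nil, add_zero] at hdm
      have c01 : Nat.Coprime ((0, 1) : ℕ × ℕ).1 ((0, 1) : ℕ × ℕ).2 := by simp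
      have c10 : Nat.Coprime ((1, 0) : ℕ × ℕ).1 ((1, 0) : ℕ × ℕ).2 := by simp
      have n01 : ((0, 1) : ℕ × ℕ) ≠ p := by
        rintro rfl
        simp at hp1
      have n10 : ((1, 0) : ℕ × ℕ) ≠ p := by
        rintro rfl
        simp at hp2
      rw [hzero _ c01 n01, hzero _ c01 n01, hzero _ c10 n10, hzero _ c10 n10, sub_zero, zero_add,
        add_zero] at hdm
      have hsum : (L.map fun q => cross b c q (F f q) (l • p) m - cross b c q (F f' q) (l • p) m).sum
          = cross b c p (F f p) (l • p) m - cross b c p (F f' p) (l • p) m := by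
        rw [← List.sum_toFinset _ hLn, Finset.sum_eq_single p]
        · intro q hq hqp
          have hq' := (hL q).1 (List.mem_toFinset.1 hq)
          rw [hzero q hq'.2.2.1 hqp, hzero q hq'.2.2.1 hqp, sub_zero]
        · intro h
          exact absurd (List.mem_toFinset.2 hpL) h
      rw [hsum, cross_smul hp, cross_smul hp, hm, zpow_one', zpow_one'] at hdm
      have hne : ¬ (p = (1, 0) ∨ p = (0, 1)) := by
        rintro (h | h)
        · exact n10 h.symm
        · exact n01 h.symm
      have e1 : F f p = f p := if_neg hne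
      have e2 : F f' p = f' p := if_neg hne
      rw [e1, e2] at hdm
      exact (sub_eq_zero.1 hdm.symm)
  ext l
  exact key (l * (p.1 + p.2) + 1) p hp1 hp2 hp l (Nat.lt_succ_self _)

end Pool.Agent.H45.Scat
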