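import Pool.Agent.H45.Scat.Ray
set_option autoImplicit false
namespace Pool.Agent.H45.Scat
open Finset PowerSeries

variable {b c : ℕ}

theorem conv_identity (f L : PowerSeries ℚ) (hf : constantCoeff f = 1) (hL : zd f = L * f)
    (x y : ℤ) (W κ : ℚ) (l : ℕ) :
    ∑ j ∈ Finset.range (l + 1), coeff (l - j) (zpow f y) * coeff j (zpow f x) *
      (W + ((l - j : ℕ) : ℚ) * κ * x - (j : ℚ) * κ * y) = coeff l (zpow f (x + y)) * W := by
  have h1 : coeff l (zpow f (x + y)) = ∑ j ∈ Finset.range (l + 1),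
      coeff (l - j) (zpow f y) * coeff j (zpow f x) := by
    rw [zpow_add' f hf, PowerSeries.coeff_mul,
      Finset.Nat.sum_antidiagonal_eq_sum_range_succ
        (fun i j => coeff i (zpow f x) * coeff j (zpow f y))]
    exact Finset.sum_congr rfl fun j _ => mul_comm _ _
  have h2 : ∑ j ∈ Finset.range (l + 1), coeff (l - j) (zpow f y) * coeff j (zpow f x) *
      (((l - j : ℕ) : ℚ) * x - (j : ℚ) * y) = 0 := by
    have h3 : (x : PowerSeries ℚ) * (zpow f x * zd (zpow f y)) -
        (y : PowerSeries ℚ) * (zd (zpow f x) * zpow f y) = 0 := by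
      rw [zd_zpow f L hf hL, zd_zpow f L hf hL]
      ring
    have h4 := congrArg (coeff l) h3
    rw [map_sub, map_zero] at h4
    have hx : (x : PowerSeries ℚ) = C (x : ℚ) := by simp
    have hy : (y : PowerSeries ℚ) = C (y : ℚ) := by simp
    rw [hx, hy, coeff_C_mul, coeff_C_mul, PowerSeries.coeff_mul, PowerSeries.coeff_mul,
      Finset.Nat.sum_antidiagonal_eq_sum_range_succ
        (fun i j => coeff i (zpow f x) * coeff j (zd (zpow f y))),
      Finset.Nat.sum_antidiagonal_eq_sum_range_succ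
        (fun i j => coeff i (zd (zpow f x)) * coeff j (zpow f y)),
      Finset.mul_sum, Finset.mul_sum, ← Finset.sum_sub_distrib] at h4
    rw [← h4]
    refine Finset.sum_congr rfl fun j _ => ?_
    rw [coeff_zd, coeff_zd]
    ring
  rw [h1, Finset.sum_mul]
  have : ∑ j ∈ Finset.range (l + 1), coeff (l - j) (zpow f y) * coeff j (zpow f x) *
      (W + ((l - j : ℕ) : ℚ) * κ * x - (j : ℚ) * κ * y) =
      ∑ j ∈ Finset.range (l + 1), coeff (l - j) (zpow f y) * coeff j (zpow f x) * W +
      κ * ∑ j ∈ Finset.range (l + 1), coeff (l - j) (zpow f y) * coeff j (zpow f x) *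
      (((l - j : ℕ) : ℚ) * x - (j : ℚ) * y) := by
    rw [Finset.mul_sum, ← Finset.sum_add_distrib]
    exact Finset.sum_congr rfl fun j _ => by ring
  rw [this, h2, mul_zero, add_zero]

/-- the adjoint action of a wall on Lie algebra elements -/
noncomputable def Ad (b c : ℕ) (μ : ℕ × ℕ) (f : PowerSeries ℚ) (X : ℕ × ℕ → ℚ) : ℕ × ℕ → ℚ :=
  fun n => ∑ i ∈ ridx μ n, coeff i (zpow f (pair b c μ (yexp b c n))) * X (n - i • μ)

theorem pair_yexp_self {μ : ℕ × ℕ} (l : ℕ) : pair b c μ (yexp b c (l • μ)) = 0 := by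
  have : om b c μ (yexp b c (l • μ)) = 0 := by
    rw [om_yexp]
    simp only [Prod.smul_fst, Prod.smul_snd, smul_eq_mul]
    push_cast
    ring
  unfold pair
  unfold om at this
  rw [this]
  simp

theorem pair_yexp_add {μ : ℕ × ℕ} (hg : 0 < Nat.gcd (μ.1 * b) (μ.2 * c)) (n : ℕ × ℕ) (l : ℕ) :
    pair b c μ (yexp b c (n + l • μ)) = pair b c μ (yexp b c n) := by
  rw [yexp_add, pair_add hg, pair_yexp_self, add_zero]

/-- moving a Lie algebra element through a wall -/
theorem cross_comp_lie (hb : 1 ≤ b) (hc : 1 ≤ c) {μ : ℕ × ℕ} (hμ : Nat.Coprime μ.1 μ.2)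
    (f L : PowerSeries ℚ) (hf : constantCoeff f = 1) (hL : zd f = L * f) (X : ℕ × ℕ → ℚ) :
    comp b c (cross b c μ f) (lie b c X) = comp b c (lie b c (Ad b c μ f X)) (cross b c μ f) := by
  have hg := gcd_pos hb hc hμ
  have hμ1 := ne_zero_of_coprime hμ
  funext n m
  have hl : comp b c (cross b c μ f) (lie b c X) n m = ∑ l ∈ ridx μ n,
      coeff l (zpow f (pair b c μ (m + yexp b c (n - l • μ)))) *
        (X (n - l • μ) * (om b c (n - l • μ) m : ℚ)) := by
    rw [comp, sum_ray_left hμ1 n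
      (fun q p => cross b c μ f q (m + yexp b c p) * lie b c X p m)]
    · refine Finset.sum_congr rfl fun l _ => ?_
      rw [cross_smul hμ, lie]
    · intro q p h
      rw [cross_of_not hμ f h, zero_mul]
  have hr : comp b c (lie b c (Ad b c μ f X)) (cross b c μ f) n m =
      ∑ j ∈ ridx μ n, ∑ i ∈ ridx μ (n - j • μ),
        coeff i (zpow f (pair b c μ (yexp b c (n - j • μ)))) * X (n - j • μ - i • μ) *
        (om b c (n - j • μ) (m + yexp b c (j • μ)) : ℚ) * coeff j (zpow f (pair b c μ m)) := by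
    rw [comp, sum_ray_right hμ1 n
      (fun q p => lie b c (Ad b c μ f X) q (m + yexp b c p) * cross b c μ f p m)]
    · refine Finset.sum_congr rfl fun l _ => ?_
      rw [cross_smul hμ, lie, Ad, Finset.sum_mul, Finset.sum_mul]
    · intro q p h
      rw [cross_of_not hμ f h, mul_zero]
  have hr2 : ∑ j ∈ ridx μ n, ∑ i ∈ ridx μ (n - j • μ),
        coeff i (zpow f (pair b c μ (yexp b c (n - j • μ)))) * X (n - j • μ - i • μ) *
        (om b c (n - j • μ) (m + yexp b c (j • μ)) : ℚ) * coeff j (zpow f (pair b c μ m)) =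
      ∑ j ∈ ridx μ n, ∑ i ∈ ridx μ (n - j • μ),
        (fun i j => coeff i (zpow f (pair b c μ (yexp b c n))) * X (n - (j + i) • μ) *
        (om b c (n - j • μ) (m + yexp b c (j • μ)) : ℚ) * coeff j (zpow f (pair b c μ m))) i j := by
    refine Finset.sum_congr rfl fun j hj => Finset.sum_congr rfl fun i hi => ?_
    rw [mem_ridx hμ1] at hj
    have : pair b c μ (yexp b c (n - j • μ)) = pair b c μ (yexp b c n) := by
      rw [← pair_yexp_add hg (n - j • μ) j, tsub_add_cancel_of_le hj]
    simp only []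
    rw [this, tsub_tsub, ← add_smul]
  rw [hl, hr, hr2, ray_conv hμ1]
  refine Finset.sum_congr rfl fun l hl => ?_
  rw [mem_ridx hμ1] at hl
  obtain ⟨q, hq⟩ : ∃ q, n = q + l • μ := ⟨n - l • μ, (tsub_add_cancel_of_le hl).symm⟩
  have hq' : n - l • μ = q := by rw [hq]; simp
  have hyn : pair b c μ (yexp b c n) = pair b c μ (yexp b c q) := by
    rw [hq, pair_yexp_add hg]
  have key := conv_identity f L hf hL (pair b c μ m) (pair b c μ (yexp b c q))
    (om b c q m) (Nat.gcd (μ.1 * b) (μ.2 * c) : ℕ) l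
  rw [hq', pair_add hg]
  have h1 : coeff l (zpow f (pair b c μ m + pair b c μ (yexp b c q))) *
      (X q * (om b c q m : ℚ)) = X q * (coeff l (zpow f (pair b c μ m + pair b c μ (yexp b c q))) *
      (om b c q m : ℚ)) := by ring
  rw [h1, ← key, Finset.mul_sum]
  refine Finset.sum_congr rfl fun j hj => ?_
  rw [Finset.mem_range] at hj
  have hjl : j + (l - j) = l := by omega
  rw [hyn, hjl, hq']
  have h2 : n - j • μ = q + (l - j) • μ := by
    rw [hq]
    conv_lhs => rw [← hjl, add_smul, ← add_assoc, add_right_comm]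
    simp
  have e1 := pair_mul (b := b) (c := c) μ m
  have e2 := pair_mul (b := b) (c := c) μ (yexp b c q)
  have h3 : om b c (n - j • μ) (m + yexp b c (j • μ)) = om b c q m +
      ((l - j : ℕ) : ℤ) * om b c μ m - (j : ℤ) * om b c μ (yexp b c q) := by
    rw [h2, om_add_left, om_smul_left, om_add_right, om_add_right, om_yexp, om_yexp, om_yexp]
    simp only [Prod.smul_fst, Prod.smul_snd, smul_eq_mul]
    push_cast
    ring
  rw [h3, ← e1, ← e2]
  push_cast
  ring

end Pool.Agent.H45.Scat
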