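import Pool.Agent.H45.Scat.Wall
set_option autoImplicit false
namespace Pool.Agent.H45.Scat
open Finset PowerSeries

variable {b c : ℕ}

theorem ridx_smul {μ : ℕ × ℕ} (hμ : 1 ≤ μ.1 + μ.2) (l : ℕ) :
    ridx μ (l • μ) = Finset.range (l + 1) := by
  ext k
  rw [mem_ridx hμ, Finset.mem_range]
  constructor
  · intro h
    have h1 : k * μ.1 ≤ l * μ.1 := h.1
    have h2 : k * μ.2 ≤ l * μ.2 := h.2
    by_contra hc
    have h3 : (l + 1) * μ.1 ≤ k * μ.1 := Nat.mul_le_mul_right _ (by omega)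
    have h4 : (l + 1) * μ.2 ≤ k * μ.2 := Nat.mul_le_mul_right _ (by omega)
    rw [add_mul] at h3 h4
    omega
  · intro h
    obtain ⟨j, rfl⟩ := Nat.exists_eq_add_of_le (show k ≤ l by omega)
    rw [add_smul]
    exact le_self_add

theorem sub_smul_not {μ : ℕ × ℕ} {n : ℕ × ℕ} (h : ∀ l : ℕ, n ≠ l • μ) {l : ℕ} (hl : l • μ ≤ n) :
    ∀ k : ℕ, n - l • μ ≠ k • μ := by
  intro k hk
  apply h (k + l)
  rw [add_smul, ← hk, tsub_add_cancel_of_le hl]

/-- the logarithmic derivative of a wall -/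
theorem E2_cross (hb : 1 ≤ b) (hc : 1 ≤ c) {μ : ℕ × ℕ} (hμ : Nat.Coprime μ.1 μ.2)
    (f L : PowerSeries ℚ) (hf : constantCoeff f = 1) (hL : zd f = L * f) (Y : ℕ × ℕ → ℚ)
    (hY : ∀ k : ℕ, (k : ℚ) * (Nat.gcd (μ.1 * b) (μ.2 * c) : ℕ) * Y (k • μ) =
      (μ.2 : ℚ) * coeff k L)
    (hY0 : ∀ n : ℕ × ℕ, (∀ k : ℕ, n ≠ k • μ) → Y n = 0) :
    E2 (cross b c μ f) = comp b c (lie b c Y) (cross b c μ f) := by
  have hg := gcd_pos hb hc hμ
  have hμ1 := ne_zero_of_coprime hμ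
  funext n m
  have hr : comp b c (lie b c Y) (cross b c μ f) n m = ∑ l ∈ ridx μ n,
      Y (l • μ) * (om b c (l • μ) (m + yexp b c (n - l • μ)) : ℚ) *
        cross b c μ f (n - l • μ) m := by
    rw [comp, sum_ray_left hμ1 n
      (fun q p => lie b c Y q (m + yexp b c p) * cross b c μ f p m)]
    · rfl
    · intro q p h
      rw [lie, hY0 q h, zero_mul, zero_mul]
  rw [hr]
  by_cases h : ∃ l : ℕ, n = l • μ
  · obtain ⟨l, rfl⟩ := h
    rw [ridx_smul hμ1, E2, cross_smul hμ]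
    have h1 := congrArg (coeff l) (zd_zpow f L hf hL (pair b c μ m))
    have hx : ((pair b c μ m : ℤ) : PowerSeries ℚ) = C ((pair b c μ m : ℤ) : ℚ) := by simp
    rw [coeff_zd, hx, mul_assoc, coeff_C_mul, PowerSeries.coeff_mul,
      Finset.Nat.sum_antidiagonal_eq_sum_range_succ
        (fun i j => coeff i L * coeff j (zpow f (pair b c μ m)))] at h1
    have h2 : (((l • μ).2 : ℕ) : ℚ) * coeff l (zpow f (pair b c μ m)) =
        (μ.2 : ℚ) * (l * coeff l (zpow f (pair b c μ m))) := by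
      simp only [Prod.smul_snd, smul_eq_mul]
      push_cast
      ring
    rw [h2, h1, ← mul_assoc, Finset.mul_sum]
    refine Finset.sum_congr rfl fun k hk => ?_
    rw [Finset.mem_range] at hk
    obtain ⟨j, rfl⟩ := Nat.exists_eq_add_of_le (show k ≤ l by omega)
    have h3 : (k + j) • μ - k • μ = j • μ := by
      rw [add_smul]
      exact add_tsub_cancel_left _ _
    rw [h3, cross_smul hμ, Nat.add_sub_cancel_left, om_add_right]
    have h4 : om b c (k • μ) (yexp b c (j • μ)) = 0 := by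
      rw [om_yexp]
      simp only [Prod.smul_fst, Prod.smul_snd, smul_eq_mul]
      push_cast
      ring
    rw [h4, add_zero, om_smul_left, ← pair_mul]
    have h5 := hY k
    push_cast
    linear_combination (-(pair b c μ m : ℚ) * coeff j (zpow f (pair b c μ m))) * h5
  · push Not at h
    rw [E2, cross_of_not hμ f h, mul_zero]
    symm
    refine Finset.sum_eq_zero fun l hl => ?_
    rw [mem_ridx hμ1] at hl
    rw [cross_of_not hμ f (sub_smul_not h hl), mul_zero]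

/-- on its own ray the adjoint action is trivial -/
theorem Ad_ray (hb : 1 ≤ b) (hc : 1 ≤ c) {μ : ℕ × ℕ} (hμ : Nat.Coprime μ.1 μ.2)
    (f : PowerSeries ℚ) (X : ℕ × ℕ → ℚ) (k : ℕ) :
    Ad b c μ f X (k • μ) = X (k • μ) := by
  have hg := gcd_pos hb hc hμ
  have hμ1 := ne_zero_of_coprime hμ
  rw [Ad, pair_yexp_self, ridx_smul hμ1, Finset.sum_eq_single 0]
  · simp [zpow_zero']
  · intro i _ hi
    simp [zpow_zero', coeff_one, hi]
  · simp

theorem E2_cross_right (hb : 1 ≤ b) (hc : 1 ≤ c) {μ : ℕ × ℕ} (hμ : Nat.Coprime μ.1 μ.2)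
    (f L : PowerSeries ℚ) (hf : constantCoeff f = 1) (hL : zd f = L * f) (Y : ℕ × ℕ → ℚ)
    (hY : ∀ k : ℕ, (k : ℚ) * (Nat.gcd (μ.1 * b) (μ.2 * c) : ℕ) * Y (k • μ) =
      (μ.2 : ℚ) * coeff k L)
    (hY0 : ∀ n : ℕ × ℕ, (∀ k : ℕ, n ≠ k • μ) → Y n = 0) :
    E2 (cross b c μ f) = comp b c (cross b c μ f) (lie b c Y) := by
  rw [cross_comp_lie hb hc hμ f L hf hL, E2_cross hb hc hμ f L hf hL Y hY hY0]
  congr 2
  funext n
  by_cases h : ∃ k : ℕ, n = k • μ
  · obtain ⟨k, rfl⟩ := h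
    rw [Ad_ray hb hc hμ]
  · push Not at h
    have hμ1 := ne_zero_of_coprime hμ
    rw [hY0 n h, Ad]
    symm
    refine Finset.sum_eq_zero fun l hl => ?_
    rw [mem_ridx hμ1] at hl
    rw [hY0 _ (sub_smul_not h hl), mul_zero]

end Pool.Agent.H45.Scat
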